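import Pool.Agent.MP_df844f_gt.s5.LemS

/-! PROJECT RK844, row ABS: an isoperimetric inequality at small scales bounds the number of sides. -/

namespace Pool.Agent.MP_df844f_gt

namespace AbsA

variable {X : Surf}

theorem dsymm {a b : X.F} (h : X.DAdj a b) : X.DAdj b a := by
  obtain ⟨ε, e1, e2⟩ := h
  exact ⟨ε, e1, e2.symm⟩

/-- A set in which every side is joined to a fixed one is connected. -/
theorem dconn {D : Finset X.F} {t : X.F}
    (h : ∀ a ∈ D, Relation.ReflTransGen (fun u v => u ∈ D ∧ v ∈ D ∧ X.DAdj u v) a t) :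
    X.DConn D := by
  have s : ∀ a b, Relation.ReflTransGen (fun u v => u ∈ D ∧ v ∈ D ∧ X.DAdj u v) a b →
      Relation.ReflTransGen (fun u v => u ∈ D ∧ v ∈ D ∧ X.DAdj u v) b a := by
    intro a b k
    induction k with
    | refl => exact .refl
    | tail _ q ih => exact .head ⟨q.2.1, q.1, dsymm q.2.2⟩ ih
  exact fun a ha b hb => (h a ha).trans (s _ _ (h b hb))

/-- Balls. -/
noncomputable def ball (X : Surf) (t : X.F) (i : ℕ) : Finset X.F :=
  (Set.toFinite {σ | Rn X.DAdj i t σ}).toFinset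

theorem mem_ball {t σ : X.F} {i : ℕ} : σ ∈ ball X t i ↔ Rn X.DAdj i t σ := by simp [ball]

theorem ball_mono (t : X.F) {i j : ℕ} (h : i ≤ j) : ball X t i ⊆ ball X t j :=
  fun _ k => mem_ball.2 ((mem_ball.1 k).mono h)

theorem ball_conn (t : X.F) (i : ℕ) : X.DConn (ball X t i) := by
  refine dconn (t := t) ?_
  induction i with
  | zero =>
    intro a ha
    cases mem_ball.1 ha
    exact .refl
  | succ i ih =>
    have m : ∀ a ∈ ball X t i, Relation.ReflTransGen
        (fun u v => u ∈ ball X t (i + 1) ∧ v ∈ ball X t (i + 1) ∧ X.DAdj u v) a t := by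
      intro a ha
      refine Relation.ReflTransGen.mono ?_ _ _ (ih a ha)
      rintro u v ⟨k1, k2, k3⟩
      exact ⟨ball_mono t (by omega) k1, ball_mono t (by omega) k2, k3⟩
    intro a ha
    rcases (mem_ball.1 ha).tail_cases with k | ⟨y, k1, k2⟩
    · exact m a (mem_ball.2 k)
    · exact .head ⟨ha, mem_ball.2 (k1.mono (by omega)), dsymm k2⟩ (m y (mem_ball.2 k1))

theorem cut_ball (h : X.OK) (t : X.F) (i : ℕ) :
    {ε | X.cut (ball X t i : Set X.F) ε}.ncard + 5 * (ball X t i).card ≤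
      5 * (ball X t (i + 1)).card := by
  classical
  have e1 := Finset.card_sdiff_add_card_eq_card (ball_mono t (Nat.le_succ i))
  have e2 := Finset.card_biUnion_le_card_mul (ball X t (i + 1) \ ball X t i)
    (fun σ => (Set.toFinite {ε | X.l ε = σ ∨ X.r ε = σ}).toFinset) 5 fun σ _ => by
      rw [← Set.ncard_eq_toFinset_card]
      exact h.deg σ
  have e3 : {ε | X.cut (ball X t i : Set X.F) ε}.ncard ≤ ((ball X t (i + 1) \ ball X t i).biUnion
      fun σ => (Set.toFinite {ε | X.l ε = σ ∨ X.r ε = σ}).toFinset).card := by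
    rw [← Set.ncard_coe_finset]
    refine Set.ncard_le_ncard (fun ε k => ?_) (Finset.finite_toSet _)
    simp only [Finset.coe_biUnion, Finset.mem_coe, Finset.mem_sdiff, Set.mem_iUnion,
      Set.Finite.mem_toFinset, Set.mem_ofPred_eq]
    by_cases k1 : X.l ε ∈ ball X t i
    · refine ⟨X.r ε, ⟨mem_ball.2 ((mem_ball.1 k1).trans
        (Rn.single ⟨ε, trivial, Or.inl ⟨rfl, rfl⟩⟩)), fun k2 => k ⟨fun _ => k2, fun _ => k1⟩⟩,
        Or.inr rfl⟩
    · have k2 : X.r ε ∈ ball X t i := by
        by_contra k2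
        exact k ⟨fun a => absurd a k1, fun a => absurd a k2⟩
      exact ⟨X.l ε, ⟨mem_ball.2 ((mem_ball.1 k2).trans
        (Rn.single ⟨ε, trivial, Or.inr ⟨rfl, rfl⟩⟩)), k1⟩, Or.inl rfl⟩
  simp only [Nat.succ_eq_add_one] at e1
  omega

theorem growth {Cs : ℕ} {b : ℕ → ℕ} {n : ℕ} (h0 : 1 ≤ b 0)
    (h : ∀ i < n, b i + 5 * (Cs * b i) ≤ 5 * (Cs * b (i + 1))) :
    ∀ i ≤ n, i + 1 ≤ b i ∧ i * i ≤ 10 * (Cs * b i) := by
  intro i
  induction i with
  | zero => exact fun _ => ⟨h0, by omega⟩
  | succ i ih =>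
    intro hi
    obtain ⟨k1, k2⟩ := ih (by omega)
    have k3 := h i (by omega)
    refine ⟨?_, by nlinarith⟩
    have k4 : Cs * b i < Cs * b (i + 1) := by omega
    have := lt_of_mul_lt_mul_left k4 (Nat.zero_le _)
    omega

theorem net (X : Surf) (n : ℕ) : ∃ R : Finset X.F,
    (∀ a ∈ R, ∀ b ∈ R, a ≠ b → ¬ Rn X.DAdj n a b) ∧ ∀ σ, ∃ a ∈ R, Rn X.DAdj n a σ := by
  classical
  have := Fintype.ofFinite X.F
  obtain ⟨R, h1, h2⟩ := Finset.exists_max_image
    (Finset.univ.filter fun R : Finset X.F => ∀ a ∈ R, ∀ b ∈ R, a ≠ b → ¬ Rn X.DAdj n a b)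
    Finset.card ⟨∅, by simp⟩
  rw [Finset.mem_filter] at h1
  refine ⟨R, h1.2, fun σ => ?_⟩
  by_contra k
  push Not at k
  have k1 : σ ∉ R := fun a => k σ a (Rn.refl _ _)
  have k2 := h2 (insert σ R) (Finset.mem_filter.2 ⟨Finset.mem_univ _, fun a ha b hb ab => by
    rcases Finset.mem_insert.1 ha with ha | ha <;> rcases Finset.mem_insert.1 hb with hb | hb
    · exact absurd (ha.trans hb.symm) ab
    · exact fun q => k b hb (ha ▸ q.symm fun _ _ => dsymm)
    · exact hb ▸ k a ha
    · exact h1.2 a ha b hb ab⟩)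
  rw [Finset.card_insert_of_notMem k1] at k2
  omega

theorem sum_en {en : Finset X.F → ℕ} {En : ℕ}
    (h : ∀ 𝒟 : Finset (Finset X.F), (∀ D ∈ 𝒟, ∀ D' ∈ 𝒟, D ≠ D' → Disjoint D D') →
      ∑ D ∈ 𝒟, en D ≤ En) (I : Finset X.F) (D : X.F → Finset X.F)
    (h1 : ∀ a ∈ I, (D a).Nonempty) (h2 : ∀ a ∈ I, ∀ b ∈ I, a ≠ b → Disjoint (D a) (D b)) :
    ∑ a ∈ I, en (D a) ≤ En := by
  classical
  rw [← Finset.sum_image (s := I) (g := D) (f := en) fun a ha b hb e => by
    by_contra k
    have k1 := h2 a ha b hb k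
    rw [← e, disjoint_self] at k1
    exact (h1 a ha).ne_empty k1]
  refine h _ fun A hA B hB AB => ?_
  obtain ⟨a, ha, rfl⟩ := Finset.mem_image.1 hA
  obtain ⟨b, hb, rfl⟩ := Finset.mem_image.1 hB
  exact h2 a ha b hb fun e => AB (by rw [e])

end AbsA

open AbsA in
theorem absS (le : LemSS) : AbsS := by
  classical
  intro Cs
  obtain ⟨t, ht⟩ : ∃ t, t = 1680 * (Cs * Cs) + 1 := ⟨_, rfl⟩
  obtain ⟨K, hK⟩ : ∃ K, K = 2 * Cs * (6 * (t + t) + 9) := ⟨_, rfl⟩
  refine ⟨5 * (4 * K + 1) + 1, 4 * K, 4 * K + 4 * Cs, fun X h en En e1 e2 e3 => ?_⟩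
  have := Fintype.ofFinite X.F
  obtain ⟨R, r1, r2⟩ := net X (t + t)
  obtain ⟨top, sp, t1, t2, t3, t4⟩ := le X h (R : Set X.F) (t + t) (4 * K + 1) (by omega) r2
  rw [Set.ncard_coe_finset] at t4
  have dj : ∀ a ∈ R, ∀ b ∈ R, a ≠ b → Disjoint (ball X a t) (ball X b t) := by
    intro a ha b hb ab
    refine Finset.disjoint_left.2 fun σ k1 k2 => r1 a ha b hb ab ?_
    exact (mem_ball.1 k1).trans ((mem_ball.1 k2).symm fun _ _ => dsymm)
  have big : ∀ a, en (ball X a t) = 0 → 4 * K ≤ (ball X a t).card := by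
    intro a ha
    by_contra k
    have g := (growth (Cs := Cs) (b := fun i => (ball X a i).card) (n := t)
      (Finset.card_pos.2 ⟨a, mem_ball.2 (Rn.refl _ _)⟩) (fun i hi => by
        have k1 := Finset.card_le_card (ball_mono a hi.le)
        have k2 := e3 _ (ball_conn a i) (by omega)
        have k3 := e1 _ _ (ball_mono a hi.le)
        have k4 := Nat.mul_le_mul_left Cs (cut_ball h a i)
        rw [show en (ball X a i) = 0 by omega, add_zero] at k2
        nlinarith) t le_rfl).2
    have k5 : Cs * (ball X a t).card + Cs ≤ Cs * (4 * K) := by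
      have := Nat.mul_le_mul_left Cs (show (ball X a t).card + 1 ≤ 4 * K by omega)
      linarith
    have k6 : 10 * (Cs * (4 * K)) + t ≤ t * t := by
      have k7 : 6 * (t + t) + 9 ≤ 21 * t := by omega
      have k8 := Nat.mul_le_mul_left (80 * (Cs * Cs)) k7
      have k9 : t * t = 1680 * (Cs * Cs) * t + t := by
        nth_rewrite 1 [ht]
        ring
      rw [hK, k9]
      nlinarith
    omega
  have a1 : 4 * K * R.card ≤ Nat.card X.F + 4 * K * En := by
    have b1 := Finset.card_filter_add_card_filter_not (s := R) fun a => en (ball X a t) = 0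
    have b2 : (R.filter fun a => en (ball X a t) = 0).card * (4 * K) ≤ Nat.card X.F := by
      refine (Finset.card_nsmul_le_sum _ (fun a => (ball X a t).card) _
        fun a ha => big a (Finset.mem_filter.1 ha).2).trans ?_
      rw [← Finset.card_biUnion, Nat.card_eq_fintype_card]
      · exact Finset.card_le_univ _
      · exact fun a ha b hb ab =>
          dj a (Finset.mem_filter.1 ha).1 b (Finset.mem_filter.1 hb).1 ab
    have b3 : (R.filter fun a => ¬ en (ball X a t) = 0).card * 1 ≤ En := by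
      refine (Finset.card_nsmul_le_sum _ (fun a => en (ball X a t)) _
        fun a ha => Nat.pos_of_ne_zero (Finset.mem_filter.1 ha).2).trans ?_
      exact sum_en e2 _ _ (fun a _ => ⟨a, mem_ball.2 (Rn.refl _ _)⟩) fun a ha b hb ab =>
        dj a (Finset.mem_filter.1 ha).1 b (Finset.mem_filter.1 hb).1 ab
    have b4 := Nat.mul_le_mul_left (4 * K) b3
    rw [← b1]
    nlinarith
  have a2 : Nat.card X.F ≤ K * sp + Cs * En := by
    have c0 : ∀ s, ((Finset.univ.filter fun σ => top σ = s : Finset X.F) : Set X.F) =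
        {σ | top σ = s} := fun s => by
      ext σ
      simp
    have b1 := Finset.card_eq_sum_card_image top Finset.univ
    have b2 : ∑ s ∈ Finset.univ.image top, (Finset.univ.filter fun σ => top σ = s).card ≤
        ∑ s ∈ Finset.univ.image top, Cs * ({ε | X.cut {σ | top σ = s} ε ∧ ε ∈ Set.univ}.ncard +
          en (Finset.univ.filter fun σ => top σ = s)) := by
      refine Finset.sum_le_sum fun s _ => ?_
      have k := e3 (Finset.univ.filter fun σ => top σ = s) (dconn (t := s) fun a ha => by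
        obtain rfl := (Finset.mem_filter.1 ha).2
        refine Relation.ReflTransGen.mono ?_ _ _ (t2 a)
        rintro u v ⟨k1, k2, k3⟩
        exact ⟨Finset.mem_filter.2 ⟨Finset.mem_univ _, k1⟩,
          Finset.mem_filter.2 ⟨Finset.mem_univ _, k2⟩, k3⟩) (by
        rw [← Set.ncard_coe_finset, c0]
        exact t1 s)
      rw [c0] at k
      simpa using k
    have b3 := sum_en e2 (Finset.univ.image top) (fun s => Finset.univ.filter fun σ => top σ = s)
      (fun s hs => by
        obtain ⟨σ, -, rfl⟩ := Finset.mem_image.1 hs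
        exact ⟨σ, by simp⟩) fun a _ b _ ab => Finset.disjoint_left.2 fun σ k1 k2 =>
        ab ((Finset.mem_filter.1 k1).2.symm.trans (Finset.mem_filter.1 k2).2)
    have b4 := (Finset.sum_le_sum_of_subset (Finset.subset_univ (Finset.univ.image top))).trans
      (LemSA.double top Set.univ).le
    simp only [Set.mem_univ, true_and] at b4
    simp only [Set.mem_univ] at b2
    rw [← Finset.mul_sum, Finset.sum_add_distrib, ← b1, Finset.card_univ,
      ← Nat.card_eq_fintype_card] at b2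
    have b5 := Nat.mul_le_mul_left Cs (Nat.add_le_add (b4.trans (Nat.mul_le_mul_left 2 t3)) b3)
    rw [hK]
    nlinarith
  have a3 : Nat.card X.F / (4 * K + 1) * (4 * K + 1) ≤ Nat.card X.F := Nat.div_mul_le_self _ _
  have a4 := Nat.mul_le_mul_left (4 * K) t4
  nlinarith

end Pool.Agent.MP_df844f_gt
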