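import Pool.Agent.MP_df844f_gt.Spec

/-! The area bound for tight states and the final contradiction. -/

namespace Pool.Agent.MP_df844f_gt

open PS

theorem areaS (ti : TIneqS) (cp : ChiPS) (eu : EulerS) (su : SurjS) (fr : FreeExS) (zl : ZLowS)
    (ar : ArcS) (ad : AddS) (st : StructS) : AreaS := by
  intro H
  obtain ⟨C1, ti⟩ := ti
  obtain ⟨C2, C, ρ1, ti⟩ := ti H
  obtain ⟨ρ2, st⟩ := st (6 * C1 + 12 * C2)
  refine ⟨8 * C1 + 14 * C2, C + 1, ρ1 + ρ2 + 3, ?_⟩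
  intro B _ _ o hT hρ hE Y x0 r μ hS hI hv hY
  have hL : Loc B := loc_of hT (hρ.mono (by omega))
  have hv' : Y.vol < Nat.card B := by omega
  obtain ⟨U, kb, hU, s1, s2, -, s4, s5⟩ :=
    st B o hT (hρ.mono (by omega)) Y x0 r μ hS hI hv' (hY.mono (by omega))
  obtain ⟨a1, a2, -, a4, a5, -, a7⟩ := ad B Y x0 U hU
  have t := ti B o hT (hρ.mono (by omega)) hE Y x0 r μ hS hI (by omega) (hY.mono (by omega))
    Set.univ fun _ _ _ _ _ => trivial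
  have c := cp B hL Y hS
  obtain ⟨e1, e2, e3⟩ := eu B Y
  have s := su B Y hS (fr B o hT Y hv')
  have z := zl B o hL Y x0 r μ hS hI
  have k := ar B o Y x0 r μ hI
  rw [a1] at t
  have h1 := Nat.mul_le_mul_left C1 (show 3 * Y.area ≤ 2 * Y.nV Set.univ + 4 * r by omega)
  have h2 := Nat.mul_le_mul_left C1 (show Y.nB Set.univ ≤ 2 * r + 3 * Y.nB Uᶜ + 3 by omega)
  have h3 := Nat.mul_le_mul_left C2
    (show Y.ends x0 Set.univ ≤ 6 * r + 6 * Y.nB Uᶜ + 7 by omega)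
  have h4 : Y.nF Uᶜ ≤ Y.area := by omega
  have h5 := Nat.zero_le (C2 * r)
  have h6 := Nat.zero_le C1
  linarith

theorem noEnd (ti : TIneqS) (cl : ChiLeS) (cp : ChiPS) (eu : EulerS) (su : SurjS) (fr : FreeExS)
    (ea : EndAS) (eb : EndBS) (em : EndMS) (ad : AddS) (st : StructS) : NoEndS := by
  intro H
  obtain ⟨C1, ti⟩ := ti
  obtain ⟨C2, C, ρ1, ti⟩ := ti H
  obtain ⟨ρ2, st⟩ := st (C1 + 2 * C2 + 1)
  refine ⟨C + 1, ρ1 + ρ2 + 3, ?_⟩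
  intro B _ _ o hT hρ hE Y x0 r hS hI hv hY
  have hL : Loc B := loc_of hT (hρ.mono (by omega))
  have hv' : Y.vol < Nat.card B := by omega
  have hI' : Y.Inv o x0 r 0 := ⟨[], hI, le_rfl⟩
  have hc : ∀ c : Y.Coch W, Cocyc c → Cobd c := fun c h => hI.rel c h (by simp)
  have : Nonempty B := ⟨o⟩
  obtain ⟨U, kb, hU, s1, -, s3, s4, -⟩ :=
    st B o hT (hρ.mono (by omega)) Y x0 r 0 hS hI' hv' (hY.mono (by omega))
  obtain ⟨-, a2, a3, -, a5, -, -⟩ := ad B Y x0 U hU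
  obtain ⟨-, -, -, -, -, a6, -⟩ := ad B Y x0 Uᶜ hU.compl
  have t := ti B o hT (hρ.mono (by omega)) hE Y x0 r 0 hS hI' (by omega) (hY.mono (by omega))
    Uᶜ hU.compl
  have c := cp B hL Y hS
  obtain ⟨e1, e2, -⟩ := eu B Y
  obtain ⟨f1, f2, -⟩ := eu B (fullPS B)
  have s := su B Y hS (fr B o hT Y hv')
  have n1 := ea B o hT hL Y x0 hS hI.h0 hc
  have n2 := eb B o hT hL Y x0 hS hI.h0 hc
  obtain ⟨n3, n4⟩ := em B hL
  have l1 := cl B hL Y U hS hU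
  have l2 := cl B hL Y Uᶜ hS hU.compl
  have h0 : 3 * Y.nF Uᶜ + 2 * Y.deg Uᶜ + 2 ≤ 2 * Y.nV Uᶜ := by omega
  have h1 := Nat.mul_le_mul_left C1 (show 3 * Y.nF Uᶜ ≤ 2 * Y.nV Uᶜ by omega)
  have h2 := Nat.mul_le_mul_left C2 (show Y.ends x0 Uᶜ ≤ 2 * Y.nB Uᶜ by omega)
  have h3 : 1 ≤ Y.nB Uᶜ := by omega
  linarith

end Pool.Agent.MP_df844f_gt
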