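import Pool.Agent.MP_df844f_gt.Spec

/-! Summing the inequality of one triangle over the twenty triangles. -/

namespace Pool.Agent.MP_df844f_gt

open PS

namespace ChiPA

/-- Cliques with `k` elements. -/
def T (k : ℕ) : Finset (Finset S) := (Finset.univ.powersetCard k).filter Clq

theorem mem_T {k : ℕ} {J : Finset S} : J ∈ T k ↔ J.card = k ∧ Clq J := by
  simp [T, Finset.mem_powersetCard]

theorem up {k : ℕ} {J : Finset S} (hJ : J ∈ T k) :
    ((T (k + 1)).filter fun τ => J ⊆ τ).card =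
      (Finset.univ.filter fun x => ∀ s ∈ J, adj s x).card := by
  obtain ⟨h1, h2⟩ := mem_T.1 hJ
  have nt : ∀ x, (∀ s ∈ J, adj s x) → x ∉ J := fun x h m => adj_irrefl x (h x m)
  symm
  refine Finset.card_bij (fun x _ => insert x J) (fun x hx => ?_) (fun x hx y hy e => ?_)
    fun τ hτ => ?_
  · have h := (Finset.mem_filter.1 hx).2
    refine Finset.mem_filter.2 ⟨mem_T.2 ⟨by rw [Finset.card_insert_of_notMem (nt x h), h1],
      fun a ha b hb n => ?_⟩, Finset.subset_insert _ _⟩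
    rcases Finset.mem_insert.1 ha with rfl | ha' <;> rcases Finset.mem_insert.1 hb with rfl | hb'
    exacts [absurd rfl n, adj_symm (h b hb'), h a ha', h2 a ha' b hb' n]
  · have : x ∈ insert y J := e ▸ Finset.mem_insert_self x J
    exact (Finset.mem_insert.1 this).resolve_right (nt x (Finset.mem_filter.1 hx).2)
  · obtain ⟨k1, k2⟩ := Finset.mem_filter.1 hτ
    obtain ⟨x, hx, rfl⟩ := Finset.exists_eq_insert_iff.2 ⟨k2, by rw [(mem_T.1 k1).1, h1]⟩
    exact ⟨x, Finset.mem_filter.2 ⟨Finset.mem_univ _, fun s hs => (mem_T.1 k1).2 s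
      (Finset.mem_insert_of_mem hs) x (Finset.mem_insert_self _ _) fun e => hx (e ▸ hs)⟩, rfl⟩

theorem c1 (hF : FactS) : ∀ J ∈ T 1, ((T 2).filter fun τ => J ⊆ τ).card = 5 := by
  intro J hJ
  rw [up hJ]
  obtain ⟨s, rfl⟩ := Finset.card_eq_one.1 (mem_T.1 hJ).1
  simpa using hF.deg s

theorem c2 (hF : FactS) : ∀ J ∈ T 2, ((T 3).filter fun τ => J ⊆ τ).card = 2 := by
  intro J hJ
  rw [up hJ]
  obtain ⟨s, t, n, rfl⟩ := Finset.card_eq_two.1 (mem_T.1 hJ).1
  obtain ⟨u, v, h1, h2⟩ := hF.two s t ((mem_T.1 hJ).2 s (by simp) t (by simp) n)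
  rw [← Finset.card_pair h1]
  congr 1
  ext x
  simpa using h2 x

theorem c3 (hF : FactS) : (T 3).card = 20 := by
  rw [← hF.n3]
  congr 1
  ext J
  simp [mem_T]

theorem T_one : T 1 = Finset.univ.map ⟨fun s : S => {s}, Finset.singleton_injective⟩ := by
  ext J
  simp only [mem_T, Finset.card_eq_one, Finset.mem_map, Finset.mem_univ, true_and]
  constructor
  · rintro ⟨⟨s, rfl⟩, -⟩
    exact ⟨s, rfl⟩
  · rintro ⟨s, rfl⟩
    exact ⟨⟨s, rfl⟩, fun a ha b hb n =>
      absurd ((Finset.mem_singleton.1 ha).trans (Finset.mem_singleton.1 hb).symm) n⟩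

theorem f1 (P : Finset S → ℕ) {s t : S} (h : s ≠ t) :
    ∑ J ∈ (T 1).filter (fun J => J ⊆ {s, t}), P J = P {s} + P {t} := by
  rw [← Finset.sum_pair (f := P) (by simpa using h)]
  congr 1
  ext J
  simp only [T_one, Finset.mem_filter, Finset.mem_map, Finset.mem_univ, true_and,
    Function.Embedding.coeFn_mk, Finset.mem_insert, Finset.mem_singleton]
  constructor
  · rintro ⟨⟨a, rfl⟩, k⟩
    simpa using k
  · rintro (rfl | rfl) <;> simp

theorem clq_pair {s t : S} (h : adj s t) : ({s, t} : Finset S) ∈ T 2 := by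
  refine mem_T.2 ⟨Finset.card_pair (adj_ne h), fun a ha b hb n => ?_⟩
  simp only [Finset.mem_insert, Finset.mem_singleton] at ha hb
  rcases ha with rfl | rfl <;> rcases hb with rfl | rfl
  exacts [absurd rfl n, h, adj_symm h, absurd rfl n]

theorem f2 (P : Finset S → ℕ) {s t u : S} (a1 : adj s t) (a2 : adj t u) (a3 : adj s u) :
    ∑ J ∈ (T 2).filter (fun J => J ⊆ {s, t, u}), P J = P {s, t} + (P {t, u} + P {s, u}) := by
  have n1 := adj_ne a1
  have n2 := adj_ne a2
  have n3 := adj_ne a3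
  have e1 : ({t, u} : Finset S) ≠ {s, u} := fun e => by
    have : t ∈ ({s, u} : Finset S) := e ▸ by simp
    simp [n1.symm, n2] at this
  have e2 : ({s, t} : Finset S) ∉ ({{t, u}, {s, u}} : Finset (Finset S)) := fun e => by
    have : u ∈ ({s, t} : Finset S) := by
      rcases Finset.mem_insert.1 e with e | e
      · rw [e]; simp
      · rw [Finset.mem_singleton.1 e]; simp
    simp [n2.symm, n3.symm] at this
  rw [← Finset.sum_pair (f := P) e1, ← Finset.sum_insert e2]
  congr 1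
  ext J
  simp only [Finset.mem_filter, Finset.mem_insert, Finset.mem_singleton]
  constructor
  · rintro ⟨h1, h2⟩
    obtain ⟨a, b, n, rfl⟩ := Finset.card_eq_two.1 (mem_T.1 h1).1
    have ha := h2 (Finset.mem_insert_self _ _)
    have hb := h2 (Finset.mem_insert_of_mem (Finset.mem_singleton_self _))
    simp only [Finset.mem_insert, Finset.mem_singleton] at ha hb
    rcases ha with rfl | rfl | rfl <;> rcases hb with rfl | rfl | rfl <;>
      first | exact absurd rfl n | simp [Finset.pair_comm]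
  · rintro (rfl | rfl | rfl)
    exacts [⟨clq_pair a1, by intro x; simp; tauto⟩, ⟨clq_pair a2, by intro x; simp; tauto⟩,
      ⟨clq_pair a3, by intro x; simp; tauto⟩]

theorem fib {α β : Type} [Finite α] (A : Set α) (f : α → β) (t : Finset β)
    (h : ∀ a ∈ A, f a ∈ t) : A.ncard = ∑ b ∈ t, {a | a ∈ A ∧ f a = b}.ncard := by
  classical
  rw [Set.ncard_eq_toFinset_card A, Finset.card_eq_sum_card_fiberwise (f := f) (t := t)
    fun a ha => h a (by simpa using ha)]
  refine Finset.sum_congr rfl fun b _ => ?_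
  rw [← Set.ncard_coe_finset]
  congr 1
  ext a
  simp

theorem swap (P : Finset S → ℕ) (k m : ℕ)
    (h : ∀ J ∈ T k, ((T (k + 1)).filter fun τ => J ⊆ τ).card = m) :
    ∑ τ ∈ T (k + 1), ∑ J ∈ (T k).filter (fun J => J ⊆ τ), P J = m * ∑ J ∈ T k, P J := by
  simp only [Finset.sum_filter]
  rw [Finset.sum_comm, Finset.mul_sum]
  refine Finset.sum_congr rfl fun J hJ => ?_
  rw [← Finset.sum_filter, Finset.sum_const, h J hJ, smul_eq_mul]

variable {B : Type} [MulAction W B] (Y : PS B)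

/-- The label set of a cell. -/
def lab : Y.Cell → Finset S := Quot.lift (fun p => p.2) fun _ _ h => h.1

theorem cells (k : ℕ) (Q : Y.Om → Finset S → Prop) :
    {c | ∃ x J, J.card = k ∧ Clq J ∧ Q x J ∧ c = Y.cell x J}.ncard =
      ∑ J ∈ T k, {c | ∃ x, Q x J ∧ c = Y.cell x J}.ncard := by
  rw [fib _ (lab Y) (T k)]
  · refine Finset.sum_congr rfl fun J hJ => ?_
    congr 1
    ext c
    constructor
    · rintro ⟨⟨x, J', -, -, h, rfl⟩, rfl⟩
      exact ⟨x, h, rfl⟩
    · rintro ⟨x, h, rfl⟩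
      exact ⟨⟨x, J, (mem_T.1 hJ).1, (mem_T.1 hJ).2, h, rfl⟩, rfl⟩
  · rintro _ ⟨x, J, h1, h2, -, rfl⟩
    exact mem_T.2 ⟨h1, h2⟩

theorem area_eq (hY : Y.State) :
    Y.area + ∑ J ∈ T 1, {x | Y.Full x J}.ncard = 12 * Y.vol := by
  unfold area
  rw [fib _ Prod.snd Finset.univ fun _ _ => Finset.mem_univ _, T_one, Finset.sum_map,
    ← Finset.sum_add_distrib]
  have : ∀ s : S, {a : Y.Om × S | a ∈ {p : Y.Om × S | Y.Free p.1 p.2} ∧ a.2 = s}.ncard +
      {x | Y.Full x {s}}.ncard = Y.vol := fun s => by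
    have e1 : {a : Y.Om × S | a ∈ {p : Y.Om × S | Y.Free p.1 p.2} ∧ a.2 = s} =
        (fun x => (x, s)) '' {x | Y.Free x s} := by
      ext ⟨x, t⟩
      constructor
      · rintro ⟨h, rfl⟩
        exact ⟨x, h, rfl⟩
      · rintro ⟨y, h, e⟩
        cases e
        exact ⟨h, rfl⟩
    have e2 : {x | Y.Full x {s}} = {x | Y.Free x s}ᶜ := Set.ext fun _ => hY.full_one
    rw [e1, e2, Set.ncard_image_of_injective _ (Prod.mk_left_injective s),
      Set.ncard_add_ncard_compl]
    rfl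
  exact (Finset.sum_congr rfl fun s _ => this s).trans (by simp)

end ChiPA

open ChiPA in
theorem chiP (hF : FactS) (ps : PsizeS) (tv : TauVS) : ChiPS := by
  intro B _ hB Y hY
  have hP : ∀ k, ∑ J ∈ T k, {x | Y.Full x J}.ncard = 2 ^ k * Y.nC k := fun k => by
    unfold nC FC
    rw [cells Y k Y.Full, Finset.mul_sum]
    exact Finset.sum_congr rfl fun J hJ => by rw [ps B hB Y hY J (mem_T.1 hJ).2, (mem_T.1 hJ).1]
  have hV : Y.nV Set.univ =
      ∑ J ∈ T 3, {c | ∃ x, (∃ v ∈ J, Y.Free x v) ∧ c = Y.cell x J}.ncard := by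
    rw [← cells Y 3 fun x J => ∃ v ∈ J, Y.Free x v]
    simp [nV]
  have key : ∀ τ ∈ T 3,
      8 * Y.vol + 2 * ∑ J ∈ (T 2).filter (fun J => J ⊆ τ), {x | Y.Full x J}.ncard ≤
        8 * {c | ∃ x, (∃ v ∈ τ, Y.Free x v) ∧ c = Y.cell x τ}.ncard +
          2 * ∑ e ∈ (T 2).filter (fun J => J ⊆ τ),
            ∑ J ∈ (T 1).filter (fun J => J ⊆ e), {x | Y.Full x J}.ncard +
          2 * {x | Y.Full x τ}.ncard := by
    intro τ hτ
    obtain ⟨h1, h2⟩ := mem_T.1 hτ
    obtain ⟨s, t, u, n1, n2, n3, rfl⟩ := Finset.card_eq_three.1 h1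
    have a1 : adj s t := h2 s (by simp) t (by simp) n1
    have a2 : adj t u := h2 t (by simp) u (by simp) n3
    have a3 : adj s u := h2 s (by simp) u (by simp) n2
    have := tv B hB Y hY s t u a1 a2 a3
    rw [f2 _ a1 a2 a3, f2 _ a1 a2 a3, f1 _ n1, f1 _ n2, f1 _ n3]
    omega
  have h := Finset.sum_le_sum key
  simp only [Finset.sum_add_distrib, ← Finset.mul_sum] at h
  rw [swap _ 2 2 (c2 hF), swap _ 2 2 (c2 hF), swap _ 1 5 (c1 hF), ← hV, hP, hP, hP,
    Finset.sum_const, c3 hF, smul_eq_mul] at h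
  have ha := area_eq Y hY
  rw [hP] at ha
  omega

end Pool.Agent.MP_df844f_gt
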