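import Pool.Agent.MP_df844f_gt.Spec

/-! Full orbits: coefficients of the boundary and the size of the orbits. -/

namespace Pool.Agent.MP_df844f_gt

open PS

namespace CoefA

/-- Products of generators from `K`. -/
inductive Gen (K : Finset S) : W → Prop
  | one : Gen K 1
  | mul {s w} : s ∈ K → Gen K w → Gen K (g s * w)

theorem clq_mono {K J : Finset S} (h : Clq J) (k : K ⊆ J) : Clq K :=
  fun s hs t ht => h s (k hs) t (k ht)

theorem Gen.mono {K J : Finset S} {w : W} (h : Gen K w) (k : K ⊆ J) : Gen J w := by
  induction h with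
  | one => exact .one
  | mul hs _ ih => exact .mul (k hs) ih

theorem Gen.split {K : Finset S} {s : S} (hc : Clq (insert s K)) {w : W}
    (h : Gen (insert s K) w) : Gen K w ∨ ∃ w', Gen K w' ∧ w = g s * w' := by
  induction h with
  | one => exact Or.inl .one
  | @mul r w hr _ ih =>
    by_cases e : r = s
    · subst e
      rcases ih with a | ⟨w', a, rfl⟩
      · exact Or.inr ⟨w, a, rfl⟩
      · rw [g_mul_g_mul]; exact Or.inl a
    · have hK : r ∈ K := (Finset.mem_insert.1 hr).resolve_left e
      rcases ih with a | ⟨w', a, rfl⟩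
      · exact Or.inl (.mul hK a)
      · refine Or.inr ⟨g r * w', .mul hK a, ?_⟩
        rw [← mul_assoc, g_comm (hc r hr s (Finset.mem_insert_self _ _) e), mul_assoc]

theorem Gen.len_le {K : Finset S} (hc : Clq K) : ∀ {w : W}, Gen K w → len w ≤ K.card := by
  induction K using Finset.induction_on with
  | empty =>
    intro w h
    cases h with
    | one => rw [len_one]; exact Nat.zero_le _
    | mul hs _ => simp at hs
  | insert s K hs ih =>
    intro w h
    have hK := clq_mono hc (Finset.subset_insert s K)
    rw [Finset.card_insert_of_notMem hs]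
    rcases h.split hc with a | ⟨w', a, rfl⟩
    · exact (ih hK a).trans (Nat.le_succ _)
    · have := len_mul_le (g s) w'
      have := ih hK a
      have := len_g s
      omega

theorem Gen.ne {K : Finset S} {s : S} (hs : s ∉ K) {w : W} (h : Gen K w) : g s * w ≠ 1 := by
  obtain ⟨φ, hφ⟩ := exists_hom (G := Multiplicative (ZMod 2))
    (fun u => if u = s then Multiplicative.ofAdd 1 else 1)
    (fun u => by split_ifs <;> decide) (fun u v _ => mul_comm _ _)
  have h1 : φ w = 1 := by
    induction h with
    | one => exact map_one φ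
    | @mul r w hr _ ih => rw [map_mul, ih, hφ, if_neg (fun e : r = s => hs (e ▸ hr)), one_mul]
  intro e
  have h2 := congrArg φ e
  rw [map_mul, h1, hφ, if_pos rfl, map_one φ] at h2
  exact absurd h2 (by decide)

variable {B : Type} [MulAction W B] {Y : PS B}

theorem pos {K : Finset S} {x y : Y.Om} (h : Y.cell x K = Y.cell y K) :
    ∃ w, Gen K w ∧ Y.f y = w • Y.f x := by
  have := (cell_eq_iff.1 h).2
  clear h
  induction this with
  | refl => exact ⟨1, .one, (one_smul _ _).symm⟩
  | tail _ q ih =>
    obtain ⟨s, hs, e⟩ := q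
    obtain ⟨w, a, b⟩ := ih
    exact ⟨g s * w, .mul hs a, by rw [Y.e_f e, b, mul_smul]⟩

theorem comm (hY : Y.State) {J : Finset S} (hc : Clq J) {y : Y.Om} (h : Y.Full y J) {s t : S}
    (hs : s ∈ J) (ht : t ∈ J) : Y.sg s (Y.sg t y) = Y.sg t (Y.sg s y) := by
  by_cases e : s = t
  · rw [e]
  have a := e_sg (h y rfl s hs)
  have b := e_sg (h _ (cell_sg y hs) t ht)
  have c := e_sg (h _ ((cell_sg _ ht).trans (cell_sg y hs)) s hs)
  rw [hY.sg_eq (Y.e_symm (hY.close (hc s hs t ht e) a b c)), hY.sg_sg]

theorem cell_sg_sg (hY : Y.State) {J K : Finset S} (hc : Clq J) (k : K ⊆ J) {x y : Y.Om}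
    (h : Y.Full x J) {s : S} (hs : s ∈ J) (e : Y.cell x K = Y.cell y K) :
    Y.cell (Y.sg s x) K = Y.cell (Y.sg s y) K := by
  have := (cell_eq_iff.1 e).2
  clear e
  induction this with
  | refl => rfl
  | @tail z z' p q ih =>
    obtain ⟨r, hr, e⟩ := q
    have hz : Y.Full z J := h.congr (cell_mono (cell_eq_iff.2 ⟨rfl, p⟩) k).symm
    rw [ih, ← hY.sg_eq e, comm hY hc hz hs (k hr), cell_sg _ hr]

theorem split (hY : Y.State) {K : Finset S} {s : S} (hc : Clq (insert s K)) {x y : Y.Om}
    (h : Y.Full x (insert s K)) : Y.cell y (insert s K) = Y.cell x (insert s K) ↔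
      Y.cell y K = Y.cell x K ∨ Y.cell y K = Y.cell (Y.sg s x) K := by
  have hs := Finset.mem_insert_self s K
  have k := Finset.subset_insert s K
  constructor
  · intro e
    have := (cell_eq_iff.1 e.symm).2
    clear e
    induction this with
    | refl => exact Or.inl rfl
    | @tail z z' p q ih =>
      obtain ⟨r, hr, e⟩ := q
      rcases Finset.mem_insert.1 hr with rfl | hK
      · rw [← hY.sg_eq e]
        rcases ih with a | a
        · exact Or.inr (cell_sg_sg hY hc k h hs a.symm).symm
        · have := cell_sg_sg hY hc k (h.congr (cell_sg x hs)) hs a.symm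
          rw [hY.sg_sg] at this
          exact Or.inl this.symm
      · rw [← cell_e hK e]; exact ih
  · rintro (a | a)
    · exact cell_mono a k
    · exact (cell_mono a k).trans (cell_sg x hs)

theorem excl (hF : FactS) (hB : Loc B) {K : Finset S} {s : S} (hc : Clq (insert s K))
    (hs : s ∉ K) {x : Y.Om} (h : ¬ Y.Free x s) : Y.cell x K ≠ Y.cell (Y.sg s x) K := by
  intro e
  obtain ⟨w, a, b⟩ := pos e
  rw [Y.e_f (e_sg h)] at b
  have hg : Gen (insert s K) (g s * w) :=
    .mul (Finset.mem_insert_self _ _) (a.mono (Finset.subset_insert _ _))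
  refine a.ne hs (hB (Y.f x) _ ((hg.len_le hc).trans (hF.clq _ hc)) ?_)
  rw [mul_smul, ← b, smul_smul, g_mul_self, one_smul]

theorem orbit (hF : FactS) (hB : Loc B) (hY : Y.State) (J : Finset S) : Clq J → ∀ x, Y.Full x J →
    {y | Y.cell y J = Y.cell x J}.ncard = 2 ^ J.card := by
  induction J using Finset.induction_on with
  | empty =>
    intro _ x _
    have : {y | Y.cell y ∅ = Y.cell x ∅} = {x} := by
      ext y
      exact ⟨fun h => cell_empty_inj h, fun h => by rw [Set.mem_singleton_iff.1 h]; rfl⟩
    rw [this]; simp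
  | insert s K hs ih =>
    intro hc x h
    have k := Finset.subset_insert s K
    have hm := Finset.mem_insert_self s K
    have e : {y | Y.cell y (insert s K) = Y.cell x (insert s K)} =
        {y | Y.cell y K = Y.cell x K} ∪ {y | Y.cell y K = Y.cell (Y.sg s x) K} := by
      ext y
      exact split hY hc h
    rw [e, Set.ncard_union_eq, ih (clq_mono hc k) x (h.mono k),
      ih (clq_mono hc k) _ ((h.congr (cell_sg x hm)).mono k), Finset.card_insert_of_notMem hs,
      pow_succ, mul_two]
    exact Set.disjoint_left.2 fun y a b => excl hF hB hc hs (h x rfl s hm) (a.symm.trans b)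

end CoefA

open CoefA

theorem coef (hF : FactS) : CoefS := by
  intro B _ hB Y hY u x J hc h
  induction u using Finsupp.induction_linear with
  | zero => simp
  | add a b ha hb =>
    simp only [map_add, Finsupp.add_apply, ha, hb, ← Finset.sum_add_distrib]
    exact Finset.sum_congr rfl fun s _ => add_add_add_comm _ _ _ _
  | single c a =>
    obtain ⟨y, K, rfl⟩ := cell_ind c
    rw [bd_single, Finsupp.finsetSum_apply, Finset.sum_filter]
    rw [← Finset.sum_subset (Finset.subset_univ J)]
    · refine Finset.sum_congr rfl fun s hs => ?_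
      have hJ : insert s (J.erase s) = J := Finset.insert_erase hs
      by_cases e : K = J.erase s
      · have hc' : Clq (insert s K) := by rw [e, hJ]; exact hc
        have h' : Y.Full x (insert s K) := by rw [e, hJ]; exact h
        have hs' : s ∉ K := by rw [e]; exact Finset.notMem_erase s J
        have h1 := split hY hc' h' (y := y)
        have h2 := excl hF hB hc' hs' (h x rfl s hs)
        rw [if_pos fun r hr => hc' r (Finset.mem_insert_of_mem hr) s (Finset.mem_insert_self _ _)
          fun k => hs' (k ▸ hr)]
        rw [← e] at hJ ⊢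
        rw [← hJ]
        simp only [Finsupp.single_apply, h1]
        by_cases a1 : Y.cell y K = Y.cell x K
        · rw [if_pos (Or.inl a1), if_pos a1, if_neg fun k => h2 (a1.symm.trans k), add_zero]
        · simp [a1]
      · have n1 : ∀ z, Y.cell y K ≠ Y.cell z (J.erase s) := fun z k => e (cell_eq_iff.1 k).1
        rw [Finsupp.single_eq_of_ne' (n1 _), Finsupp.single_eq_of_ne' (n1 _), add_zero]
        split_ifs with k
        · refine Finsupp.single_eq_of_ne' fun q => e ?_
          rw [← (cell_eq_iff.1 q).1, Finset.erase_insert fun r => adj_irrefl s (k s r)]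
        · rfl
    · intro s _ hs
      split_ifs
      · refine Finsupp.single_eq_of_ne' fun q => hs ?_
        rw [← (cell_eq_iff.1 q).1]
        exact Finset.mem_insert_self _ _
      · rfl

theorem psize (hF : FactS) : PsizeS := by
  intro B _ hB Y hY J hc
  classical
  have e : {c | ∃ x, Y.Full x J ∧ c = Y.cell x J} =
      ((Set.toFinite {x | Y.Full x J}).toFinset.image fun x => Y.cell x J : Finset Y.Cell) := by
    ext c
    simp [eq_comm]
  rw [e, Set.ncard_coe_finset, Set.ncard_eq_toFinset_card _ (Set.toFinite _),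
    Finset.card_eq_sum_card_image (fun x => Y.cell x J), mul_comm]
  refine Finset.sum_const_nat fun c hc' => ?_
  obtain ⟨x, hx, rfl⟩ := Finset.mem_image.1 hc'
  have hx' : Y.Full x J := by simpa using hx
  rw [← orbit hF hB hY J hc x hx', ← Set.ncard_coe_finset]
  congr 1
  ext y
  simp only [Finset.coe_filter, Set.Finite.mem_toFinset, Set.mem_ofPred_eq, and_iff_right_iff_imp]
  exact fun k => hx'.congr k

end Pool.Agent.MP_df844f_gt
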