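import Pool.Agent.MP_df844f_gt.Spec

/-! Cocycles of a final state come from the closed manifold. -/

namespace Pool.Agent.MP_df844f_gt

open PS

theorem coreA : CoreAS := by
  intro B _ o hT Y x0 h0 hc c hcoc
  have h2 : (2 : F2) = 0 := by decide
  obtain ⟨P, hP⟩ := hc (fun l _ => c l ()) ⟨fun s x y _ h => hcoc.symm s x y () h,
    fun a _ => hcoc.dsym a (), fun s t x0 x1 x2 x3 _ a b1 b2 b3 b4 =>
      hcoc.sq s t x0 x1 x2 x3 () a b1 b2 b3 b4⟩
  have ed : ∀ s x y (w : W), Y.e s x y → c (.edge s x y) () = P x w + P y (g s * w) := hP.ed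
  have da : ∀ a (w : W), c (.dart a) () =
      P (Y.src a) w + P (Y.src (Y.rev a)) (Y.lab a * w) := hP.da
  choose t ht using hT
  have key : ∀ (γ : W) x w, w • o = Y.f x → P x (w * γ) + P x w = P x0 γ + P x0 1 := by
    intro γ x w hw
    have := h0.2 F2 (fun x w => P x (w * γ) + P x w) ⟨fun s x y w h => ?_, fun a w => ?_⟩ x w hw
    · rwa [one_mul] at this
    · rw [mul_assoc]
      linear_combination ed s x y w h - ed s x y (w * γ) h +
        (P y (g s * w) - P x (w * γ)) * h2
    · rw [mul_assoc]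
      linear_combination da a w - da a (w * γ) +
        (P (Y.src (Y.rev a)) (Y.lab a * w) - P (Y.src a) (w * γ)) * h2
  let ψ : W → F2 := fun w => P x0 ((t (w • o))⁻¹ * w) + P x0 1
  have k1 : ∀ x w, w • o = Y.f x → P x w = P x (t (Y.f x)) + ψ w := by
    intro x w hw
    have := key ((t (w • o))⁻¹ * w) x (t (w • o)) ((ht _).trans hw)
    rw [mul_inv_cancel_left] at this
    rw [← hw]
    linear_combination this - P x (t (w • o)) * h2
  have k2 : ∀ w γ : W, γ • o = o → ψ (w * γ) = ψ w + (P x0 γ + P x0 1) := by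
    intro w γ hγ
    have := key γ x0 ((t (w • o))⁻¹ * w) (by rw [mul_smul, inv_smul_eq_iff, h0.1, ht])
    simp only [ψ]
    rw [mul_smul, hγ, ← mul_assoc]
    linear_combination this - P x0 ((t (w • o))⁻¹ * w) * h2
  refine ⟨fun s b => ψ (t b) + ψ (g s * t b), ψ, fun x => P x (t (Y.f x)), fun s w => ?_,
    fun s x y h => ?_, fun a w hw => ?_⟩
  · have hγ : ((t (w • o))⁻¹ * w) • o = o := by rw [mul_smul, inv_smul_eq_iff, ht]
    have a1 := k2 (t (w • o)) _ hγ
    have a2 := k2 (g s * t (w • o)) _ hγ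
    rw [mul_inv_cancel_left] at a1
    rw [mul_assoc, mul_inv_cancel_left] at a2
    linear_combination -a1 - a2 - (P x0 ((t (w • o))⁻¹ * w) + P x0 1) * h2
  · have a1 := k1 x (t (Y.f x)) (ht _)
    have a2 := k1 y (g s * t (Y.f x)) (by rw [mul_smul, ht, Y.e_f h])
    linear_combination ed s x y (t (Y.f x)) h + a1 + a2
  · have a1 := k1 (Y.src a) w hw
    have a2 := k1 (Y.src (Y.rev a)) (Y.lab a * w) (by rw [mul_smul, hw, Y.f_rev])
    linear_combination da a w + a1 + a2

end Pool.Agent.MP_df844f_gt
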