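import Pool.Agent.MP_df844f_gt.Spec

/-! A 2-cocycle of the manifold that dies on a state with acyclic cover is a coboundary. -/

namespace Pool.Agent.MP_df844f_gt

open PS

namespace CoreBA

theorem two : (2 : F2) = 0 := by decide

/-- A function that is constant along edges of `W` is constant. -/
theorem const_of (F : W → F2) (h : ∀ s w, F (g s * w) = F w) (w : W) : F w = F 1 :=
  induction_left (p := fun w => F w = F 1) w rfl fun w s ih => (h s w).trans ih

/-- Sums of `η` along a word for `u`. -/
theorem path_sum (η : S → W → F2) (u : W) : ∃ P : W → F2, ∀ (γ : W) (θ : W → F2),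
    (∀ s w, η s w + η s (w * γ) = θ w + θ (g s * w)) →
      ∀ w, P w + P (w * γ) = θ w + θ (u * w) := by
  refine induction_left (p := fun u => ∃ P : W → F2, ∀ (γ : W) (θ : W → F2),
    (∀ s w, η s w + η s (w * γ) = θ w + θ (g s * w)) →
      ∀ w, P w + P (w * γ) = θ w + θ (u * w)) u ⟨fun _ => 0, fun γ θ _ w => ?_⟩ ?_
  · rw [one_mul]
    linear_combination (-θ w) * two
  · rintro u s ⟨P, hP⟩
    refine ⟨fun w => P w + η s (u * w), fun γ θ h w => ?_⟩
    have h1 := hP γ θ h w
    have h2 := h s (u * w)
    rw [mul_assoc] at h2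
    rw [mul_assoc]
    linear_combination h1 + h2 + θ (u * w) * two

/-- Symmetric values on darts. -/
theorem darts {B : Type} [MulAction W B] (Y : PS B) (η : S → W → F2) :
    ∃ P : Y.A → W → F2, (∀ a w, P (Y.rev a) (Y.lab a * w) = P a w) ∧ ∀ (γ : W) (θ : W → F2),
      (∀ s w, η s w + η s (w * γ) = θ w + θ (g s * w)) →
        ∀ a w, P a w + P a (w * γ) = θ w + θ (Y.lab a * w) := by
  choose P hP using path_sum η
  obtain ⟨ix, hix⟩ := Countable.exists_injective_nat Y.A
  refine ⟨fun a w => if ix a < ix (Y.rev a) then P (Y.lab a) w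
    else P (Y.lab (Y.rev a)) (Y.lab a * w), fun a w => ?_, fun γ θ h a w => ?_⟩
  · have hne : ix (Y.rev a) ≠ ix a := fun h => Y.rev_ne a (hix h)
    simp only [Y.rev_rev]
    by_cases h : ix a < ix (Y.rev a)
    · rw [if_pos h, if_neg (by omega), Y.lab_rev, inv_mul_cancel_left]
    · rw [if_neg h, if_pos (by omega)]
  · by_cases h1 : ix a < ix (Y.rev a)
    · simp only [if_pos h1]
      exact hP _ γ θ h w
    · simp only [if_neg h1]
      have := hP (Y.lab (Y.rev a)) γ θ h (Y.lab a * w)
      rw [mul_assoc, Y.lab_rev a, inv_mul_cancel_left] at this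
      rw [Y.lab_rev a, this, add_comm]

theorem sq_pos {s t : S} (h : adj s t) (w : W) : g t * (g s * w) = g s * (g t * w) := by
  rw [← mul_assoc, ← g_comm h, mul_assoc]

end CoreBA

open CoreBA in
theorem coreB (h1 : H1S) (h2 : H2S) : CoreBS := by
  intro B _ o htr Y x0 hH hA z c z1 z2 z3 c1 c2
  classical
  obtain ⟨η, η1, η2⟩ := h2 (fun s t w => z s t (w • o)) (fun s t w h => z1 s t _ h)
    (fun s t w h => by simp only [mul_smul]; exact z2 s t _ h)
    (fun s t u w a b e => by simp only [mul_smul]; exact z3 s t u _ a b e)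
  obtain ⟨P, P1, P2⟩ := darts Y η
  have ve : ∀ {s x y} (w : W), Y.e s x y → ((g s * w) • o = Y.f y ↔ w • o = Y.f x) := by
    intro s x y w h
    rw [Y.e_f h, mul_smul, smul_left_cancel_iff]
  have va : ∀ a (w : W), (Y.lab a * w) • o = Y.f (Y.src (Y.rev a)) ↔ w • o = Y.f (Y.src a) := by
    intro a w
    rw [Y.f_rev, mul_smul, smul_left_cancel_iff]
  let C : Y.Coch W := fun l w => match l with
    | .edge s x y => if w • o = Y.f x then c s x y + η s w else 0
    | .dart a => P a w
  obtain ⟨φ, φ1, φ2⟩ := hA C ⟨fun s x y w h => by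
      simp only [C, smul_eq_mul, ve w h, c1 s x y h, η1], fun a w => P1 a w,
    fun s t y0 y1 y2 y3 w hst e0 e1 e2 e3 => by
      simp only [C, smul_eq_mul, ve _ e2, ve _ e1, ve _ e0]
      split_ifs with hv
      · have a1 := c2 s t y0 y1 y2 y3 hst e0 e1 e2 e3
        have a2 := η2 s t w hst
        rw [sq_pos hst, g_mul_g_mul, η1, η1]
        rw [hv] at a2
        linear_combination a1 - a2 + z s t (Y.f y0) * two
      · simp⟩
  have hθ : ∀ γ : W, γ • o = o → ∃ θ : W → F2,
      (∀ s w, η s w + η s (w * γ) = θ w + θ (g s * w)) ∧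
        ∀ x w, w • o = Y.f x → θ w = φ x w + φ x (w * γ) := by
    intro γ hγ
    have hw : ∀ w : W, (w * γ) • o = w • o := fun w => by rw [mul_smul, hγ]
    obtain ⟨θ, hθ⟩ := h1 Set.univ (fun _ _ _ _ _ _ => trivial) (fun s w => η s w + η s (w * γ))
      (fun s w _ _ => by rw [mul_assoc, η1, η1]) (fun s t w hst _ _ _ _ => by
        have a1 := η2 s t w hst
        have a2 := η2 s t (w * γ) hst
        simp only [hw] at a2
        simp only [mul_assoc]
        linear_combination -a1 - a2 + z s t (w • o) * two)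
    replace hθ := fun s w => hθ s w trivial trivial
    have hL : LocC (Y := Y) fun x w =>
        if w • o = Y.f x then φ x w + φ x (w * γ) + θ w else 0 := by
      refine ⟨fun s x y w h => ?_, fun a w => ?_⟩
      · simp only [ve w h]
        split_ifs with hv
        · have a1 := φ1 s x y w h
          have a2 := φ1 s x y (w * γ) h
          have a3 := hθ s w
          simp only [C, smul_eq_mul, hw, if_pos hv] at a1 a2
          rw [mul_assoc]
          linear_combination -a1 - a2 - a3 + (c s x y + η s w + η s (w * γ) - φ x w -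
            φ x (w * γ) - θ w) * two
        · rfl
      · simp only [va a w]
        split_ifs with hv
        · have a1 := φ2 a w
          have a2 := φ2 a (w * γ)
          have a3 := P2 γ θ hθ a w
          simp only [C, smul_eq_mul] at a1 a2
          rw [mul_assoc]
          linear_combination -a1 - a2 - a3 + (P a w + P a (w * γ) - φ (Y.src a) w -
            φ (Y.src a) (w * γ) - θ w) * two
        · rfl
    refine ⟨fun w => θ w + (φ x0 1 + φ x0 (1 * γ) + θ 1), fun s w => ?_, fun x w hv => ?_⟩
    · linear_combination hθ s w - (φ x0 1 + φ x0 (1 * γ) + θ 1) * two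
    · have := hH.2 _ _ hL x w hv
      simp only [if_pos hv, one_smul, if_pos hH.1.symm] at this
      linear_combination -this + θ w * two
  choose! θ θ1 θ2 using hθ
  have coc : ∀ γ γ' : W, γ • o = o → γ' • o = o → ∀ w,
      θ (γ * γ') w + θ γ w + θ γ' (w * γ) = 0 := by
    intro γ γ' a b w
    have ab : (γ * γ') • o = o := by rw [mul_smul, b, a]
    rw [const_of (fun w => θ (γ * γ') w + θ γ w + θ γ' (w * γ)) (fun s w => ?_) w]
    · have hx : (1 : W) • o = Y.f x0 := by rw [one_smul, hH.1]
      have a1 := θ2 _ ab x0 1 hx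
      have a2 := θ2 _ a x0 1 hx
      have a3 := θ2 _ b x0 γ (a.trans hH.1.symm)
      simp only [one_mul] at a1 a2 ⊢
      linear_combination a1 + a2 + a3 + (φ x0 1 + φ x0 γ + φ x0 (γ * γ')) * two
    · have a1 := θ1 _ ab s w
      have a2 := θ1 _ a s w
      have a3 := θ1 _ b s (w * γ)
      simp only [mul_assoc] at a3 ⊢
      linear_combination -a1 - a2 - a3 + (η s w + η s (w * γ) + η s (w * (γ * γ')) -
        θ (γ * γ') w - θ γ w - θ γ' (w * γ)) * two
  choose t ht using htr
  have ret : ∀ w : W, ((t (w • o))⁻¹ * w) • o = o := fun w => by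
    rw [mul_smul, inv_smul_eq_iff, ht]
  let ψ : W → F2 := fun w => θ ((t (w • o))⁻¹ * w) (t (w • o))
  have hψ : ∀ γ w : W, γ • o = o → ψ (w * γ) + ψ w + θ γ w = 0 := by
    intro γ w hγ
    have := coc _ γ (ret w) hγ (t (w • o))
    rw [mul_inv_cancel_left] at this
    simp only [ψ, mul_smul w γ, hγ, ← mul_assoc]
    exact this
  have inv : ∀ s (w : W), η s (t (w • o)) + ψ (t (w • o)) + ψ (g s * t (w • o)) =
      η s w + ψ w + ψ (g s * w) := by
    intro s w
    have a1 := θ1 _ (ret w) s (t (w • o))
    have a2 := hψ _ (t (w • o)) (ret w)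
    have a3 := hψ _ (g s * t (w • o)) (ret w)
    rw [mul_assoc] at a3
    rw [mul_inv_cancel_left] at a1 a2 a3
    linear_combination a1 + a2 + a3 - (η s w + ψ w + ψ (g s * w)) * two
  refine ⟨fun s b => η s (t b) + ψ (t b) + ψ (g s * t b), fun s b => ?_, fun s u b hsu => ?_⟩
  · have := inv s (g s * t b)
    rw [mul_smul, ht, η1, g_mul_g_mul] at this
    linear_combination this
  · have a1 := inv s (g u * t b)
    have a2 := inv u (g s * t b)
    have a3 := η2 s u (t b) hsu
    rw [mul_smul, ht] at a1 a2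
    rw [sq_pos hsu] at a2
    simp only [ht] at a3
    linear_combination a3 - a1 - a2 - (ψ (t b) + ψ (g s * t b) + ψ (g u * t b) +
      ψ (g s * (g u * t b))) * two

end Pool.Agent.MP_df844f_gt
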