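import Pool.Agent.MP_df844f_gt.s5.Euler

/-! The first Betti number of the end state is at most that of the closed manifold. -/

namespace Pool.Agent.MP_df844f_gt

open PS

namespace EndAA

/-- The product of a word. -/
def wd : List S → W
  | [] => 1
  | s :: ω => g s * wd ω

theorem exists_wd (w : W) : ∃ ω, wd ω = w := by
  induction w using induction_left with
  | h1 => exact ⟨[], rfl⟩
  | h2 w s ih =>
    obtain ⟨ω, rfl⟩ := ih
    exact ⟨s :: ω, rfl⟩

variable {B : Type} [MulAction W B]

/-- The sum of an edge function along a word. -/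
def sm : List S → B → ((S → B → F2) →ₗ[F2] F2)
  | [], _ => 0
  | s :: ω, b => sm ω b + (LinearMap.proj (wd ω • b) : (B → F2) →ₗ[F2] F2) ∘ₗ LinearMap.proj s

theorem sm_eq {o : B} {η : S → B → F2} {ψ : W → F2}
    (h : ∀ s w, η s (w • o) = ψ w + ψ (g s * w)) (ω : List S) (w : W) :
    sm ω (w • o) η = ψ w + ψ (wd ω * w) := by
  induction ω with
  | nil =>
    show (0 : F2) = ψ w + ψ (1 * w)
    rw [one_mul, F2_add_self]
  | cons s ω ih =>
    show sm ω (w • o) η + η s (wd ω • w • o) = ψ w + ψ (g s * wd ω * w)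
    rw [ih, smul_smul, h, mul_assoc]
    generalize ψ w = a
    generalize ψ (wd ω * w) = b
    generalize ψ (g s * (wd ω * w)) = c
    revert a b c
    decide

/-- Cocycles of the closed manifold as edge functions. -/
def EE (B : Type) [MulAction W B] : Submodule F2 (S → B → F2) where
  carrier := {η | (∀ s b, η s (g s • b) = η s b) ∧
    ∀ s t b, adj s t → η t b + η t (g s • b) + (η s b + η s (g t • b)) = 0}
  zero_mem' := ⟨fun _ _ => rfl, fun _ _ _ _ => by simp⟩
  add_mem' := by
    rintro η η' ⟨a, b⟩ ⟨a', b'⟩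
    refine ⟨fun s x => ?_, fun s t x h => ?_⟩
    · simp only [Pi.add_apply, a, a']
    · simp only [Pi.add_apply]
      linear_combination b s t x h + b' s t x h
  smul_mem' := by
    rintro c η ⟨a, b⟩
    refine ⟨fun s x => ?_, fun s t x h => ?_⟩
    · simp only [Pi.smul_apply, a]
    · simp only [Pi.smul_apply, smul_eq_mul]
      linear_combination c * b s t x h

theorem mem_EE {o : B} (ho : Trans o) {η : S → B → F2} {ψ : W → F2}
    (h : ∀ s w, η s (w • o) = ψ w + ψ (g s * w)) : η ∈ EE B := by
  refine ⟨fun s b => ?_, fun s t b k => ?_⟩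
  · obtain ⟨w, rfl⟩ := ho b
    rw [smul_smul, h, h, g_mul_g_mul, add_comm]
  · obtain ⟨w, rfl⟩ := ho b
    rw [smul_smul, smul_smul, h, h, h, h, ← mul_assoc (g t), ← g_comm k, mul_assoc]
    generalize ψ w = a
    generalize ψ (g t * w) = b
    generalize ψ (g s * w) = c
    generalize ψ (g s * (g t * w)) = e
    revert a b c e
    decide

theorem clq_pair {s t : S} (h : adj s t) : Clq {s, t} := by
  revert s t
  decide

theorem coef2 (co : CoefS) (hB : Loc B) {Y : PS B} (hY : Y.State) (u : Y.Chain) {x : Y.Om}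
    {s t : S} (h : adj s t) (hf : Y.Full x {s, t}) :
    Y.bd u (Y.cell x {s, t}) = u (Y.cell x {t}) + u (Y.cell (Y.sg s x) {t}) +
      (u (Y.cell x {s}) + u (Y.cell (Y.sg t x) {s})) := by
  have hc : Clq {s, t} := clq_pair h
  have e1 : ({s, t} : Finset S).erase s = {t} := by
    have := adj_ne h
    revert this
    generalize s = a
    generalize t = b
    revert a b
    decide
  have e2 : ({s, t} : Finset S).erase t = {s} := by
    have := adj_ne h
    revert this
    generalize s = a
    generalize t = b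
    revert a b
    decide
  rw [co B hB Y hY u x _ hc hf, Finset.sum_pair (adj_ne h), e1, e2]

/-- Values of a chain on rank one cells. -/
noncomputable def res (Y : PS B) : Y.Chain →ₗ[F2] (S → Y.Om → F2) where
  toFun u s x := u (Y.cell x {s})
  map_add' _ _ := rfl
  map_smul' _ _ := rfl

/-- Cocycles in degree one. -/
noncomputable abbrev Z1 (Y : PS B) : Submodule F2 Y.Chain := Y.Ck 1 ⊓ LinearMap.ker (Y.dl 2)

theorem full_full [Finite B] (x : (fullPS B).Om) (J : Finset S) : (fullPS B).Full x J :=
  fun y _ s _ k => k ⟨g s • (show B from y), rfl⟩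

theorem full_sg [Finite B] (s : S) (x : B) : (fullPS B).sg s x = g s • x :=
  (fullPS_state B).sg_eq (s := s) (x := x) (y := g s • x) rfl

/-- Values of a chain of the closed manifold on rank one cells. -/
noncomputable def resB (B : Type) [MulAction W B] [Finite B] :
    (fullPS B).Chain →ₗ[F2] (S → B → F2) where
  toFun u s x := u ((fullPS B).cell x {s})
  map_add' _ _ := rfl
  map_smul' _ _ := rfl

theorem exists_chain [Finite B] (co : CoefS) (hB : Loc B) (η : S → B → F2) (h : η ∈ EE B) :
    ∃ u ∈ Z1 (fullPS B), resB B u = η := by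
  classical
  let F : (fullPS B).Cell → F2 :=
    Quot.lift (fun p : B × Finset S => ∑ s, if p.2 = {s} then η s p.1 else 0) (by
      rintro ⟨x, J⟩ ⟨y, J'⟩ ⟨h1, t, ht, h2⟩
      obtain rfl : J = J' := h1
      refine Finset.sum_congr rfl fun s _ => ?_
      show (if J = {s} then η s x else 0) = if J = {s} then η s y else 0
      split_ifs with k
      · subst k
        obtain rfl := Finset.mem_singleton.1 ht
        have : (show B from y) = g t • (show B from x) := h2
        exact ((congrArg (η t) this).trans (h.1 t x)).symm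
      · rfl)
  have hF : ∀ (x : B) (J : Finset S),
      F ((fullPS B).cell x J) = ∑ s, if J = {s} then η s x else 0 := fun _ _ => rfl
  have hF1 : ∀ (x : B) (s : S), F ((fullPS B).cell x {s}) = η s x := by
    intro x s
    rw [hF]
    simp only [Finset.singleton_inj]
    rw [Finset.sum_ite_eq]
    simp
  let u : (fullPS B).Chain := Finsupp.equivFunOnFinite.symm F
  have hu : ∀ c, u c = F c := fun _ => rfl
  refine ⟨u, ⟨(Finsupp.mem_supported' F2 _).2 fun c hc => ?_, ?_⟩, ?_⟩
  · obtain ⟨x, J, rfl⟩ := cell_ind c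
    rw [hu, hF]
    refine Finset.sum_eq_zero fun s _ => if_neg fun k => hc ?_
    subst k
    exact ⟨x, {s}, Finset.card_singleton s, fun a ha b hb n => absurd
      ((Finset.mem_singleton.1 ha).trans (Finset.mem_singleton.1 hb).symm) n, full_full _ _, rfl⟩
  · refine LinearMap.mem_ker.2 (Finsupp.ext fun c => ?_)
    rw [EulerA.dl_apply]
    split_ifs with k
    · obtain ⟨x, J, h1, h2, h3, rfl⟩ := k
      obtain ⟨s, t, n, rfl⟩ := Finset.card_eq_two.1 h1
      have a : adj s t := h2 s (by simp) t (by simp) n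
      rw [coef2 co hB (fullPS_state B) u a h3, hu, hu, hu, hu, full_sg, full_sg, hF1, hF1, hF1,
        hF1]
      exact h.2 s t x a
    · rfl
  · funext s x
    exact hF1 x s

theorem finrank_EE [Finite B] (co : CoefS) (hB : Loc B) :
    Module.finrank F2 (EE B) ≤ (fullPS B).zz 1 := by
  have h : EE B ≤ (Z1 (fullPS B)).map (resB B) := fun η k => exists_chain co hB η k
  exact (Submodule.finrank_mono h).trans (Submodule.finrank_map_le _ _)

/-- Functions on darts that are symmetric under reversal. -/
def DA (Y : PS B) : Submodule F2 (Y.A → F2) where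
  carrier := {α | ∀ a, α (Y.rev a) = α a}
  zero_mem' := fun _ => rfl
  add_mem' := fun h k a => by simp only [Pi.add_apply, h a, k a]
  smul_mem' := fun c α h a => by simp only [Pi.smul_apply, h a]

theorem finrank_DA (Y : PS B) : Nat.card Y.A ≤ 2 * Module.finrank F2 (DA Y) := by
  classical
  have : Fintype Y.A := Fintype.ofFinite _
  let T : (Y.A → F2) →ₗ[F2] (Y.A → F2) := LinearMap.id + LinearMap.funLeft F2 F2 Y.rev
  have hT : ∀ α a, T α a = α a + α (Y.rev a) := fun _ _ => rfl
  have h := LinearMap.finrank_range_add_finrank_ker T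
  have h1 : LinearMap.range T ≤ DA Y := by
    rintro _ ⟨α, rfl⟩ a
    rw [hT, hT, Y.rev_rev, add_comm]
  have h2 : LinearMap.ker T ≤ DA Y := by
    intro α k a
    have := congrFun (LinearMap.mem_ker.1 k) a
    rw [hT] at this
    revert this
    generalize α a = p
    generalize α (Y.rev a) = q
    show p + q = 0 → q = p
    revert p q
    decide
  have h3 := Submodule.finrank_mono h1
  have h4 := Submodule.finrank_mono h2
  rw [Module.finrank_fintype_fun_eq_card, ← Nat.card_eq_fintype_card] at h
  omega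

open Classical in
/-- Pull back of a cocycle plus a coboundary. -/
noncomputable def theta (Y : PS B) :
    (EE B × (Y.Om → F2)) →ₗ[F2] ((S → Y.Om → F2) × (Y.A → F2)) where
  toFun p := (fun s x => if Y.Free x s then 0 else p.1.1 s (Y.f x) + p.2 x + p.2 (Y.sg s x),
    fun a => sm (Classical.choose (exists_wd (Y.lab a))) (Y.f (Y.src a)) p.1.1 + p.2 (Y.src a) +
      p.2 (Y.src (Y.rev a)))
  map_add' p q := by
    refine Prod.ext (funext fun s => funext fun x => ?_) (funext fun a => ?_)
    · simp only [Prod.fst_add, Prod.snd_add, Submodule.coe_add, Pi.add_apply]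
      split_ifs <;> ring
    · simp only [Prod.fst_add, Prod.snd_add, Submodule.coe_add, Pi.add_apply, map_add]
      ring
  map_smul' c p := by
    refine Prod.ext (funext fun s => funext fun x => ?_) (funext fun a => ?_)
    · simp only [Prod.smul_fst, Prod.smul_snd, Submodule.coe_smul, Pi.smul_apply, smul_eq_mul,
        RingHom.id_apply]
      split_ifs <;> ring
    · simp only [Prod.smul_fst, Prod.smul_snd, Submodule.coe_smul, Pi.smul_apply, smul_eq_mul,
        RingHom.id_apply, map_smul]
      ring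

/-- Coboundaries of the closed manifold with their pull backs. -/
def kappa {o : B} (ho : Trans o) (Y : PS B) : (B → F2) →ₗ[F2] (EE B × (Y.Om → F2)) where
  toFun ψ := (⟨fun s b => ψ b + ψ (g s • b),
    mem_EE ho (ψ := fun w => ψ (w • o)) fun s w => by simp only [mul_smul]⟩, fun x => ψ (Y.f x))
  map_add' p q := by
    refine Prod.ext (Subtype.ext (funext fun s => funext fun b => ?_)) rfl
    simp only [Prod.fst_add, Submodule.coe_add, Pi.add_apply]
    ring
  map_smul' c p := by
    refine Prod.ext (Subtype.ext (funext fun s => funext fun b => ?_)) rfl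
    simp only [Prod.smul_fst, Submodule.coe_smul, Pi.smul_apply, smul_eq_mul, RingHom.id_apply]
    ring

theorem kappa_inj {o : B} (ho : Trans o) (Y : PS B) {x0 : Y.Om} (h0 : Y.f x0 = o) :
    Function.Injective (kappa ho Y) := by
  refine (injective_iff_map_eq_zero _).2 fun ψ h => funext fun b => ?_
  obtain ⟨w, rfl⟩ := ho b
  induction w using induction_left with
  | h1 =>
    rw [one_smul, ← h0]
    exact congrFun (congrArg Prod.snd h) x0
  | h2 w s ih =>
    have k : ψ (w • o) + ψ (g s • w • o) = 0 :=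
      congrFun (congrFun (congrArg (fun p => p.1.1) h) s) (w • o)
    rw [ih, Pi.zero_apply, zero_add] at k
    rw [mul_smul]
    exact k

theorem theta_kappa {o : B} (ho : Trans o) (Y : PS B) (ψ : B → F2) :
    theta Y (kappa ho Y ψ) = 0 := by
  classical
  refine Prod.ext (funext fun s => funext fun x => ?_) (funext fun a => ?_)
  · show (if Y.Free x s then 0 else
      ψ (Y.f x) + ψ (g s • Y.f x) + ψ (Y.f x) + ψ (Y.f (Y.sg s x))) = (0 : F2)
    split_ifs with k
    · rfl
    · rw [Y.e_f (e_sg k)]
      generalize ψ (Y.f x) = p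
      generalize ψ (g s • Y.f x) = q
      revert p q
      decide
  · show sm (Classical.choose (exists_wd (Y.lab a))) (Y.f (Y.src a))
      (fun s b => ψ b + ψ (g s • b)) + ψ (Y.f (Y.src a)) + ψ (Y.f (Y.src (Y.rev a))) = (0 : F2)
    obtain ⟨w, hw⟩ := ho (Y.f (Y.src a))
    rw [Y.f_rev, ← hw, sm_eq (ψ := fun w => ψ (w • o)) (fun s w => by simp only [mul_smul]),
      Classical.choose_spec (exists_wd (Y.lab a)), mul_smul]
    generalize ψ (w • o) = p
    generalize ψ (Y.lab a • w • o) = q
    revert p q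
    decide

/-- Cocycles of the state as functions on sides and darts. -/
noncomputable def iota (Y : PS B) : (Z1 Y × DA Y) →ₗ[F2] ((S → Y.Om → F2) × (Y.A → F2)) :=
  LinearMap.prodMap (res Y ∘ₗ (Z1 Y).subtype) (DA Y).subtype

theorem iota_inj (Y : PS B) : Function.Injective (iota Y) := by
  refine (injective_iff_map_eq_zero _).2 fun p h => Prod.ext (Subtype.ext ?_) (Subtype.ext ?_)
  · refine Finsupp.ext fun c => ?_
    by_cases k : c ∈ Y.FC 1
    · obtain ⟨x, J, h1, _, _, rfl⟩ := k
      obtain ⟨s, rfl⟩ := Finset.card_eq_one.1 h1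
      exact congrFun (congrFun (congrArg Prod.fst h) s) x
    · exact (Finsupp.mem_supported' F2 _).1 p.1.2.1 c k
  · exact congrArg Prod.snd h

/-- The cochain given by a chain and a function on darts. -/
def coch (Y : PS B) (u : Y.Chain) (α : Y.A → F2) : Y.Coch Unit
  | .edge s x _, _ => u (Y.cell x {s})
  | .dart a, _ => α a

theorem coch_cocyc (co : CoefS) (hB : Loc B) {Y : PS B} (hY : Y.State) (p : Z1 Y × DA Y) :
    Cocyc (coch Y p.1.1 p.2.1) where
  symm s x y _ h := by
    show p.1.1 (Y.cell y {s}) = p.1.1 (Y.cell x {s})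
    rw [cell_e (Finset.mem_singleton_self s) h]
  dsym a _ := p.2.2 a
  sq s t x0 x1 x2 x3 _ h e0 e1 e2 e3 := by
    show p.1.1 (Y.cell x0 {s}) + p.1.1 (Y.cell x1 {t}) + p.1.1 (Y.cell x2 {s}) +
      p.1.1 (Y.cell x3 {t}) = 0
    have s0 := hY.sg_eq e0
    have s1 := hY.sg_eq e1
    have s2 := hY.sg_eq (Y.e_symm e2)
    have s3 := hY.sg_eq (Y.e_symm e3)
    have hf : Y.Full x0 {s, t} := by
      intro y hy v hv k
      have hv' : v = s ∨ v = t := by simpa using hv
      have ho := hY.orb2 h hy.symm
      rw [s0, s1, s3, s2] at ho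
      rcases hv' with rfl | rfl <;> rcases ho with rfl | rfl | rfl | rfl | rfl
      · exact k ⟨_, e0⟩
      · exact k ⟨_, Y.e_symm e0⟩
      · exact k ⟨_, Y.e_symm e2⟩
      · exact k ⟨_, e2⟩
      · exact k ⟨_, e2⟩
      · exact k ⟨_, Y.e_symm e3⟩
      · exact k ⟨_, e1⟩
      · exact k ⟨_, e3⟩
      · exact k ⟨_, Y.e_symm e1⟩
      · exact k ⟨_, Y.e_symm e1⟩
    have hc : Clq {s, t} := clq_pair h
    have hm : Y.cell x0 {s, t} ∈ Y.FC 2 :=
      ⟨x0, {s, t}, Finset.card_pair (adj_ne h), hc, hf, rfl⟩
    have hz : Y.dl 2 p.1.1 (Y.cell x0 {s, t}) = 0 := by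
      rw [LinearMap.mem_ker.1 p.1.2.2]
      rfl
    rw [EulerA.dl_apply, if_pos hm, coef2 co hB hY _ h hf, s0, s3,
      ← cell_e (Finset.mem_singleton_self t) e3, ← cell_e (Finset.mem_singleton_self s) e2] at hz
    linear_combination hz

theorem range_le (co : CoefS) (ca : CoreAS) {o : B} (ho : Trans o) (hB : Loc B) {Y : PS B}
    {x0 : Y.Om} (hY : Y.State) (h0 : Y.H0 o x0) (h1 : ∀ c : Y.Coch W, Cocyc c → Cobd c) :
    LinearMap.range (iota Y) ≤ LinearMap.range (theta Y) := by
  classical
  rintro _ ⟨p, rfl⟩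
  obtain ⟨η, ψ, φ, a1, a2, a3⟩ := ca B o ho Y x0 h0 h1 _ (coch_cocyc co hB hY p)
  refine ⟨(⟨η, mem_EE ho a1⟩, φ), Prod.ext (funext fun s => funext fun x => ?_)
    (funext fun a => ?_)⟩
  · show (if Y.Free x s then 0 else η s (Y.f x) + φ x + φ (Y.sg s x)) = p.1.1 (Y.cell x {s})
    split_ifs with k
    · refine ((Finsupp.mem_supported' F2 _).1 p.1.2.1 _ ?_).symm
      rintro ⟨y, J, _, _, h3, e⟩
      obtain rfl := (cell_eq_iff.1 e).1
      exact h3 x e s (Finset.mem_singleton_self s) k
    · exact (a2 s x _ (e_sg k)).symm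
  · show sm (Classical.choose (exists_wd (Y.lab a))) (Y.f (Y.src a)) η + φ (Y.src a) +
      φ (Y.src (Y.rev a)) = p.2.1 a
    obtain ⟨w, hw⟩ := ho (Y.f (Y.src a))
    have := a3 a w hw
    rw [← hw, sm_eq a1, Classical.choose_spec (exists_wd (Y.lab a))]
    exact this.symm

end EndAA

theorem endA (co : CoefS) (ca : CoreAS) : EndAS := by
  intro B _ _ o ho hB Y x0 hY h0 h1
  classical
  have : Fintype B := Fintype.ofFinite _
  have : Fintype Y.Om := Fintype.ofFinite _
  have a := LinearMap.finrank_range_add_finrank_ker (EndAA.theta Y)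
  have b := Submodule.finrank_mono (EndAA.range_le co ca ho hB hY h0 h1)
  rw [LinearMap.finrank_range_of_inj (EndAA.iota_inj Y), Module.finrank_prod] at b
  have c : LinearMap.range (EndAA.kappa ho Y) ≤ LinearMap.ker (EndAA.theta Y) := by
    rintro _ ⟨ψ, rfl⟩
    exact EndAA.theta_kappa ho Y ψ
  have e := Submodule.finrank_mono c
  rw [LinearMap.finrank_range_of_inj (EndAA.kappa_inj ho Y h0.1),
    Module.finrank_fintype_fun_eq_card, ← Nat.card_eq_fintype_card] at e
  rw [Module.finrank_prod, Module.finrank_fintype_fun_eq_card, ← Nat.card_eq_fintype_card] at a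
  have i := EndAA.finrank_EE co hB
  have j := EndAA.finrank_DA Y
  have k : Y.zz 1 = Module.finrank F2 (EndAA.Z1 Y) := rfl
  unfold vol
  omega

end Pool.Agent.MP_df844f_gt
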