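import Pool.Agent.MP_df844f_gt.s5.Euler

/-! The pull-back from the closed manifold is injective on second cohomology. -/

namespace Pool.Agent.MP_df844f_gt

open PS

namespace EndBA

theorem rk {K V V' : Type} [Field K] [AddCommGroup V] [Module K V] [AddCommGroup V'] [Module K V']
    [FiniteDimensional K V] (P : V →ₗ[K] V') (Z : Submodule K V) :
    Module.finrank K (Z.map P) + Module.finrank K (Z ⊓ LinearMap.ker P : Submodule K V) =
      Module.finrank K Z := by
  have h := LinearMap.finrank_range_add_finrank_ker (P.domRestrict Z)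
  rwa [LinearMap.range_domRestrict, LinearMap.ker_domRestrict,
    ← Submodule.finrank_map_subtype_eq Z, Submodule.map_comap_subtype] at h

theorem key {K V V' : Type} [Field K] [AddCommGroup V] [Module K V] [AddCommGroup V'] [Module K V']
    [FiniteDimensional K V] [FiniteDimensional K V'] (P : V →ₗ[K] V') (Z D : Submodule K V)
    (Z' D' : Submodule K V') (h0 : D' ≤ Z') (h1 : ∀ u ∈ Z, P u ∈ Z')
    (h2 : ∀ u ∈ Z, P u ∈ D' → u ∈ D) :
    Module.finrank K Z + Module.finrank K D' ≤ Module.finrank K Z' + Module.finrank K D := by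
  have a := rk P Z
  have b := rk P (Z ⊓ D'.comap P)
  have c := Submodule.finrank_sup_add_finrank_inf_eq (Z.map P) D'
  have e1 : (Z ⊓ D'.comap P).map P = Z.map P ⊓ D' := by
    refine le_antisymm ?_ ?_
    · rintro _ ⟨u, ⟨hu, hv⟩, rfl⟩
      exact ⟨⟨u, hu, rfl⟩, hv⟩
    · rintro _ ⟨⟨u, hu, rfl⟩, hv⟩
      exact ⟨u, ⟨hu, hv⟩, rfl⟩
  have e2 : (Z ⊓ D'.comap P) ⊓ LinearMap.ker P = Z ⊓ LinearMap.ker P := by
    refine le_antisymm (fun u hu => ⟨hu.1.1, hu.2⟩) fun u hu => ⟨⟨hu.1, ?_⟩, hu.2⟩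
    show P u ∈ D'
    rw [LinearMap.mem_ker.1 hu.2]
    exact D'.zero_mem
  rw [e1, e2] at b
  have d1 : Module.finrank K (Z.map P ⊔ D' : Submodule K V') ≤ Module.finrank K Z' := by
    refine Submodule.finrank_mono (sup_le ?_ h0)
    rintro _ ⟨u, hu, rfl⟩
    exact h1 u hu
  have d2 : Module.finrank K (Z ⊓ D'.comap P : Submodule K V) ≤ Module.finrank K D :=
    Submodule.finrank_mono fun u hu => h2 u hu.1 hu.2
  omega

variable {B : Type} [MulAction W B] [Finite B]

/-- The map to the closed manifold. -/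
def toM (Y : PS B) : EHom Y (fullPS B) := ⟨Y.f, fun h => Y.e_f h⟩

theorem full_M (b : B) (J : Finset S) : (fullPS B).Full b J :=
  fun y _ s _ h => h ⟨g s • (show B from y), rfl⟩

theorem sg_M (s : S) (b : B) : (fullPS B).sg s b = g s • b :=
  (fullPS_state B).sg_eq rfl

theorem mem_M (b : B) {J : Finset S} (h : Clq J) : (fullPS B).cell b J ∈ (fullPS B).FC J.card :=
  ⟨b, J, rfl, h, full_M b J, rfl⟩

open Classical in
/-- Pull-back of cochains of degree `k`. -/
noncomputable def pb (Y : PS B) (k : ℕ) : (fullPS B).Chain →ₗ[F2] Y.Chain :=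
  (Y.Ck k).subtype ∘ₗ Finsupp.restrictDom F2 F2 (Y.FC k) ∘ₗ
    (Finsupp.linearEquivFunOnFinite F2 F2 Y.Cell).symm.toLinearMap ∘ₗ
      LinearMap.funLeft F2 F2 (toM Y).cmap ∘ₗ
        (Finsupp.linearEquivFunOnFinite F2 F2 (fullPS B).Cell).toLinearMap

open Classical in
theorem pb_apply (Y : PS B) (k : ℕ) (u : (fullPS B).Chain) (c : Y.Cell) :
    pb Y k u c = if c ∈ Y.FC k then u ((toM Y).cmap c) else 0 := by
  show (Finsupp.restrictDom F2 F2 (Y.FC k) _ : Y.Chain) c = _
  rw [Finsupp.restrictDom_apply, Finsupp.filter_apply]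
  rfl

open Classical in
theorem pb_mem (Y : PS B) (k : ℕ) (u : (fullPS B).Chain) : pb Y k u ∈ Y.Ck k :=
  (Finsupp.restrictDom F2 F2 (Y.FC k) _).2

theorem pb_cell (Y : PS B) (u : (fullPS B).Chain) {x : Y.Om} {J : Finset S} {k : ℕ}
    (h1 : J.card = k) (h2 : Clq J) (h3 : Y.Full x J) :
    pb Y k u (Y.cell x J) = u ((fullPS B).cell (Y.f x) J) := by
  rw [pb_apply, if_pos ⟨x, J, h1, h2, h3, rfl⟩]
  rfl

theorem clq_erase {J : Finset S} (h : Clq J) (s : S) : Clq (J.erase s) :=
  fun a ha b hb => h a (Finset.mem_of_mem_erase ha) b (Finset.mem_of_mem_erase hb)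

theorem pb_cocyc (co : CoefS) (hB : Loc B) {Y : PS B} (hY : Y.State) (u : (fullPS B).Chain)
    (hu : (fullPS B).dl 3 u = 0) : Y.dl 3 (pb Y 2 u) = 0 := by
  classical
  refine Finsupp.ext fun c => ?_
  rw [EulerA.dl_apply]
  split_ifs with h
  · obtain ⟨x, J, h1, h2, h3, rfl⟩ := h
    have k := congrArg (fun v : (fullPS B).Chain => v ((fullPS B).cell (Y.f x) J)) hu
    have m : (fullPS B).cell (Y.f x) J ∈ (fullPS B).FC 3 := h1 ▸ mem_M (Y.f x) h2
    simp only [EulerA.dl_apply, if_pos m] at k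
    rw [co B hB _ (fullPS_state B) u _ J h2 (full_M _ J)] at k
    rw [co B hB Y hY _ x J h2 h3]
    refine Eq.trans (Finset.sum_congr rfl fun s hs => ?_) k
    have c2 : (J.erase s).card = 2 := by rw [Finset.card_erase_of_mem hs, h1]
    rw [pb_cell Y u c2 (clq_erase h2 s) (h3.mono (Finset.erase_subset s J)),
      pb_cell Y u c2 (clq_erase h2 s)
        ((h3.congr (cell_sg x hs)).mono (Finset.erase_subset s J)),
      sg_M, Y.e_f (e_sg (h3 x rfl s hs))]
  · rfl

theorem clq2 {s t : S} (h : adj s t) : Clq {s, t} := by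
  revert s t
  decide

theorem sum2 {s t : S} (h : adj s t) (F : S → Finset S → F2) :
    ∑ a ∈ ({s, t} : Finset S), F a (({s, t} : Finset S).erase a) = F s {t} + F t {s} := by
  have e1 : ({s, t} : Finset S).erase s = {t} := by
    revert s t
    decide
  have e2 : ({s, t} : Finset S).erase t = {s} := by
    clear e1
    revert s t
    decide
  rw [Finset.sum_pair (adj_ne h), e1, e2]

theorem clq3 {s t u : S} (h1 : adj s t) (h2 : adj t u) (h3 : adj s u) : Clq {s, t, u} := by
  intro a ha b hb n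
  simp only [Finset.mem_insert, Finset.mem_singleton] at ha hb
  rcases ha with rfl | rfl | rfl <;> rcases hb with rfl | rfl | rfl <;>
    first | exact absurd rfl n | assumption | exact adj_symm ‹_›

theorem sum3 {s t u : S} (h1 : adj s t) (h2 : adj t u) (h3 : adj s u) (F : S → Finset S → F2) :
    ∑ a ∈ ({s, t, u} : Finset S), F a (({s, t, u} : Finset S).erase a) =
      F s {t, u} + F t {s, u} + F u {s, t} := by
  have n1 := adj_ne h1
  have n2 := adj_ne h2
  have n3 := adj_ne h3
  have e1 : ({s, t, u} : Finset S).erase s = {t, u} := by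
    ext a; simp only [Finset.mem_erase, Finset.mem_insert, Finset.mem_singleton]; grind
  have e2 : ({s, t, u} : Finset S).erase t = {s, u} := by
    ext a; simp only [Finset.mem_erase, Finset.mem_insert, Finset.mem_singleton]; grind
  have e3 : ({s, t, u} : Finset S).erase u = {s, t} := by
    ext a; simp only [Finset.mem_erase, Finset.mem_insert, Finset.mem_singleton]; grind
  rw [Finset.sum_insert (by simp [n1, n3]), Finset.sum_pair n2, e1, e2, e3, add_assoc]

omit [Finite B] in
theorem full_sq {Y : PS B} (hY : Y.State) {s t : S} {x0 x1 x2 x3 : Y.Om} (h : adj s t)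
    (a : Y.e s x0 x1) (b : Y.e t x1 x2) (c : Y.e s x2 x3) (e : Y.e t x3 x0) :
    Y.Full x0 {s, t} := by
  intro y hy u hu fr
  have o := hY.orb2 h hy.symm
  rw [hY.sg_eq a, hY.sg_eq (Y.e_symm e), hY.sg_eq b, hY.sg_eq (Y.e_symm c)] at o
  simp only [Finset.mem_insert, Finset.mem_singleton] at hu
  rcases hu with rfl | rfl <;> rcases o with rfl | rfl | rfl | rfl | rfl <;>
    first
      | exact fr ⟨_, a⟩ | exact fr ⟨_, Y.e_symm a⟩ | exact fr ⟨_, b⟩ | exact fr ⟨_, Y.e_symm b⟩
      | exact fr ⟨_, c⟩ | exact fr ⟨_, Y.e_symm c⟩ | exact fr ⟨_, e⟩ | exact fr ⟨_, Y.e_symm e⟩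

/-- The degree one cochain of the manifold given by `η`. -/
def lift1 (η : S → B → F2) (hη : ∀ s b, η s (g s • b) = η s b) : (fullPS B).Cell → F2 :=
  Quot.lift (fun p => if p.2.card = 1 then ∑ s ∈ p.2, η s p.1 else 0) (by
    rintro ⟨x, J⟩ ⟨y, J'⟩ ⟨h1, s, hs, h2⟩
    obtain rfl : J = J' := h1
    show (if J.card = 1 then ∑ s ∈ J, η s x else 0) = if J.card = 1 then ∑ s ∈ J, η s y else 0
    split_ifs with k
    · obtain ⟨t, rfl⟩ := Finset.card_eq_one.1 k
      obtain rfl := Finset.mem_singleton.1 hs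
      have h3 : y = g s • (show B from x) := h2
      rw [Finset.sum_singleton, Finset.sum_singleton, h3, hη]
    · rfl)

theorem lift1_cell (η : S → B → F2) (hη : ∀ s b, η s (g s • b) = η s b) (b : B) (J : Finset S) :
    lift1 η hη ((fullPS B).cell b J) = if J.card = 1 then ∑ s ∈ J, η s b else 0 := rfl

theorem cobd (co : CoefS) (hB : Loc B) (u : (fullPS B).Chain) (hu : u ∈ (fullPS B).Ck 2)
    (η : S → B → F2) (hη : ∀ s b, η s (g s • b) = η s b)
    (h : ∀ s t (b : B), adj s t → u ((fullPS B).cell b {s, t}) =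
      η s b + η s (g t • b) + η t b + η t (g s • b)) :
    u ∈ ((fullPS B).Ck 1).map ((fullPS B).dl 2) := by
  classical
  refine ⟨Finsupp.equivFunOnFinite.symm (lift1 η hη), ?_, Finsupp.ext fun c => ?_⟩
  · refine (Finsupp.mem_supported' F2 _).2 fun c hc => ?_
    obtain ⟨x, J, rfl⟩ := cell_ind c
    show lift1 η hη ((fullPS B).cell x J) = 0
    rw [lift1_cell, if_neg]
    intro k
    refine hc (k ▸ mem_M (B := B) x ?_)
    obtain ⟨t, rfl⟩ := Finset.card_eq_one.1 k
    intro a ha b hb n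
    exact absurd ((Finset.mem_singleton.1 ha).trans (Finset.mem_singleton.1 hb).symm) n
  · rw [EulerA.dl_apply]
    split_ifs with k
    · obtain ⟨x, J, h1, h2, h3, rfl⟩ := k
      obtain ⟨s, t, n, rfl⟩ := Finset.card_eq_two.1 h1
      have a : adj s t := h2 s (by simp) t (by simp) n
      rw [co B hB _ (fullPS_state B) _ x _ h2 h3,
        sum2 a fun v J => Finsupp.equivFunOnFinite.symm (lift1 η hη) ((fullPS B).cell x J) +
          Finsupp.equivFunOnFinite.symm (lift1 η hη) ((fullPS B).cell ((fullPS B).sg v x) J),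
        h s t x a, sg_M, sg_M]
      simp only [Finsupp.coe_equivFunOnFinite_symm, lift1_cell, Finset.card_singleton, if_true,
        Finset.sum_singleton]
      ring
    · exact ((Finsupp.mem_supported' F2 _).1 hu c k).symm

end EndBA

open EndBA in
theorem endB (co : CoefS) (cb : CoreBS) : EndBS := by
  intro B _ _ o ht hB Y x0 hY h0 hc
  classical
  refine key (pb Y 2) _ _ _ _ ?_ ?_ ?_
  · rintro _ ⟨u, -, rfl⟩
    exact ⟨EulerA.dl_mem Y 2 u, EulerA.dl_dl Y 2 u⟩
  · exact fun u hu => ⟨pb_mem Y 2 u, pb_cocyc co hB hY u hu.2⟩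
  · rintro u ⟨hu, hz⟩ ⟨v, -, hv⟩
    obtain ⟨η, hη, h⟩ := cb B o ht Y x0 h0 hc (fun s t b => u ((fullPS B).cell b {s, t}))
      (fun s x _ => v (Y.cell x {s})) (fun s t b _ => by rw [Finset.pair_comm])
      (fun s t b _ => by
        show u ((fullPS B).cell (g s • b) {s, t}) = u ((fullPS B).cell b {s, t})
        rw [cell_e (Y := fullPS B) (s := s) (x := b) (y := g s • b) (by simp) rfl])
      (fun s t w b h1 h2 h3 => by
        have k := congrArg (fun v : (fullPS B).Chain => v ((fullPS B).cell b {s, t, w}))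
          (LinearMap.mem_ker.1 hz)
        have c3 : ({s, t, w} : Finset S).card = 3 :=
          Finset.card_eq_three.2 ⟨s, t, w, adj_ne h1, adj_ne h3, adj_ne h2, rfl⟩
        have m : (fullPS B).cell b {s, t, w} ∈ (fullPS B).FC 3 := c3 ▸ mem_M b (clq3 h1 h2 h3)
        simp only [EulerA.dl_apply, if_pos m] at k
        rw [co B hB _ (fullPS_state B) u _ _ (clq3 h1 h2 h3) (full_M _ _),
          sum3 h1 h2 h3 fun a J => u ((fullPS B).cell b J) +
            u ((fullPS B).cell ((fullPS B).sg a b) J), sg_M, sg_M, sg_M] at k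
        refine Eq.trans ?_ k
        ring)
      (fun s x y e => by rw [cell_e (Finset.mem_singleton_self s) e])
      (fun s t x0 x1 x2 x3 h a b c e => by
        have fu := full_sq hY h a b c e
        have c2 : ({s, t} : Finset S).card = 2 := Finset.card_pair (adj_ne h)
        have k := congrArg (fun v : Y.Chain => v (Y.cell x0 {s, t})) hv
        have m : Y.cell x0 {s, t} ∈ Y.FC 2 := ⟨x0, _, c2, clq2 h, fu, rfl⟩
        simp only [EulerA.dl_apply, if_pos m] at k
        rw [pb_cell Y u c2 (clq2 h) fu, co B hB Y hY v _ _ (clq2 h) fu,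
          sum2 h fun a J => v (Y.cell x0 J) + v (Y.cell (Y.sg a x0) J), hY.sg_eq a,
          hY.sg_eq (Y.e_symm e)] at k
        refine Eq.trans ?_ k
        show v (Y.cell x0 {s}) + v (Y.cell x1 {t}) + v (Y.cell x2 {s}) + v (Y.cell x3 {t}) = _
        rw [cell_e (Finset.mem_singleton_self s) c, cell_e (Finset.mem_singleton_self t) e]
        ring)
    exact cobd co hB u hu η hη h

end Pool.Agent.MP_df844f_gt
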