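import Pool.Agent.MP_df844f_gt.s5.Euler

/-! The dual cube complex of the closed manifold. -/

namespace Pool.Agent.MP_df844f_gt

open PS

namespace EndMA

variable (B : Type) [MulAction W B] [Finite B]

theorem full (x : (fullPS B).Om) (J : Finset S) : (fullPS B).Full x J :=
  fun y _ s _ h => h ⟨(g s • (show B from y) : B), rfl⟩

theorem count (ps : PsizeS) (hB : Loc B) (k : ℕ) :
    2 ^ k * (fullPS B).nC k =
      (Finset.univ.filter fun J : Finset S => J.card = k ∧ Clq J).card * Nat.card B := by
  classical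
  have : Fintype (fullPS B).Cell := Fintype.ofFinite _
  let A : Finset S → Finset (fullPS B).Cell := fun J =>
    Finset.univ.filter fun c => ∃ x, (fullPS B).Full x J ∧ c = (fullPS B).cell x J
  have h1 : (fullPS B).FC k =
      ((Finset.univ.filter fun J : Finset S => J.card = k ∧ Clq J).biUnion A : Finset _) := by
    ext c
    simp only [FC, A, Set.mem_ofPred_eq, Finset.coe_biUnion, Finset.coe_filter, Finset.mem_univ,
      true_and, Set.mem_iUnion]
    constructor
    · rintro ⟨x, J, a, b, d, e⟩
      exact ⟨J, ⟨a, b⟩, x, d, e⟩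
    · rintro ⟨J, ⟨a, b⟩, x, d, e⟩
      exact ⟨x, J, a, b, d, e⟩
  rw [nC, h1, Set.ncard_coe_finset, Finset.card_biUnion, Finset.mul_sum, ← smul_eq_mul,
    ← Finset.sum_const]
  · refine Finset.sum_congr rfl fun J hJ => ?_
    obtain ⟨a, b⟩ := (Finset.mem_filter.1 hJ).2
    have h := ps B hB (fullPS B) (fullPS_state B) J b
    rw [Set.eq_univ_of_forall (s := {x | (fullPS B).Full x J}) fun x => full B x J,
      Set.ncard_univ, a] at h
    rw [← Set.ncard_coe_finset, Finset.coe_filter]
    simp only [Finset.mem_univ, true_and]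
    exact h.symm
  · intro J _ J' _ hne
    refine Finset.disjoint_left.2 fun c h1 h2 => hne ?_
    obtain ⟨x, -, e⟩ := (Finset.mem_filter.1 h1).2
    obtain ⟨y, -, e'⟩ := (Finset.mem_filter.1 h2).2
    exact (cell_eq_iff.1 (e.symm.trans e')).1

/-- The sum of the coefficients. -/
noncomputable def tot : (fullPS B).Chain →ₗ[F2] F2 := Finsupp.linearCombination F2 fun _ => 1

theorem tot_single (c : (fullPS B).Cell) : tot B (Finsupp.single c 1) = 1 := by
  simp [tot]

theorem tot_dl (hF : FactS) (u : (fullPS B).Chain) (hu : u ∈ (fullPS B).Ck 2) :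
    tot B ((fullPS B).dl 3 u) = 0 := by
  classical
  rw [Ck, Finsupp.supported_eq_span_single] at hu
  refine (Submodule.span_le (p := LinearMap.ker (tot B ∘ₗ (fullPS B).dl 3))).2 ?_ hu
  rintro _ ⟨c, ⟨x, J, h1, h2, -, rfl⟩, rfl⟩
  have h3 : (fullPS B).bd (Finsupp.single ((fullPS B).cell x J) 1) ∈ (fullPS B).Ck 3 := by
    rw [bd_single]
    refine Submodule.sum_mem _ fun t ht => Finsupp.single_mem_supported F2 _ ?_
    have ht' := (Finset.mem_filter.1 ht).2
    have nt : t ∉ J := fun m => adj_irrefl t (ht' t m)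
    refine ⟨x, insert t J, by rw [Finset.card_insert_of_notMem nt, h1], ?_, full B _ _, rfl⟩
    intro a ha b hb hab
    rcases Finset.mem_insert.1 ha with rfl | ha' <;> rcases Finset.mem_insert.1 hb with rfl | hb'
    · exact absurd rfl hab
    · exact adj_symm (ht' b hb')
    · exact ht' a ha'
    · exact h2 a ha' b hb' hab
  have h4 : (fullPS B).dl 3 (Finsupp.single ((fullPS B).cell x J) 1) =
      (fullPS B).bd (Finsupp.single ((fullPS B).cell x J) 1) := by
    refine Finsupp.ext fun c => ?_
    rw [EulerA.dl_apply]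
    split_ifs with h
    · rfl
    · exact ((Finsupp.mem_supported' F2 _).1 h3 c h).symm
  obtain ⟨s, t, hst, rfl⟩ := Finset.card_eq_two.1 h1
  obtain ⟨a, b, hab, h5⟩ := hF.two s t (h2 s (by simp) t (by simp) hst)
  have h6 : (Finset.univ.filter fun r => ∀ q ∈ ({s, t} : Finset S), adj q r) = {a, b} := by
    ext r
    simpa using h5 r
  refine LinearMap.mem_ker.2 ?_
  rw [LinearMap.comp_apply, h4, bd_single, h6, Finset.sum_pair hab, map_add, tot_single,
    tot_single]
  rfl

end EndMA

open EndMA in
theorem endM (hF : FactS) (ps : PsizeS) : EndMS := by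
  intro B _ _ _ hB
  constructor
  · rw [← EulerA.finrank_Ck]
    refine Submodule.finrank_lt_finrank_of_lt (lt_of_le_of_ne ?_ fun e => ?_)
    · rintro _ ⟨u, -, rfl⟩
      exact EulerA.dl_mem _ 3 u
    · obtain ⟨J, hJ⟩ : (Finset.univ.filter fun J : Finset S => J.card = 3 ∧ Clq J).Nonempty :=
        Finset.card_pos.1 (by rw [hF.n3]; omega)
      obtain ⟨a, b⟩ := (Finset.mem_filter.1 hJ).2
      obtain ⟨x⟩ : Nonempty (fullPS B).Om := ‹Nonempty B›
      have h : Finsupp.single ((fullPS B).cell x J) (1 : F2) ∈ (fullPS B).Ck 3 :=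
        Finsupp.single_mem_supported F2 _ ⟨x, J, a, b, full B _ _, rfl⟩
      rw [← e] at h
      obtain ⟨u, hu, e'⟩ := h
      have h2 := tot_dl B hF u hu
      rw [e', tot_single] at h2
      exact one_ne_zero h2
  · have h1 := count B ps hB 1
    have h2 := count B ps hB 2
    have h3 := count B ps hB 3
    have e : (Finset.univ.filter fun J : Finset S => J.card = 1 ∧ Clq J).card = 12 := by
      have : (Finset.univ.filter fun J : Finset S => J.card = 1 ∧ Clq J) =
          Finset.univ.image fun s : S => ({s} : Finset S) := by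
        ext J
        simp only [Finset.mem_filter, Finset.mem_univ, true_and, Finset.mem_image,
          Finset.card_eq_one]
        constructor
        · rintro ⟨⟨s, rfl⟩, -⟩
          exact ⟨s, rfl⟩
        · rintro ⟨s, rfl⟩
          refine ⟨⟨s, rfl⟩, fun a ha b hb hab => absurd ?_ hab⟩
          rw [Finset.mem_singleton.1 ha, Finset.mem_singleton.1 hb]
      rw [this, Finset.card_image_of_injective _ Finset.singleton_injective]
      simp
    rw [e] at h1
    rw [hF.n2] at h2
    rw [hF.n3] at h3
    omega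

end Pool.Agent.MP_df844f_gt
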