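import Pool.Agent.MP_df844f_gt.Spec

/-! Rank and nullity for the dual cube complex. -/

namespace Pool.Agent.MP_df844f_gt

open PS

namespace EulerA

variable {B : Type} [MulAction W B] (Y : PS B)

theorem finrank_Ck (k : ℕ) : Module.finrank F2 (Y.Ck k) = Y.nC k := by
  classical
  have : Fintype (Y.FC k) := Fintype.ofFinite _
  unfold Ck nC
  rw [(Finsupp.supportedEquivFinsupp (R := F2) (M := F2) (Y.FC k)).finrank_eq,
    Module.finrank_finsupp_self, ← Nat.card_eq_fintype_card, Nat.card_coe_set_eq]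

theorem rank_null (k : ℕ) : Y.nC k = Y.zz k + Y.bb k := by
  have h := LinearMap.finrank_range_add_finrank_ker (K := F2) (V := Y.Ck k) (V₂ := Y.Chain)
    ((Y.dl (k + 1)).domRestrict (Y.Ck k))
  rw [LinearMap.range_domRestrict, LinearMap.ker_domRestrict, finrank_Ck,
    ← Submodule.finrank_map_subtype_eq (Y.Ck k), Submodule.map_comap_subtype] at h
  unfold zz bb
  omega

open Classical in
theorem dl_apply (k : ℕ) (u : Y.Chain) (c : Y.Cell) :
    Y.dl k u c = if c ∈ Y.FC k then Y.bd u c else 0 := by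
  show (Finsupp.restrictDom F2 F2 (Y.FC k) (Y.bd u) : Y.Chain) c = _
  rw [Finsupp.restrictDom_apply, Finsupp.filter_apply]

open Classical in
theorem dl_mem (k : ℕ) (u : Y.Chain) : Y.dl k u ∈ Y.Ck k :=
  (Finsupp.restrictDom F2 F2 (Y.FC k) (Y.bd u)).2

theorem dl_out (k : ℕ) (v : Y.Chain) (hv : v ∈ Finsupp.supported F2 F2 (Y.FC k)ᶜ) :
    Y.dl (k + 1) v = 0 := by
  classical
  rw [Finsupp.supported_eq_span_single] at hv
  refine (Submodule.span_le (p := LinearMap.ker (Y.dl (k + 1)))).2 ?_ hv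
  rintro _ ⟨c, hc, rfl⟩
  obtain ⟨x, J, rfl⟩ := cell_ind c
  refine LinearMap.mem_ker.2 (Finsupp.ext fun c' => ?_)
  rw [dl_apply]
  split_ifs with h
  · obtain ⟨y, J', h1, h2, h3, rfl⟩ := h
    rw [bd_single]
    simp only [Finsupp.finsetSum_apply, Finsupp.coe_zero, Pi.zero_apply]
    refine Finset.sum_eq_zero fun t ht => Finsupp.single_eq_of_ne fun e => hc ?_
    have e1 : J' = insert t J := (cell_eq_iff.1 e).1
    subst e1
    have nt : t ∉ J := fun m => adj_irrefl t ((Finset.mem_filter.1 ht).2 t m)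
    rw [Finset.card_insert_of_notMem nt] at h1
    exact ⟨x, J, by omega, fun a ha b hb => h2 a (Finset.mem_insert_of_mem ha) b
      (Finset.mem_insert_of_mem hb), (h3.congr e.symm).mono (Finset.subset_insert _ _), rfl⟩
  · rfl

theorem dl_dl (k : ℕ) (u : Y.Chain) : Y.dl (k + 1) (Y.dl k u) = 0 := by
  classical
  have h1 : Y.dl (k + 1) (Y.bd u - Y.dl k u) = 0 := by
    refine dl_out Y k _ ((Finsupp.mem_supported' F2 _).2 fun c hc => ?_)
    rw [Finsupp.sub_apply, dl_apply, if_pos (by simpa using hc), sub_self]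
  have h2 : Y.dl (k + 1) (Y.bd u) = 0 := Finsupp.ext fun c => by
    rw [dl_apply, bd_bd]
    simp
  rwa [map_sub, h2, zero_sub, neg_eq_zero] at h1

end EulerA

theorem euler : EulerS := fun _ _ Y => by
  refine ⟨EulerA.rank_null Y 1, EulerA.rank_null Y 2, Submodule.finrank_mono ?_⟩
  rintro _ ⟨u, -, rfl⟩
  exact ⟨EulerA.dl_mem Y 2 u, EulerA.dl_dl Y 2 u⟩

end Pool.Agent.MP_df844f_gt
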