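import Pool.Agent.MP_df844f_gt.Spec

/-! The boundary of a union of thick components is an abstract surface. -/

namespace Pool.Agent.MP_df844f_gt

open PS

namespace InstA

variable {B : Type} [MulAction W B] (Y : PS B) (U : Set Y.Om)

/-- Free sides in `U`. -/
abbrev Fa : Type := {p : Y.Om × S // p.1 ∈ U ∧ Y.Free p.1 p.2}

/-- Rank 2 cells with a free side in `U`. -/
abbrev Ed : Type := {c : Y.Cell // ∃ σ : Fa Y U, ∃ t, adj σ.1.2 t ∧ c = Y.cell σ.1.1 {σ.1.2, t}}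

/-- Rank 3 cells with a free side in `U`. -/
abbrev Ve : Type := {c : Y.Cell // ∃ x ∈ U, ∃ J : Finset S, J.card = 3 ∧ Clq J ∧
  (∃ s ∈ J, Y.Free x s) ∧ c = Y.cell x J}

/-- The two sides and the two end points of an edge. -/
structure ED (c : Y.Cell) : Type where
  l : Fa Y U
  r : Fa Y U
  tl : S
  tr : S
  a : S
  b : S
  hl : adj l.1.2 tl
  hr : adj r.1.2 tr
  cl : c = Y.cell l.1.1 {l.1.2, tl}
  cr : c = Y.cell r.1.1 {r.1.2, tr}
  ne : l ≠ r
  uniq : ∀ (σ : Fa Y U) t, adj σ.1.2 t → c = Y.cell σ.1.1 {σ.1.2, t} →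
    (σ = l ∧ t = tl) ∨ (σ = r ∧ t = tr)
  hab : a ≠ b
  two : ∀ z, (adj l.1.2 z ∧ adj tl z) ↔ (z = a ∨ z = b)

variable {Y U}

theorem ed_nonempty (hF : FactS) (ed : EdgeS) (hB : Loc B) (hY : Y.State) (hU : Y.Shut U)
    (ε : Ed Y U) : Nonempty (ED Y U ε.1) := by
  obtain ⟨c, σ, t, ht, rfl⟩ := ε
  obtain ⟨y, u, v, h1, h2, h3, h4, h5⟩ := ed B hB Y hY σ.1.1 σ.1.2 t ht σ.2.2
  obtain ⟨a, b, hab, h6⟩ := hF.two _ _ ht
  have hy : y ∈ U := by
    have e := (cell_eq_iff.1 h4).1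
    rw [e] at h4
    obtain ⟨n, hn⟩ := cell_near h4.symm
    exact hn.shut hU σ.2.1
  refine ⟨⟨σ, ⟨(y, u), hy, h1⟩, t, v, a, b, ht, h2, rfl, h4.symm, ?_, ?_, hab, h6⟩⟩
  · intro k
    exact h3 (congrArg Subtype.val k).symm
  · intro τ z hz k
    rcases h5 τ.1.1 τ.1.2 z τ.2.2 hz k.symm with ⟨k1, k2, k3⟩ | ⟨k1, k2, k3⟩
    · exact Or.inl ⟨Subtype.ext (Prod.ext k1 k2), k3⟩
    · exact Or.inr ⟨Subtype.ext (Prod.ext k1 k2), k3⟩

/-- The edge of a side in a given direction. -/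
def mkE (σ : Fa Y U) (t : S) (h : adj σ.1.2 t) : Ed Y U := ⟨Y.cell σ.1.1 {σ.1.2, t}, σ, t, h, rfl⟩

/-- The corner of a side between two directions. -/
def mkV (σ : Fa Y U) (t a : S) (h1 : adj σ.1.2 t) (h2 : adj σ.1.2 a) (h3 : adj t a) : Ve Y U :=
  ⟨Y.cell σ.1.1 (insert a {σ.1.2, t}), σ.1.1, σ.2.1, insert a {σ.1.2, t},
    Finset.card_eq_three.2 ⟨_, _, _, (adj_ne h2).symm, (adj_ne h3).symm, adj_ne h1, rfl⟩,
    by
      intro x hx y hy hne
      simp only [Finset.mem_insert, Finset.mem_singleton] at hx hy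
      rcases hx with rfl | rfl | rfl <;> rcases hy with rfl | rfl | rfl <;>
        first | exact absurd rfl hne | assumption | exact adj_symm ‹_›,
    ⟨σ.1.2, by simp, σ.2.2⟩, rfl⟩

variable (dat : ∀ ε : Ed Y U, ED Y U ε.1)

/-- The surface. -/
def surf : Surf where
  F := Fa Y U
  Ed := Ed Y U
  V := Ve Y U
  l ε := (dat ε).l
  r ε := (dat ε).r
  p ε := mkV (dat ε).l (dat ε).tl (dat ε).a (dat ε).hl (((dat ε).two _).2 (Or.inl rfl)).1
    (((dat ε).two _).2 (Or.inl rfl)).2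
  q ε := mkV (dat ε).l (dat ε).tl (dat ε).b (dat ε).hl (((dat ε).two _).2 (Or.inr rfl)).1
    (((dat ε).two _).2 (Or.inr rfl)).2

theorem side_iff (ε : Ed Y U) (σ : Fa Y U) :
    ((surf dat).l ε = σ ∨ (surf dat).r ε = σ) ↔ ∃ t, ∃ h : adj σ.1.2 t, ε = mkE σ t h := by
  constructor
  · rintro (rfl | rfl)
    · exact ⟨_, (dat ε).hl, Subtype.ext (dat ε).cl⟩
    · exact ⟨_, (dat ε).hr, Subtype.ext (dat ε).cr⟩
  · rintro ⟨t, h, k⟩
    rcases (dat ε).uniq σ t h (congrArg Subtype.val k) with k | k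
    · exact Or.inl k.1.symm
    · exact Or.inr k.1.symm

theorem vert_iff (σ : Fa Y U) (t : S) (h : adj σ.1.2 t) (w : Ve Y U) :
    ((surf dat).p (mkE σ t h) = w ∨ (surf dat).q (mkE σ t h) = w) ↔
      ∃ z, ∃ (h2 : adj σ.1.2 z) (h3 : adj t z), w = mkV σ t z h h2 h3 := by
  have hc : Y.cell σ.1.1 {σ.1.2, t} = _ := (dat (mkE σ t h)).cl
  have e := (cell_eq_iff.1 hc).1
  have hz : ∀ z, (adj σ.1.2 z ∧ adj t z) ↔
      (z = (dat (mkE σ t h)).a ∨ z = (dat (mkE σ t h)).b) := by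
    intro z
    rw [← (dat (mkE σ t h)).two z]
    have k1 : (adj σ.1.2 z ∧ adj t z) ↔ ∀ x ∈ ({σ.1.2, t} : Finset S), adj x z := by simp
    rw [k1, e]; simp
  have hm : ∀ z, Y.cell (dat (mkE σ t h)).l.1.1
      (insert z {(dat (mkE σ t h)).l.1.2, (dat (mkE σ t h)).tl}) =
      Y.cell σ.1.1 (insert z {σ.1.2, t}) := by
    intro z
    rw [← e] at hc ⊢
    exact (cell_mono hc (Finset.subset_insert _ _)).symm
  constructor
  · rintro (rfl | rfl)
    · exact ⟨_, ((hz _).2 (Or.inl rfl)).1, ((hz _).2 (Or.inl rfl)).2, Subtype.ext (hm _)⟩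
    · exact ⟨_, ((hz _).2 (Or.inr rfl)).1, ((hz _).2 (Or.inr rfl)).2, Subtype.ext (hm _)⟩
  · rintro ⟨z, h2, h3, rfl⟩
    rcases (hz z).1 ⟨h2, h3⟩ with k | k
    · exact Or.inl (Subtype.ext ((hm _).trans (by rw [← k]; rfl)))
    · exact Or.inr (Subtype.ext ((hm _).trans (by rw [← k]; rfl)))

theorem mkV_comm (σ : Fa Y U) (t a : S) (h1 : adj σ.1.2 t) (h2 : adj σ.1.2 a) (h3 : adj t a) :
    mkV σ t a h1 h2 h3 = mkV σ a t h2 h1 (adj_symm h3) := by
  refine Subtype.ext ?_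
  show Y.cell σ.1.1 (insert a {σ.1.2, t}) = Y.cell σ.1.1 (insert t {σ.1.2, a})
  congr 1
  ext x; simp only [Finset.mem_insert, Finset.mem_singleton]; tauto

theorem step (σ : Fa Y U) (t a b : S) (h1 : adj σ.1.2 t) (h2 : adj σ.1.2 a) (h3 : adj t a)
    (h4 : adj σ.1.2 b) (h5 : adj t b) :
    Rn (surf dat).PAdj 1 (mkV σ t a h1 h2 h3) (mkV σ t b h1 h4 h5) := by
  rcases (vert_iff dat σ t h1 _).2 ⟨a, h2, h3, rfl⟩ with k | k <;>
    rcases (vert_iff dat σ t h1 _).2 ⟨b, h4, h5, rfl⟩ with k' | k'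
  · rw [← k, ← k']; exact Rn.refl _ _
  · exact Rn.single ⟨_, Or.inl ⟨k, k'⟩⟩
  · exact Rn.single ⟨_, Or.inr ⟨k', k⟩⟩
  · rw [← k, ← k']; exact Rn.refl _ _

theorem p_ne_q (ε : Ed Y U) : ((surf dat).p ε).1 ≠ ((surf dat).q ε).1 := by
  intro h
  have e : insert (dat ε).a ({(dat ε).l.1.2, (dat ε).tl} : Finset S) =
      insert (dat ε).b {(dat ε).l.1.2, (dat ε).tl} := (cell_eq_iff.1 h).1
  have k : (dat ε).a ∈ insert (dat ε).b ({(dat ε).l.1.2, (dat ε).tl} : Finset S) := by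
    rw [← e]; exact Finset.mem_insert_self _ _
  obtain ⟨k1, k2⟩ := ((dat ε).two _).2 (Or.inl rfl)
  simp only [Finset.mem_insert, Finset.mem_singleton] at k
  rcases k with k | k | k
  · exact (dat ε).hab k
  · exact adj_ne k1 k.symm
  · exact adj_ne k2 k.symm

theorem bd1_ed (ε : Ed Y U) : Y.bd1 ε.1 =
    Finsupp.single ((surf dat).p ε).1 1 + Finsupp.single ((surf dat).q ε).1 1 := by
  have e : Finset.univ.filter (fun z => ∀ s ∈ ({(dat ε).l.1.2, (dat ε).tl} : Finset S), adj s z) =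
      {(dat ε).a, (dat ε).b} := by
    ext z
    have := (dat ε).two z
    simp only [Finset.mem_filter, Finset.mem_univ, true_and, Finset.mem_insert,
      Finset.mem_singleton, forall_eq_or_imp, forall_eq]
    exact this
  rw [(dat ε).cl]
  show (∑ z ∈ Finset.univ.filter
      (fun z => ∀ s ∈ ({(dat ε).l.1.2, (dat ε).tl} : Finset S), adj s z),
      Finsupp.single (Y.cell (dat ε).l.1.1 (insert z {(dat ε).l.1.2, (dat ε).tl})) (1 : F2)) = _
  rw [e, Finset.sum_pair (dat ε).hab]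
  rfl

/-- The inclusion of sides. -/
def emb (Y : PS B) (U : Set Y.Om) : Fa Y U ↪ Y.Om × S := Function.Embedding.subtype _

theorem supp_iff (bd : BdS) (hB : Loc B) (hY : Y.State) (D : Finset (Fa Y U)) (c : Y.Cell) :
    c ∈ (Y.bd (Y.ch1 (D.map (emb Y U)))).support ↔
      ∃ ε : Ed Y U, (surf dat).cut (D : Set (Fa Y U)) ε ∧ ε.1 = c := by
  have hfree : ∀ p ∈ D.map (emb Y U), Y.Free p.1 p.2 := by
    intro p hp
    obtain ⟨σ, _, rfl⟩ := Finset.mem_map.1 hp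
    exact σ.2.2
  rw [bd B hB Y hY _ hfree c]
  constructor
  · rintro ⟨p, hp, t, ht, rfl, hu⟩
    obtain ⟨σ, hσ, rfl⟩ := Finset.mem_map.1 hp
    refine ⟨mkE σ t ht, fun k => ?_, rfl⟩
    have both : (dat (mkE σ t ht)).l ∈ D ∧ (dat (mkE σ t ht)).r ∈ D := by
      rcases (side_iff dat _ σ).2 ⟨t, ht, rfl⟩ with q | q
      · have q1 : (dat (mkE σ t ht)).l ∈ D := by
          have q' : (dat (mkE σ t ht)).l = σ := q
          rw [q']; exact hσ
        exact ⟨q1, k.1 q1⟩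
      · have q1 : (dat (mkE σ t ht)).r ∈ D := by
          have q' : (dat (mkE σ t ht)).r = σ := q
          rw [q']; exact hσ
        exact ⟨k.2 q1, q1⟩
    have e1 := hu _ (Finset.mem_map_of_mem _ both.1) _ (dat (mkE σ t ht)).hl
      (dat (mkE σ t ht)).cl.symm
    have e2 := hu _ (Finset.mem_map_of_mem _ both.2) _ (dat (mkE σ t ht)).hr
      (dat (mkE σ t ht)).cr.symm
    exact (dat (mkE σ t ht)).ne ((emb Y U).injective (e1.trans e2.symm))
  · rintro ⟨ε, hc, rfl⟩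
    have hc' : ¬ ((dat ε).l ∈ D ↔ (dat ε).r ∈ D) := hc
    by_cases k : (dat ε).l ∈ D
    · refine ⟨_, Finset.mem_map_of_mem _ k, _, (dat ε).hl, (dat ε).cl, fun q hq t' h1 h2 => ?_⟩
      obtain ⟨σ, hσ, rfl⟩ := Finset.mem_map.1 hq
      rcases (dat ε).uniq σ t' h1 h2.symm with e | e
      · rw [e.1]
      · exact absurd (iff_of_true k (e.1 ▸ hσ)) hc'
    · have k' : (dat ε).r ∈ D := by tauto
      refine ⟨_, Finset.mem_map_of_mem _ k', _, (dat ε).hr, (dat ε).cr, fun q hq t' h1 h2 => ?_⟩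
      obtain ⟨σ, hσ, rfl⟩ := Finset.mem_map.1 hq
      rcases (dat ε).uniq σ t' h1 h2.symm with e | e
      · exact absurd (e.1 ▸ hσ) k
      · rw [e.1]

theorem par (bd : BdS) (hB : Loc B) (hY : Y.State) (P : Set (Fa Y U)) (ε : Ed Y U) (v : Ve Y U)
    (hc : (surf dat).cut P ε) (hv : (surf dat).p ε = v ∨ (surf dat).q ε = v) :
    ∃ ε', ε' ≠ ε ∧ (surf dat).cut P ε' ∧ ((surf dat).p ε' = v ∨ (surf dat).q ε' = v) := by
  classical
  by_contra hn
  obtain ⟨D, rfl⟩ : ∃ D : Finset (Fa Y U), (D : Set (Fa Y U)) = P :=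
    ⟨(Set.toFinite P).toFinset, Set.Finite.coe_toFinset _⟩
  have h0 := Y.bd_bd (Y.ch1 (D.map (emb Y U)))
  have hs := supp_iff dat bd hB hY D
  generalize Y.bd (Y.ch1 (D.map (emb Y U))) = β at h0 hs
  have h1 : (Y.bd β) v.1 = ∑ c ∈ β.support, β c * Y.bd1 c v.1 := by
    unfold PS.bd
    rw [Finsupp.linearCombination_apply, Finsupp.sum, Finsupp.finsetSum_apply]
    rfl
  have hm : ε.1 ∈ β.support := (hs _).2 ⟨ε, hc, rfl⟩
  rw [h0, Finset.sum_eq_single_of_mem ε.1 hm] at h1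
  · have k1 : β ε.1 ≠ 0 := Finsupp.mem_support_iff.1 hm
    have k2 : Y.bd1 ε.1 v.1 = 1 := by
      rw [bd1_ed dat, Finsupp.add_apply]
      rcases hv with rfl | rfl
      · rw [Finsupp.single_eq_same, Finsupp.single_eq_of_ne (p_ne_q dat ε), add_zero]
      · rw [Finsupp.single_eq_same, Finsupp.single_eq_of_ne (p_ne_q dat ε).symm, zero_add]
    rw [k2, mul_one] at h1
    exact k1 h1.symm
  · intro c hc' hne
    obtain ⟨ε', k, rfl⟩ := (hs c).1 hc'
    have k1 : ¬ ((surf dat).p ε' = v ∨ (surf dat).q ε' = v) := fun q =>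
      hn ⟨ε', fun e => hne (congrArg Subtype.val e), k, q⟩
    rw [bd1_ed dat, Finsupp.add_apply,
      Finsupp.single_eq_of_ne fun e => k1 (Or.inl (Subtype.ext e.symm)),
      Finsupp.single_eq_of_ne fun e => k1 (Or.inr (Subtype.ext e.symm)), add_zero, mul_zero]

theorem card_nb (hF : FactS) (s : S) : Nat.card {t // adj s t} = 5 := by
  rw [Nat.card_eq_fintype_card, Fintype.card_subtype, hF.deg s]

theorem ok (hF : FactS) (bd : BdS) (hB : Loc B) (hY : Y.State) : (surf dat).OK where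
  deg σ := by
    have h : {ε | (surf dat).l ε = σ ∨ (surf dat).r ε = σ} ⊆
        (fun t : {t // adj σ.1.2 t} => mkE σ t.1 t.2) '' Set.univ := by
      intro ε hε
      obtain ⟨t, ht, e⟩ := (side_iff dat ε σ).1 hε
      exact ⟨⟨t, ht⟩, trivial, e.symm⟩
    refine (Set.ncard_le_ncard h (Set.toFinite _)).trans
      ((Set.ncard_image_le (Set.toFinite _)).trans ?_)
    rw [Set.ncard_univ, card_nb hF]
  par := par dat bd hB hY
  cor σ ε ε' h h' := by
    obtain ⟨t, ht, rfl⟩ := (side_iff dat ε σ).1 h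
    obtain ⟨u, hu, rfl⟩ := (side_iff dat ε' σ).1 h'
    obtain ⟨z, z1, z2, e⟩ := (vert_iff dat σ t ht _).1 (Or.inl rfl)
    obtain ⟨y, y1, y2, e'⟩ := (vert_iff dat σ u hu _).1 (Or.inl rfl)
    rw [e, e']
    obtain ⟨v, hv, rfl | k, rfl | k'⟩ := hF.pent _ t u ht hu
    · exact (step dat σ _ z y ht z1 z2 y1 y2).mono (by omega)
    · have a1 := step dat σ t z u ht z1 z2 hu k'
      rw [mkV_comm σ t u] at a1
      exact (a1.trans (step dat σ u t y hu ht (adj_symm k') y1 y2)).mono (by omega)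
    · have a1 := step dat σ t z v ht z1 z2 hu k
      rw [mkV_comm σ t v] at a1
      exact (a1.trans (step dat σ v t y hu ht (adj_symm k) y1 y2)).mono (by omega)
    · have a1 := step dat σ t z v ht z1 z2 hv k
      rw [mkV_comm σ t v] at a1
      have a2 := step dat σ v t u hv ht (adj_symm k) hu k'
      rw [mkV_comm σ v u] at a2
      exact (a1.trans a2).trans (step dat σ u v y hu hv (adj_symm k') y1 y2)
  covV v := by
    obtain ⟨c, x, hx, J, h3, hJ, ⟨s, hs, hf⟩, rfl⟩ := v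
    obtain ⟨t, a, hta, e⟩ := Finset.card_eq_two.1
      (show (J.erase s).card = 2 by rw [Finset.card_erase_of_mem hs, h3])
    have ht : t ∈ J.erase s := by rw [e]; simp
    have ha : a ∈ J.erase s := by rw [e]; simp
    obtain ⟨t1, t2⟩ := Finset.mem_erase.1 ht
    obtain ⟨a1, a2⟩ := Finset.mem_erase.1 ha
    have eJ : J = insert a {s, t} := by
      rw [← Finset.insert_erase hs, e]
      ext x; simp only [Finset.mem_insert, Finset.mem_singleton]; tauto
    refine ⟨mkE ⟨(x, s), hx, hf⟩ t (hJ s hs t t2 t1.symm), (vert_iff dat _ _ _ _).2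
      ⟨a, hJ s hs a a2 a1.symm, hJ t t2 a a2 hta, Subtype.ext ?_⟩⟩
    show Y.cell x J = Y.cell x (insert a {s, t})
    rw [← eJ]
  covF σ := by
    obtain ⟨t, ht⟩ : (Finset.univ.filter fun t => adj σ.1.2 t).Nonempty := by
      rw [← Finset.card_pos, hF.deg]; omega
    exact ⟨mkE σ t (Finset.mem_filter.1 ht).2, (side_iff dat _ σ).2 ⟨t, _, rfl⟩⟩

include dat in
theorem card_ed (hF : FactS) : 2 * Nat.card (Ed Y U) = 5 * Nat.card (Fa Y U) := by
  classical
  let _ : Fintype (Fa Y U) := Fintype.ofFinite _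
  let f : Ed Y U × Bool → (Σ σ : Fa Y U, {t // adj σ.1.2 t}) := fun p =>
    match p.2 with
    | false => ⟨(dat p.1).l, (dat p.1).tl, (dat p.1).hl⟩
    | true => ⟨(dat p.1).r, (dat p.1).tr, (dat p.1).hr⟩
  have back : ∀ p, mkE (f p).1 (f p).2.1 (f p).2.2 = p.1 := by
    rintro ⟨ε, _ | _⟩
    · exact Subtype.ext (dat ε).cl.symm
    · exact Subtype.ext (dat ε).cr.symm
  have hf : Function.Bijective f := by
    constructor
    · rintro ⟨ε, i⟩ ⟨ε', j⟩ h
      have e : ε = ε' := by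
        have := back (ε, i)
        rw [h, back (ε', j)] at this
        exact this.symm
      subst e
      have h1 := congrArg Sigma.fst h
      cases i <;> cases j
      · rfl
      · exact absurd h1 (dat ε).ne
      · exact absurd h1.symm (dat ε).ne
      · rfl
    · rintro ⟨σ, t, ht⟩
      have aux : ∀ (τ : Fa Y U) (z : S) (hz : adj τ.1.2 z), σ = τ ∧ t = z →
          (⟨τ, z, hz⟩ : Σ σ : Fa Y U, {t // adj σ.1.2 t}) = ⟨σ, t, ht⟩ := by
        rintro _ _ _ ⟨rfl, rfl⟩; rfl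
      rcases (dat (mkE σ t ht)).uniq σ t ht rfl with k | k
      · exact ⟨(mkE σ t ht, false), aux _ _ _ k⟩
      · exact ⟨(mkE σ t ht, true), aux _ _ _ k⟩
  have h := Nat.card_eq_of_bijective f hf
  rw [Nat.card_prod, Nat.card_sigma] at h
  simp only [card_nb hF, Finset.sum_const, Finset.card_univ, smul_eq_mul] at h
  rw [← Nat.card_eq_fintype_card] at h
  have hb : Nat.card Bool = 2 := by simp
  rw [hb] at h
  omega

theorem badj_of (a b : Fa Y U) (h : (surf dat).DAdj a b) : Y.BAdj a.1 b.1 := by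
  obtain ⟨ε, _, h⟩ := h
  obtain ⟨t, ht, e⟩ := (side_iff dat ε a).1 (by tauto)
  obtain ⟨u, hu, e'⟩ := (side_iff dat ε b).1 (by tauto)
  exact ⟨a.2.2, b.2.2, t, u, ht, hu, congrArg Subtype.val (e.symm.trans e')⟩

theorem of_badj (a b : Fa Y U) (h : Y.BAdj a.1 b.1) : a = b ∨ (surf dat).DAdj a b := by
  obtain ⟨_, _, t, u, ht, hu, e⟩ := h
  rcases (side_iff dat (mkE a t ht) a).2 ⟨t, ht, rfl⟩ with k | k <;>
    rcases (side_iff dat (mkE a t ht) b).2 ⟨u, hu, Subtype.ext e⟩ with k' | k'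
  · exact Or.inl (k.symm.trans k')
  · exact Or.inr ⟨_, trivial, Or.inl ⟨k, k'⟩⟩
  · exact Or.inr ⟨_, trivial, Or.inr ⟨k', k⟩⟩
  · exact Or.inl (k.symm.trans k')

theorem ncomp_eq : (surf dat).ncomp Set.univ = Y.nB U := by
  refine Nat.card_congr ⟨Quot.lift (Quot.mk _) fun a b h => Quot.sound (badj_of dat a b h),
    Quot.lift (Quot.mk _) fun a b h => ?_, ?_, ?_⟩
  · rcases of_badj dat a b h with rfl | k
    · rfl
    · exact Quot.sound k
  · rintro ⟨a⟩; rfl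
  · rintro ⟨a⟩; rfl

end InstA

theorem inst (hF : FactS) (ed : EdgeS) (bd : BdS) : InstS := by
  intro B _ hB Y U hY hU
  have dat : ∀ ε : InstA.Ed Y U, InstA.ED Y U ε.1 := fun ε =>
    Classical.choice (InstA.ed_nonempty hF ed hB hY hU ε)
  have hF' : Nat.card (InstA.Fa Y U) = Y.nF U := Nat.card_coe_set_eq _
  refine ⟨InstA.surf dat, InstA.emb Y U, InstA.ok dat hF bd hB hY, fun a => a.2, hF',
    Nat.card_coe_set_eq _, ?_, InstA.ncomp_eq dat, InstA.badj_of dat, fun D => ?_⟩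
  · rw [← hF']; exact InstA.card_ed dat hF
  · rw [← Set.ncard_coe_finset]
    refine (Set.ncard_image_of_injective (α := InstA.Ed Y U) _ Subtype.val_injective).symm.trans ?_
    congr 1
    ext c
    exact (InstA.supp_iff dat bd hB hY D c).symm

end Pool.Agent.MP_df844f_gt
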