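import Pool.Agent.MP_df844f_gt.Spec

/-! PROJECT RK844, row LEMS: small pieces with few cross edges, and the Euler characteristic bound. -/

namespace Pool.Agent.MP_df844f_gt

namespace LemSA

variable {X : Surf}

theorem far (h : X.OK) {n : ℕ} {t σ : X.F} (k : Rn X.DAdj n t σ) : ∀ ε ε',
    (X.l ε = t ∨ X.r ε = t) → (X.l ε' = σ ∨ X.r ε' = σ) →
      Rn X.PAdj (3 * n + 3) (X.p ε) (X.p ε') := by
  induction k with
  | refl n x => exact fun ε ε' a b => (h.cor x ε ε' a b).mono (by omega)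
  | @step n x y z he _ ih =>
    intro ε ε' a b
    obtain ⟨ε1, -, h1⟩ := he
    have e1 := h.cor x ε ε1 a (by tauto)
    have e2 := ih ε1 ε' (by tauto) b
    exact (e1.trans e2).mono (by omega)

/-- Every cross edge is cut by exactly two pieces. -/
theorem double [Fintype X.F] (top : X.F → X.F) (A : Set X.Ed) :
    ∑ t, {ε | X.cut {σ | top σ = t} ε ∧ ε ∈ A}.ncard =
      2 * {ε | ε ∈ A ∧ top (X.l ε) ≠ top (X.r ε)}.ncard := by
  classical
  have := Fintype.ofFinite X.Ed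
  have e : ∀ P : X.Ed → Prop, {ε | P ε}.ncard = ∑ ε, if P ε then 1 else 0 := fun P => by
    rw [← Finset.card_filter, ← Set.ncard_coe_finset]
    congr 1
    ext ε
    simp
  simp only [e]
  rw [Finset.sum_comm, Finset.mul_sum]
  refine Finset.sum_congr rfl fun ε _ => ?_
  by_cases h : ε ∈ A ∧ top (X.l ε) ≠ top (X.r ε)
  · rw [if_pos h]
    have e2 : ∑ t, ((if top (X.l ε) = t then 1 else 0) + if top (X.r ε) = t then 1 else 0) =
        2 * 1 := by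
      rw [Finset.sum_add_distrib]
      simp
    rw [← e2]
    refine Finset.sum_congr rfl fun t _ => ?_
    by_cases k1 : top (X.l ε) = t <;> by_cases k2 : top (X.r ε) = t
    · exact absurd (k1.trans k2.symm) h.2
    · rw [if_pos ⟨fun k => k2 (k.1 k1), h.1⟩, if_pos k1, if_neg k2]
    · rw [if_pos ⟨fun k => k1 (k.2 k2), h.1⟩, if_neg k1, if_pos k2]
    · rw [if_neg fun k => k.1 ⟨fun a => absurd a k1, fun a => absurd a k2⟩, if_neg k1, if_neg k2]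
  · rw [if_neg h, mul_zero]
    refine Finset.sum_eq_zero fun t _ => if_neg fun k => h ⟨k.2, fun a => k.1 ?_⟩
    simp only [Set.mem_ofPred_eq, a]

theorem ncomp_le {Fo : Set X.Ed} {c : ℕ}
    (h : ∀ P : Set X.F, {ε | X.cut P ε ∧ ε ∈ Fo}.ncard ≤ c * {ε | X.cut P ε ∧ ε ∉ Fo}.ncard) :
    X.ncomp Foᶜ ≤ X.ncomp Set.univ := by
  have h0 : ∀ ε, ε ∉ Fo → Quot.mk (X.DA Foᶜ) (X.l ε) = Quot.mk _ (X.r ε) := fun ε k =>
    Quot.sound ⟨ε, k, Or.inl ⟨rfl, rfl⟩⟩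
  have h1 : ∀ ε, Quot.mk (X.DA Foᶜ) (X.l ε) = Quot.mk _ (X.r ε) := by
    intro ε
    by_cases k : ε ∈ Fo
    swap
    · exact h0 ε k
    have h2 := h {σ | Quot.mk (X.DA Foᶜ) σ = Quot.mk _ (X.l ε)}
    have h3 : {ε' | X.cut {σ | Quot.mk (X.DA Foᶜ) σ = Quot.mk _ (X.l ε)} ε' ∧ ε' ∉ Fo} = ∅ := by
      refine Set.eq_empty_of_forall_notMem fun ε' k' => k'.1 ?_
      simp only [Set.mem_ofPred_eq, h0 ε' k'.2]
    rw [h3, Set.ncard_empty, mul_zero, Nat.le_zero, Set.ncard_eq_zero] at h2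
    by_contra k2
    have : ε ∈ {ε' | X.cut {σ | Quot.mk (X.DA Foᶜ) σ = Quot.mk _ (X.l ε)} ε' ∧ ε' ∈ Fo} :=
      ⟨fun k3 => k2 (k3.1 rfl).symm, k⟩
    rw [h2] at this
    exact this
  refine Nat.card_le_card_of_surjective
    (Quot.lift (r := X.DA Set.univ) (Quot.mk (X.DA Foᶜ)) ?_) fun c => ?_
  · rintro a b ⟨ε, -, ⟨rfl, rfl⟩ | ⟨rfl, rfl⟩⟩
    · exact h1 ε
    · exact (h1 ε).symm
  · obtain ⟨σ, rfl⟩ := Quot.exists_rep c
    exact ⟨Quot.mk _ σ, rfl⟩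

theorem rn_of_eqv {a b : X.F} (h : Relation.EqvGen X.DAdj a b) : ∃ n, Rn X.DAdj n a b := by
  induction h with
  | rel a b k => exact ⟨1, Rn.single k⟩
  | refl a => exact ⟨0, Rn.refl _ _⟩
  | symm a b _ ih =>
    obtain ⟨n, k⟩ := ih
    exact ⟨n, k.symm fun _ _ ⟨ε, e1, e2⟩ => ⟨ε, e1, e2.symm⟩⟩
  | trans a b c _ _ ih ih' =>
    obtain ⟨n, k⟩ := ih
    obtain ⟨n', k'⟩ := ih'
    exact ⟨_, k.trans k'⟩

end LemSA

theorem lemS (fo : ForestS) (tr : TreeS) : LemSS := by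
  intro X h R ρ m hm hR
  have := Fintype.ofFinite X.F
  choose e he using h.covF
  obtain ⟨Fo, f1, f2⟩ := fo X h ((fun t => X.p (e t)) '' R) (3 * ρ + 4) (fun v => by
    obtain ⟨ε, hε⟩ := h.covV v
    obtain ⟨t, ht, k⟩ := hR (X.l ε)
    refine ⟨_, ⟨t, ht, rfl⟩, ?_⟩
    have k1 := LemSA.far h k (e t) ε (he t) (Or.inl rfl)
    rcases hε with rfl | rfl
    · exact k1.mono (by omega)
    · exact k1.trans (Rn.single ⟨ε, Or.inl ⟨rfl, rfl⟩⟩))
  obtain ⟨top, t1, t2, t3⟩ := tr X h Foᶜ m hm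
  refine ⟨top, {ε | ε ∈ Foᶜ ∧ top (X.l ε) ≠ top (X.r ε)}.ncard, t1, fun σ => ?_, ?_, ?_⟩
  · refine Relation.ReflTransGen.mono ?_ _ _ (t2 σ)
    rintro a b ⟨k1, k2, ε, -, k3⟩
    exact ⟨k1, k2, ε, trivial, k3⟩
  · have d1 := LemSA.double top Fo
    have d2 := LemSA.double top Foᶜ
    have d3 : ∑ t, {ε | X.cut {σ | top σ = t} ε ∧ ε ∈ Fo}.ncard ≤
        2 * (3 * ρ + 4) * ∑ t, {ε | X.cut {σ | top σ = t} ε ∧ ε ∈ Foᶜ}.ncard := by
      rw [Finset.mul_sum]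
      exact Finset.sum_le_sum fun t _ => f2 _
    have d4 : {ε | top (X.l ε) ≠ top (X.r ε)}.ncard ≤
        {ε | ε ∈ Fo ∧ top (X.l ε) ≠ top (X.r ε)}.ncard +
          {ε | ε ∈ Foᶜ ∧ top (X.l ε) ≠ top (X.r ε)}.ncard := by
      refine le_trans (Set.ncard_le_ncard (fun ε k => ?_)) (Set.ncard_union_le _ _)
      by_cases k1 : ε ∈ Fo
      · exact Or.inl ⟨k1, k⟩
      · exact Or.inr ⟨k1, k⟩
    rw [d1, d2] at d3
    nlinarith
  · have d1 := LemSA.ncomp_le f2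
    have d2 := Set.ncard_add_ncard_compl Fo
    have d3 := Set.ncard_image_le (f := fun t => X.p (e t)) (s := R)
    omega

theorem absChi (le : LemSS) : AbsChiS := by
  intro X h
  have k : ∀ σ, ∃ n, Rn X.DAdj n (Quot.mk X.DAdj σ).out σ := fun σ =>
    LemSA.rn_of_eqv (Quot.eqvGen_exact (Quot.out_eq _))
  choose n hn using k
  obtain ⟨ρ, hρ⟩ := (Set.finite_range n).bddAbove
  obtain ⟨top, sp, -, -, -, h4⟩ := le X h (Set.range fun c : Quot X.DAdj => c.out) ρ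
    (Nat.card X.F + 1) (by omega) fun σ => ⟨_, ⟨_, rfl⟩, (hn σ).mono (hρ ⟨σ, rfl⟩)⟩
  have d1 : (Set.range fun c : Quot X.DAdj => c.out).ncard ≤ X.ncomp Set.univ := by
    rw [← Set.image_univ]
    exact (Set.ncard_image_le).trans (Set.ncard_univ _).le
  rw [Nat.div_eq_of_lt (by omega)] at h4
  omega

end Pool.Agent.MP_df844f_gt
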