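import Pool.Agent.MP_df844f_gt.Spec

/-! Additivity of the counts and the structure of tight states. -/

namespace Pool.Agent.MP_df844f_gt

open PS

namespace StructA

variable {B : Type} [MulAction W B] {Y : PS B}

/-- Free sides in `U`. -/
abbrev FS (Y : PS B) (U : Set Y.Om) : Type := {p : Y.Om × S // p.1 ∈ U ∧ Y.Free p.1 p.2}

/-- Boundary components in `U`. -/
abbrev BQ (Y : PS B) (U : Set Y.Om) : Type := Quot fun p q : FS Y U => Y.BAdj p.1 q.1

instance (U : Set Y.Om) : Finite (BQ Y U) := Quot.finite _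

/-- The thick component of a chamber. -/
abbrev cp (Y : PS B) (x : Y.Om) : Y.Cell := Y.cell x Finset.univ

theorem badj_symm {p q : Y.Om × S} (h : Y.BAdj p q) : Y.BAdj q p := by
  obtain ⟨a, b, t, t', c, d, e⟩ := h
  exact ⟨b, a, t', t, d, c, e.symm⟩

theorem badj_cp {p q : Y.Om × S} (h : Y.BAdj p q) : cp Y p.1 = cp Y q.1 := by
  obtain ⟨_, _, t, t', _, _, c⟩ := h
  have e := (cell_eq_iff.1 c).1
  rw [← e] at c
  exact cell_mono c (Finset.subset_univ _)

theorem shut_near {U : Set Y.Om} (hU : Y.Shut U) {n : ℕ} {x y : Y.Om} (h : Y.Near n x y)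
    (hx : x ∈ U) : y ∈ U := by
  induction h with
  | refl => exact hx
  | step e _ ih => exact ih (hU _ _ _ e hx)

theorem shut_cp {U : Set Y.Om} (hU : Y.Shut U) {x y : Y.Om} (h : cp Y x = cp Y y)
    (hx : x ∈ U) : y ∈ U := by
  obtain ⟨n, k⟩ := cell_near h
  exact shut_near hU k hx

theorem shut_compl {U : Set Y.Om} (hU : Y.Shut U) : Y.Shut Uᶜ :=
  fun s _ _ e hx hy => hx (hU s _ _ (Y.e_symm e) hy)

/-- The thick component of a boundary component. -/
def toCp (U : Set Y.Om) : BQ Y U → Y.Cell :=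
  Quot.lift (fun p => cp Y p.1.1) (fun _ _ h => badj_cp h)

theorem reach {U : Set Y.Om} (hU : Y.Shut U) (p : FS Y U) {q : Y.Om × S}
    (h : Relation.ReflTransGen Y.BAdj p.1 q) :
    ∃ hq : q.1 ∈ U ∧ Y.Free q.1 q.2, (Quot.mk _ ⟨q, hq⟩ : BQ Y U) = Quot.mk _ p := by
  induction h with
  | refl => exact ⟨p.2, rfl⟩
  | tail _ k ih =>
    obtain ⟨h1, h2⟩ := ih
    refine ⟨⟨shut_cp hU (badj_cp k) h1.1, k.2.1⟩, Eq.trans ?_ h2⟩
    exact Quot.sound (badj_symm k)

open Classical in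
/-- The boundary component of a side. -/
noncomputable def bc (p : Y.Om × S) : Finset (Y.Om × S) :=
  (Set.toFinite {q | Relation.ReflTransGen Y.BAdj p q}).toFinset

theorem mem_bc {p q : Y.Om × S} : q ∈ bc p ↔ Relation.ReflTransGen Y.BAdj p q := by
  simp [bc]

theorem bc_path {p q : Y.Om × S} (h : q ∈ bc p) :
    Relation.ReflTransGen (fun a b => a ∈ bc p ∧ b ∈ bc p ∧ Y.BAdj a b) p q := by
  have k := mem_bc.1 h
  clear h
  induction k with
  | refl => exact .refl
  | tail a b ih => exact ih.tail ⟨mem_bc.2 a, mem_bc.2 (a.tail b), b⟩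

theorem bc_conn {p : Y.Om × S} (hp : Y.Free p.1 p.2) : Y.BConn (bc p) := by
  refine ⟨fun q hq => ?_, fun a ha b hb => ?_⟩
  · rcases (mem_bc.1 hq).cases_tail with rfl | ⟨_, _, k⟩
    · exact hp
    · exact k.2.1
  · refine Relation.ReflTransGen.trans ?_ (bc_path hb)
    have k := bc_path ha
    clear ha
    induction k with
    | refl => exact .refl
    | tail _ e ih => exact Relation.ReflTransGen.head ⟨e.2.1, e.1, badj_symm e.2.2⟩ ih

theorem ends_le (x0 : Y.Om) (U : Set Y.Om) : Y.ends x0 U ≤ Y.deg U + 1 := by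
  have h : {a | Y.esrc x0 a ∈ U} ⊆ insert none (some '' {a | Y.src a ∈ U}) := by
    rintro (_ | a) ha
    · exact Or.inl rfl
    · exact Or.inr ⟨a, ha, rfl⟩
  refine (Set.ncard_le_ncard h).trans ((Set.ncard_insert_le _ _).trans ?_)
  exact Nat.add_le_add_right (Set.ncard_image_le (Set.toFinite _)) 1

theorem nB_le {U : Set Y.Om} : Y.nB Set.univ ≤ Y.nB U + Y.nB Uᶜ := by
  have up : ∀ V : Set Y.Om, ∃ φ : BQ Y V → BQ Y Set.univ,
      ∀ p : FS Y V, φ (Quot.mk _ p) = Quot.mk _ ⟨p.1, trivial, p.2.2⟩ := fun V =>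
    ⟨Quot.map (fun p => ⟨p.1, trivial, p.2.2⟩) (fun _ _ h => h), fun _ => rfl⟩
  obtain ⟨φ, hφ⟩ := up U
  obtain ⟨ψ, hψ⟩ := up Uᶜ
  have hs : Function.Surjective (Sum.elim φ ψ) := by
    intro c
    induction c using Quot.ind with
    | mk p =>
      by_cases h : p.1.1 ∈ U
      · exact ⟨.inl (Quot.mk _ ⟨p.1, h, p.2.2⟩), hφ _⟩
      · exact ⟨.inr (Quot.mk _ ⟨p.1, h, p.2.2⟩), hψ _⟩
  have := Nat.card_le_card_of_surjective _ hs
  rwa [Nat.card_sum] at this

/-- If all boundary components in `U` are large, there are few of them. -/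
theorem large {U : Set Y.Om} (hU : Y.Shut U) (n : ℕ)
    (h : ∀ p : Y.Om × S, p.1 ∈ U → Y.Free p.1 p.2 → n ≤ (bc p).card) :
    n * Y.nB U ≤ Y.nF U := by
  classical
  have := Fintype.ofFinite (FS Y U)
  have := Fintype.ofFinite (BQ Y U)
  have k := Finset.mul_card_image_le_card (f := fun p : FS Y U => (Quot.mk _ p : BQ Y U))
    Finset.univ n (by
      intro b _
      induction b using Quot.ind with
      | mk p =>
        refine (h p.1 p.2.1 p.2.2).trans ?_
        refine le_trans (Finset.card_le_card (t := (Finset.univ.filter fun a : FS Y U =>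
          (Quot.mk _ a : BQ Y U) = Quot.mk _ p).image Subtype.val) ?_) Finset.card_image_le
        intro q hq
        obtain ⟨h1, h2⟩ := reach hU p (mem_bc.1 hq)
        exact Finset.mem_image.2 ⟨⟨q, h1⟩, Finset.mem_filter.2 ⟨Finset.mem_univ _, h2⟩, rfl⟩)
  rw [Finset.image_univ_of_surjective Quot.mk_surjective, Finset.card_univ, Finset.card_univ,
    ← Nat.card_eq_fintype_card, ← Nat.card_eq_fintype_card] at k
  exact k

/-- Counting darts along the thick components. -/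
theorem deg_sum (U : Set Y.Om) (K : Finset Y.Cell) (hK : ∀ x, x ∈ U ↔ cp Y x ∈ K) :
    Y.deg U = ∑ c ∈ K, Y.deg {x | cp Y x = c} := by
  classical
  have := Fintype.ofFinite Y.A
  have e : ∀ V : Set Y.Om, Y.deg V = (Finset.univ.filter fun a => Y.src a ∈ V).card := by
    intro V
    unfold deg
    rw [← Set.ncard_coe_finset]
    congr 1
    ext a; simp
  rw [e, Finset.card_eq_sum_card_fiberwise (f := fun a => cp Y (Y.src a)) (t := K)
    (fun a ha => (hK _).1 (Finset.mem_filter.1 ha).2)]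
  refine Finset.sum_congr rfl fun c hc => ?_
  rw [e]
  congr 1
  ext a
  simp only [Finset.mem_filter, Finset.mem_univ, true_and, Set.mem_ofPred_eq, hK]
  exact ⟨fun k => k.2, fun k => ⟨k ▸ hc, k⟩⟩

end StructA

open StructA

theorem addS : AddS := by
  intro B _ Y x0 U _
  have hd : Y.deg U + Y.deg Uᶜ = Nat.card Y.A := Set.ncard_add_ncard_compl {a | Y.src a ∈ U}
  refine ⟨by simp [nF, area], ?_, ?_, nB_le, hd, ends_le _ _, ?_⟩
  · unfold nF area
    rw [← Set.ncard_union_eq (Set.disjoint_left.2 fun p a b => b.1 a.1)]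
    congr 1
    ext p
    simp only [Set.mem_union, Set.mem_ofPred_eq, Set.mem_compl_iff]
    tauto
  · refine le_trans (Set.ncard_le_ncard ?_) (Set.ncard_union_le _ _)
    rintro c ⟨x, _, k⟩
    by_cases h : x ∈ U
    · exact Or.inl ⟨x, h, k⟩
    · exact Or.inr ⟨x, h, k⟩
  · refine (ends_le _ _).trans (le_of_eq ?_)
    simp [deg]

theorem struct (be : BeadS) (bd : BeadDegS) (fr : FreeExS) : StructS := by
  classical
  intro S0
  obtain ⟨ρ, hρ⟩ := be S0
  refine ⟨ρ, fun B _ _ o ht hth Y x0 r μ hY hI hv hT => ?_⟩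
  set U : Set Y.Om :=
    {x | ∃ p : Y.Om × S, Y.Free p.1 p.2 ∧ (bc p).card ≤ S0 ∧ cp Y p.1 = cp Y x} with hUd
  have hU : Y.Shut U := by
    rintro s x y e ⟨p, a, b, c⟩
    exact ⟨p, a, b, c.trans (cell_e (Finset.mem_univ _) e)⟩
  have bead : ∀ p : Y.Om × S, Y.Free p.1 p.2 → (bc p).card ≤ S0 →
      (∃ pos, Y.Bead o {x | cp Y x = cp Y p.1} pos) ∧
        ∀ q : Y.Om × S, cp Y q.1 = cp Y p.1 → Y.Free q.1 q.2 → q ∈ bc p := by
    intro p hp hc
    obtain ⟨Z, pos, h1, h2⟩ := hρ B o ht hth Y x0 r hY hT (bc p) (bc_conn hp)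
      ⟨p, mem_bc.2 .refl⟩ hc (fun a ha b k => mem_bc.2 ((mem_bc.1 ha).tail k))
    have hp1 : p.1 ∈ Z := ((h2 p).1 (mem_bc.2 .refl)).1
    have hZ : Z = {x | cp Y x = cp Y p.1} := by
      ext x
      refine ⟨fun hx => ?_, fun hx => shut_cp h1.shut (Eq.symm hx) hp1⟩
      obtain ⟨n, k⟩ := h1.conn x hx _ hp1
      exact k.cell_univ
    subst hZ
    exact ⟨⟨pos, h1⟩, fun q a b => (h2 q).2 ⟨a, b⟩⟩
  set K : Finset Y.Cell := (Set.toFinite (cp Y '' U)).toFinset with hKd
  have hK : ∀ x, x ∈ U ↔ cp Y x ∈ K := by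
    intro x
    rw [hKd, Set.Finite.mem_toFinset]
    exact ⟨fun h => ⟨x, h, rfl⟩, fun ⟨y, a, b⟩ => shut_cp hU b a⟩
  have hK' : ∀ c ∈ K, ∃ p : Y.Om × S, Y.Free p.1 p.2 ∧ (bc p).card ≤ S0 ∧ cp Y p.1 = c := by
    intro c hc
    rw [hKd, Set.Finite.mem_toFinset] at hc
    obtain ⟨x, ⟨p, a, b, e⟩, rfl⟩ := hc
    exact ⟨p, a, b, e⟩
  have hT0 : Y.Tight o x0 r 0 := fun Y' x' a b c => hT Y' x' a b (by omega)
  have hdeg : 3 * K.card ≤ Y.deg U + if cp Y x0 ∈ K then 2 else 0 := by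
    rw [deg_sum U K hK, ← Finset.sum_ite_eq K (cp Y x0) (fun _ => 2), ← Finset.sum_add_distrib,
      mul_comm, ← smul_eq_mul]
    refine Finset.card_nsmul_le_sum _ _ _ fun c hc => ?_
    obtain ⟨p, a, b, rfl⟩ := hK' c hc
    obtain ⟨⟨pos, h1⟩, -⟩ := bead p a b
    have h2 := bd B o ht Y x0 r μ _ pos hY hI hT0 h1
      ((Set.ncard_pos (Set.toFinite _)).2 ⟨p, rfl, a⟩)
    split_ifs with k
    · have := h2.2 k
      omega
    · exact h2.1 k
  refine ⟨U, K.card, hU, ?_, ?_, ?_, ?_, ?_⟩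
  · have hi : Function.Injective (toCp (Y := Y) U) := by
      intro a b
      induction a using Quot.ind with
      | mk a =>
      induction b using Quot.ind with
      | mk b =>
      intro (e : cp Y a.1.1 = cp Y b.1.1)
      obtain ⟨p, h1, h2, h3⟩ := a.2.1
      have hp : p.1 ∈ U := ⟨p, h1, h2, rfl⟩
      obtain ⟨_, k1⟩ := reach hU ⟨p, hp, h1⟩ (mem_bc.1 ((bead p h1 h2).2 a.1 h3.symm a.2.2))
      obtain ⟨_, k2⟩ := reach hU ⟨p, hp, h1⟩
        (mem_bc.1 ((bead p h1 h2).2 b.1 (h3.trans e).symm b.2.2))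
      exact k1.trans k2.symm
    have hr : Set.range (toCp (Y := Y) U) ⊆ (K : Set Y.Cell) := by
      rintro _ ⟨a, rfl⟩
      induction a using Quot.ind with
      | mk a => exact (hK _).1 a.2.1
    have := Set.ncard_le_ncard hr
    rwa [Set.ncard_range_of_injective hi, Set.ncard_coe_finset] at this
  · split_ifs at hdeg <;> omega
  · split_ifs at hdeg with k
    · have := Finset.card_pos.2 ⟨_, k⟩
      omega
    · omega
  · refine large (shut_compl hU) S0 fun p a b => ?_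
    by_contra k
    exact a ⟨p, b, by omega, rfl⟩
  · have hs : {c | ∃ x, c = Y.cell x Finset.univ} ⊆
        (K : Set Y.Cell) ∪ Set.range (toCp (Y := Y) Uᶜ) := by
      rintro _ ⟨x, rfl⟩
      by_cases h : x ∈ U
      · exact Or.inl ((hK x).1 h)
      · obtain ⟨y, s, n, a, b⟩ := fr B o ht Y hv x
        exact Or.inr ⟨Quot.mk _ ⟨(y, s), shut_near (shut_compl hU) a h, b⟩, a.cell_univ.symm⟩
    refine (Set.ncard_le_ncard hs).trans ((Set.ncard_union_le _ _).trans ?_)
    rw [Set.ncard_coe_finset, ← Set.image_univ]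
    refine Nat.add_le_add_left ((Set.ncard_image_le (Set.toFinite _)).trans ?_) _
    rw [Set.ncard_univ]
    exact le_rfl

end Pool.Agent.MP_df844f_gt
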