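import Pool.Agent.MP_df844f_gt.Spec

/-! Every thick component of a small prestate has a free side, and then the top coboundary of the
dual cube complex is onto. -/

namespace Pool.Agent.MP_df844f_gt

open PS

theorem freeEx : FreeExS := by
  intro B _ _ o ho Y hv x
  by_contra hne
  have hfree : ∀ y n s, Y.Near n x y → ∃ z, Y.e s y z := fun y n s h => by
    by_contra k
    exact hne ⟨y, s, n, h, k⟩
  have key : ∀ w : W, ∃ y n, Y.Near n x y ∧ Y.f y = w • Y.f x := by
    intro w
    induction w using induction_left with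
    | h1 => exact ⟨x, 0, Near.refl _ _, (one_smul _ _).symm⟩
    | h2 w s ih =>
      obtain ⟨y, n, h, e⟩ := ih
      obtain ⟨z, hz⟩ := hfree y n s h
      exact ⟨z, n + 1, h.trans (Near.single hz), by rw [Y.e_f hz, e, mul_smul]⟩
  have hs : Function.Surjective Y.f := by
    intro b
    obtain ⟨v, hv⟩ := ho (Y.f x)
    obtain ⟨w, rfl⟩ := ho b
    obtain ⟨y, -, -, e⟩ := key (w * v⁻¹)
    exact ⟨y, by rw [e, ← hv, smul_smul, inv_mul_cancel_right]⟩
  exact absurd (Nat.card_le_card_of_surjective _ hs) (not_le.2 hv)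

namespace SurjA

variable {B : Type} [MulAction W B] (Y : PS B)

open Classical in
/-- Restriction to the full cells of rank three. -/
noncomputable def pr : Y.Chain →ₗ[F2] Y.Chain :=
  (Y.Ck 3).subtype ∘ₗ Finsupp.restrictDom F2 F2 (Y.FC 3)

theorem dl_eq (u : Y.Chain) : Y.dl 3 u = pr Y (Y.bd u) := rfl

theorem pr_mem (u : Y.Chain) : pr Y u ∈ Y.Ck 3 := Subtype.property _

theorem pr_pos {c : Y.Cell} (h : c ∈ Y.FC 3) : pr Y (Finsupp.single c 1) = Finsupp.single c 1 := by
  classical
  exact Finsupp.filter_single_of_pos (fun c => c ∈ Y.FC 3) h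

theorem pr_neg {c : Y.Cell} (h : c ∉ Y.FC 3) : pr Y (Finsupp.single c 1) = 0 := by
  classical
  exact Finsupp.filter_single_of_neg (fun c => c ∈ Y.FC 3) h

/-- The indicator of the cell, restricted to full cells, is a coboundary. -/
def P (x : Y.Om) (J : Finset S) : Prop :=
  pr Y (Finsupp.single (Y.cell x J) 1) ∈ (Y.Ck 2).map (Y.dl 3)

variable {Y}

theorem P_of_not_full {x : Y.Om} {J : Finset S} (h : ¬ Y.Full x J) : P Y x J := by
  unfold P
  rw [pr_neg]
  · exact Submodule.zero_mem _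
  · rintro ⟨y, J', -, -, hf, e⟩
    obtain rfl := (cell_eq_iff.1 e).1
    exact h (hf.congr e)

theorem third {J : Finset S} {s t : S} (hJ : J.card = 3) (hc : Clq J) (hs : s ∈ J) (ht : t ∈ J)
    (hst : s ≠ t) : ∃ u, adj s u ∧ adj t u ∧ J = insert u {s, t} := by
  have h2 : ({s, t} : Finset S).card = 2 := Finset.card_pair hst
  have hsub : ({s, t} : Finset S) ⊆ J := by
    intro a ha
    rcases Finset.mem_insert.1 ha with rfl | ha
    · exact hs
    · exact Finset.mem_singleton.1 ha ▸ ht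
  obtain ⟨u, hu, hn⟩ := Finset.exists_mem_notMem_of_card_lt_card (s := {s, t}) (t := J) (by omega)
  have hus : s ≠ u := fun k => hn (by simp [k])
  have hut : t ≠ u := fun k => hn (by simp [k])
  refine ⟨u, hc s hs u hu hus, hc t ht u hu hut, ?_⟩
  refine (Finset.eq_of_subset_of_card_le (Finset.insert_subset hu hsub) ?_).symm
  rw [Finset.card_insert_of_notMem hn]
  omega

theorem P_flip (hF : FactS) {x : Y.Om} {J J' : Finset S} (h1 : J.card = 3) (c1 : Clq J)
    (h2 : J'.card = 3) (c2 : Clq J') (hi : (J ∩ J').card = 2) (h : P Y x J) : P Y x J' := by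
  obtain ⟨s, t, hst, hI⟩ := Finset.card_eq_two.1 hi
  have ms : s ∈ J ∩ J' := by rw [hI]; simp
  have mt : t ∈ J ∩ J' := by rw [hI]; simp
  rw [Finset.mem_inter] at ms mt
  have hadj : adj s t := c1 s ms.1 t mt.1 hst
  by_cases hf : Y.Full x {s, t}
  swap
  · exact P_of_not_full fun k => hf (k.mono (hI ▸ Finset.inter_subset_right))
  obtain ⟨a, a1, a2, ha⟩ := third h1 c1 ms.1 mt.1 hst
  obtain ⟨b, b1, b2, hb⟩ := third h2 c2 ms.2 mt.2 hst
  have hab : a ≠ b := by
    rintro rfl
    rw [hb, ← ha, Finset.inter_self] at hi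
    omega
  obtain ⟨u, v, huv, hx⟩ := hF.two s t hadj
  have hfil : Finset.univ.filter (fun r => ∀ q ∈ ({s, t} : Finset S), adj q r) = {a, b} := by
    ext r
    have k1 := (hx a).1 ⟨a1, a2⟩
    have k2 := (hx b).1 ⟨b1, b2⟩
    have k3 := hx r
    simp only [Finset.mem_filter, Finset.mem_univ, true_and, Finset.mem_insert,
      Finset.mem_singleton, forall_eq_or_imp, forall_eq, k3]
    rcases k1 with rfl | rfl <;> rcases k2 with rfl | rfl
    · exact absurd rfl hab
    · rfl
    · exact or_comm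
    · exact absurd rfl hab
  have hmem : Finsupp.single (Y.cell x {s, t}) (1 : F2) ∈ Y.Ck 2 :=
    Finsupp.single_mem_supported F2 1 ⟨x, {s, t}, Finset.card_pair hst,
      fun p hp q hq => c1 p (Finset.mem_inter.1 (hI ▸ hp)).1 q (Finset.mem_inter.1 (hI ▸ hq)).1,
      hf, rfl⟩
  have hsum := Submodule.mem_map_of_mem (f := Y.dl 3) hmem
  rw [dl_eq, bd_single, hfil, Finset.sum_pair hab, map_add, ← ha, ← hb] at hsum
  exact (Submodule.add_mem_iff_right _ h).1 hsum

theorem P_all (hF : FactS) {x : Y.Om} {J J' : Finset S} (h1 : J.card = 3) (c1 : Clq J)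
    (h2 : J'.card = 3) (c2 : Clq J') (h : P Y x J) : P Y x J' := by
  have := hF.tri J J' h1 c1 h2 c2
  clear h2 c2
  induction this with
  | refl => exact h
  | tail _ k ih => exact P_flip hF k.1 k.2.1 k.2.2.1 k.2.2.2.1 k.2.2.2.2 ih

theorem tri_ex (s : S) : ∃ J : Finset S, J.card = 3 ∧ Clq J ∧ s ∈ J := by
  have : ∀ s : S, ∃ t u : S, ({s, t, u} : Finset S).card = 3 ∧ Clq {s, t, u} := by decide
  obtain ⟨t, u, h1, h2⟩ := this s
  exact ⟨_, h1, h2, by simp⟩

theorem P_near (hF : FactS) {n : ℕ} {x y : Y.Om} (h : Y.Near n x y) {s : S} (hs : Y.Free y s) :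
    ∀ J : Finset S, J.card = 3 → Clq J → P Y x J := by
  induction h with
  | refl n x =>
    intro J h1 c1
    obtain ⟨J0, h0, c0, m0⟩ := tri_ex s
    exact P_all hF h0 c0 h1 c1 (P_of_not_full fun k => k x rfl s m0 hs)
  | @step n t x y z he _ ih =>
    intro J h1 c1
    obtain ⟨J0, h0, c0, m0⟩ := tri_ex t
    refine P_all hF h0 c0 h1 c1 ?_
    have := ih hs J0 h0 c0
    unfold P at this ⊢
    rwa [cell_e m0 he]

end SurjA

open SurjA

theorem surj (hF : FactS) : SurjS := by
  classical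
  intro B _ Y _ hx
  have e : (Y.Ck 2).map (Y.dl 3) = Y.Ck 3 := by
    refine le_antisymm ?_ ?_
    · rintro _ ⟨u, -, rfl⟩
      exact pr_mem Y _
    · change Finsupp.supported F2 F2 (Y.FC 3) ≤ _
      rw [Finsupp.supported_eq_span_single, Submodule.span_le]
      rintro _ ⟨c, hc, rfl⟩
      have hc' := hc
      obtain ⟨x, J, h1, c1, -, rfl⟩ := hc'
      obtain ⟨y, s, n, h, hs⟩ := hx x
      have := P_near hF h hs J h1 c1
      unfold P at this
      rwa [pr_pos Y hc] at this
  have := Fintype.ofFinite (Y.FC 3)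
  unfold PS.bb PS.nC
  rw [e]
  refine (Finsupp.supportedEquivFinsupp (M := F2) (R := F2) (Y.FC 3)).finrank_eq.trans ?_
  rw [Module.finrank_finsupp_self, ← Nat.card_eq_fintype_card, Nat.card_coe_set_eq]

end Pool.Agent.MP_df844f_gt
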