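import Pool.Agent.MP_df844f_gt.Spec

namespace Pool.Agent.MP_df844f_gt

open PS

namespace TIneqA

variable {B : Type} [MulAction W B] {Y : PS B}

theorem endsN_mono (x0 : Y.Om) (R : ℕ) {D D' : Finset (Y.Om × S)} (h : D ⊆ D') :
    Y.endsN x0 R D ≤ Y.endsN x0 R D' :=
  Set.ncard_le_ncard fun _ ⟨p, hp, k⟩ => ⟨p, h hp, k⟩

theorem sides_near (hY : Y.State) (x : Y.Om) (R : ℕ) :
    {p : Y.Om × S | Y.Near R p.1 x}.ncard ≤ 12 * 13 ^ R := by
  have : {p : Y.Om × S | Y.Near R p.1 x} = {y | Y.Near R x y} ×ˢ Set.univ := by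
    ext p; simp only [Set.mem_ofPred_eq, Set.mem_prod, Set.mem_univ, and_true]
    exact ⟨Near.symm, Near.symm⟩
  rw [this, Set.ncard_prod, Set.ncard_univ, mul_comm]
  exact Nat.mul_le_mul (by simp) (hY.ball x R)

theorem sum_ends (hY : Y.State) (x0 : Y.Om) (R : ℕ) {U : Set Y.Om} (hU : Y.Shut U) {F : Type}
    (e : F ↪ Y.Om × S) (he : ∀ a, (e a).1 ∈ U) (𝒟 : Finset (Finset F))
    (h : ∀ D ∈ 𝒟, ∀ D' ∈ 𝒟, D ≠ D' → Disjoint D D') :
    ∑ D ∈ 𝒟, Y.endsN x0 R (D.map e) ≤ 12 * 13 ^ R * Y.ends x0 U := by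
  classical
  have := Fintype.ofFinite Y.A
  let T : Finset (Option Y.A) := Finset.univ.filter fun a => Y.esrc x0 a ∈ U
  let r : Finset F → Option Y.A → Prop := fun D a => ∃ p ∈ D.map e, Y.Near R p.1 (Y.esrc x0 a)
  have h1 : ∀ D, Y.endsN x0 R (D.map e) = (T.filter (r D)).card := by
    intro D
    unfold endsN ends
    rw [← Set.ncard_coe_finset]
    congr 1
    ext a
    simp only [T, r, Set.mem_ofPred_eq, Finset.coe_filter, Finset.mem_filter, Finset.mem_univ,
      true_and]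
    constructor
    · rintro ⟨p, hp, k⟩
      obtain ⟨q, _, rfl⟩ := Finset.mem_map.1 hp
      exact ⟨k.shut hU (he q), _, hp, k⟩
    · exact fun k => k.2
  have h2 : Y.ends x0 U = T.card := by
    unfold ends
    rw [← Set.ncard_coe_finset]
    congr 1
    ext a; simp [T]
  have h3 : ∀ a ∈ T, (𝒟.filter fun D => r D a).card ≤ 12 * 13 ^ R := by
    intro a _
    refine le_trans ?_ (sides_near hY (Y.esrc x0 a) R)
    rw [← Set.ncard_coe_finset]
    have ch : ∀ D : Finset F, r D a → ∃ q ∈ D, Y.Near R (e q).1 (Y.esrc x0 a) := by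
      rintro D ⟨p, hp, k⟩
      obtain ⟨q, hq, rfl⟩ := Finset.mem_map.1 hp
      exact ⟨q, hq, k⟩
    choose q hq1 hq2 using ch
    refine Set.ncard_le_ncard_of_injOn
      (fun D => if k : r D a then e (q D k) else (x0, 0)) ?_ ?_
    · intro D hD
      have k := (Finset.mem_filter.1 hD).2
      simp only [dif_pos k]
      exact hq2 D k
    · intro D hD D' hD' k
      obtain ⟨a1, a2⟩ := Finset.mem_filter.1 hD
      obtain ⟨b1, b2⟩ := Finset.mem_filter.1 hD'
      simp only [dif_pos a2, dif_pos b2] at k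
      by_contra ne
      have := e.injective k
      exact Finset.disjoint_left.1 (h D a1 D' b1 ne) (hq1 D a2) (this ▸ hq1 D' b2)
  simp only [h1, h2]
  rw [Finset.sum_card_bipartiteAbove_eq_sum_card_bipartiteBelow (s := 𝒟) (t := T) r |>.trans
    (rfl : _ = ∑ a ∈ T, (𝒟.filter fun D => r D a).card) |> Eq.symm |> Eq.symm |>
    fun k => (show ∑ D ∈ 𝒟, (T.filter (r D)).card = _ from k)]
  calc ∑ a ∈ T, (𝒟.filter fun D => r D a).card ≤ ∑ _a ∈ T, 12 * 13 ^ R := Finset.sum_le_sum h3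
    _ = _ := by rw [Finset.sum_const, smul_eq_mul, mul_comm]

end TIneqA

theorem tineq (ga : GainS) (ab : AbsS) (ins : InstS) : TIneqS := by
  obtain ⟨Cs, ga⟩ := ga
  obtain ⟨m0, C1, C2, ab⟩ := ab Cs
  refine ⟨C1, fun H => ?_⟩
  obtain ⟨R, C, ρ, ga⟩ := ga H m0
  refine ⟨C2 * (12 * 13 ^ R), C, ρ + 3, ?_⟩
  intro B _ _ o ht hth he Y x0 r μ hs hI hv tg U hU
  obtain ⟨X, e, ok, e1, e2, e3, e4, e5, e6, e7⟩ :=
    ins B (loc_of ht (hth.mono (by omega))) Y U hs hU
  have key := ab X ok (fun D => Y.endsN x0 R (D.map e)) (12 * 13 ^ R * Y.ends x0 U)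
    (fun D D' h => TIneqA.endsN_mono x0 R (Finset.map_subset_map.2 h))
    (TIneqA.sum_ends hs x0 R hU e fun a => (e1 a).1)
    (fun D hD hm => by
      have := ga B o ht (hth.mono (by omega)) he Y x0 r μ hs hI hv tg (D.map e) ?_
        (by rwa [Finset.card_map])
      · rwa [Finset.card_map, ← e7] at this
      · refine ⟨fun p hp => ?_, fun p hp q hq => ?_⟩
        · obtain ⟨a, _, rfl⟩ := Finset.mem_map.1 hp
          exact (e1 a).2
        · obtain ⟨a, ha, rfl⟩ := Finset.mem_map.1 hp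
          obtain ⟨b, hb, rfl⟩ := Finset.mem_map.1 hq
          have k := hD a ha b hb
          clear hb hq
          induction k with
          | refl => exact Relation.ReflTransGen.refl
          | tail _ k ih =>
            exact ih.tail ⟨Finset.mem_map_of_mem _ k.1, Finset.mem_map_of_mem _ k.2.1,
              e6 _ _ k.2.2⟩)
  rw [e2, e3, e5] at key
  have : 2 * (C1 * Nat.card X.Ed) = 5 * (C1 * Y.nF U) := by
    rw [← mul_assoc, mul_comm 2, mul_assoc, e4]; ring
  nlinarith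

theorem chiLe (ac : AbsChiS) (ins : InstS) : ChiLeS := by
  intro B _ hB Y U hs hU
  obtain ⟨X, e, ok, e1, e2, e3, e4, e5, e6, e7⟩ := ins B hB Y U hs hU
  have := ac X ok
  omega

end Pool.Agent.MP_df844f_gt
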