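import Pool.Agent.MP_df844f_gt.Spec

/-! The Euler characteristic of the orbits of a triangle of labels. -/

namespace Pool.Agent.MP_df844f_gt

open PS Module

namespace TauVA

variable {B : Type} [MulAction W B] (Y : PS B)

/-- Functions that are constant on `J`-orbits and vanish at chambers with a free side in `J`. -/
def P (J : Finset S) : Submodule F2 (Y.Om → F2) where
  carrier := {φ | ∀ v ∈ J, (∀ x y, Y.e v x y → φ x = φ y) ∧ ∀ x, Y.Free x v → φ x = 0}
  add_mem' ha hb v hv :=
    ⟨fun x y e => by simp [(ha v hv).1 x y e, (hb v hv).1 x y e],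
      fun x e => by simp [(ha v hv).2 x e, (hb v hv).2 x e]⟩
  zero_mem' _ _ := ⟨fun _ _ _ => rfl, fun _ _ => rfl⟩
  smul_mem' c _ ha v hv :=
    ⟨fun x y e => by simp [(ha v hv).1 x y e], fun x e => by simp [(ha v hv).2 x e]⟩

/-- Full cells of type `J`. -/
abbrev FJ (J : Finset S) : Set Y.Cell := {c | ∃ x, Y.Full x J ∧ c = Y.cell x J}

variable {Y}

theorem P_cell {J : Finset S} {φ : Y.Om → F2} (h : φ ∈ P Y J) {x y : Y.Om}
    (k : Y.cell x J = Y.cell y J) : φ x = φ y := by
  have := (cell_eq_iff.1 k).2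
  clear k
  induction this with
  | refl => rfl
  | tail _ q ih =>
    obtain ⟨s, hs, e⟩ := q
    exact ih.trans ((h s hs).1 _ _ e)

theorem P_anti {J J' : Finset S} (h : J ⊆ J') : P Y J' ≤ P Y J := fun _ k v hv => k v (h hv)

theorem rank_P (J : Finset S) : finrank F2 (P Y J) = (FJ Y J).ncard := by
  classical
  have := Fintype.ofFinite (FJ Y J)
  choose r r1 r2 using fun c : FJ Y J => c.2
  let L : P Y J →ₗ[F2] (FJ Y J → F2) := (LinearMap.funLeft F2 F2 r).comp (P Y J).subtype
  have hL : Function.Bijective L := by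
    refine ⟨(injective_iff_map_eq_zero L).2 fun φ h => Subtype.ext (funext fun x => ?_),
      fun z => ⟨⟨fun x => if h : Y.Full x J then z ⟨_, x, h, rfl⟩ else 0, fun v hv =>
        ⟨fun x y e => ?_, fun x e => dif_neg fun k => k x rfl v hv e⟩⟩, funext fun c => ?_⟩⟩
    · by_cases k : Y.Full x J
      · exact (P_cell φ.2 (r2 ⟨_, x, k, rfl⟩)).trans (congrFun h ⟨_, x, k, rfl⟩)
      · simp only [Full, not_forall, not_not] at k
        obtain ⟨y, k1, v, k2, k3⟩ := k
        exact (P_cell φ.2 k1).symm.trans ((φ.2 v k2).2 y k3)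
    · have k := cell_e hv e
      by_cases a : Y.Full x J
      · simp only [dif_pos a, dif_pos (a.congr k.symm), k]
      · simp only [dif_neg a, dif_neg fun b : Y.Full y J => a (b.congr k)]
    · exact (dif_pos (r1 c)).trans (congrArg z (Subtype.ext (r2 c).symm))
  rw [(LinearEquiv.ofBijective L hL).finrank_eq, finrank_fintype_fun_eq_card,
    ← Nat.card_eq_fintype_card, Nat.card_coe_set_eq]

/-- The quotient by edge functions has dimension at most the number of orbits. -/
theorem vol_le (hY : Y.State) (J : Finset S) (M : Submodule F2 (Y.Om → F2))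
    (hM : ∀ v ∈ J, P Y {v} ≤ M) :
    Y.vol ≤ finrank F2 M + {c | ∃ x, c = Y.cell x J}.ncard := by
  classical
  have := Fintype.ofFinite Y.Om
  have := Fintype.ofFinite {c | ∃ x, c = Y.cell x J}
  choose r hr using fun c : {c | ∃ x, c = Y.cell x J} => c.2
  let N := Submodule.span F2 (Set.range fun c => (Pi.single (r c) 1 : Y.Om → F2))
  have a : ∀ x y, Relation.ReflTransGen (Y.JE J) x y → (Pi.single y 1 : Y.Om → F2) ∈ M ⊔ N →
      (Pi.single x 1 : Y.Om → F2) ∈ M ⊔ N := fun x y h k => by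
    induction h using Relation.ReflTransGen.head_induction_on with
    | refl => exact k
    | @head a b q _ ih =>
      obtain ⟨v, hv, e⟩ := q
      have m : (Pi.single a 1 + Pi.single b 1 : Y.Om → F2) ∈ P Y {v} := fun v' hv' => by
        obtain rfl := Finset.mem_singleton.1 hv'
        refine ⟨fun x y f => ?_, fun x f => ?_⟩
        · have k1 : x = a ↔ y = b := ⟨fun k => hY.fold (k ▸ f) e,
            fun k => hY.fold (Y.e_symm (k ▸ f)) (Y.e_symm e)⟩
          have k2 : x = b ↔ y = a := ⟨fun k => hY.fold (k ▸ f) (Y.e_symm e),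
            fun k => hY.fold (Y.e_symm (k ▸ f)) e⟩
          simp only [Pi.add_apply, Pi.single_apply, k1, k2, add_comm]
        · have k1 : x ≠ a := fun k => f ⟨b, k ▸ e⟩
          have k2 : x ≠ b := fun k => f ⟨a, k ▸ Y.e_symm e⟩
          simp [k1, k2]
      simpa using Submodule.sub_mem _ (Submodule.mem_sup_left (hM v hv m)) ih
  have b : M ⊔ N = ⊤ := by
    rw [eq_top_iff, ← (Pi.basisFun F2 Y.Om).span_eq, Submodule.span_le]
    rintro _ ⟨x, rfl⟩
    rw [Pi.basisFun_apply]
    exact a x _ (cell_eq_iff.1 (hr ⟨_, x, rfl⟩)).2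
      (Submodule.mem_sup_right (Submodule.subset_span ⟨_, rfl⟩))
  have c := Submodule.finrank_add_le_finrank_add_finrank M N
  have e : finrank F2 N ≤ _ := finrank_range_le_card _
  rw [b, finrank_top, finrank_fintype_fun_eq_card, ← Nat.card_eq_fintype_card] at c
  rw [← Nat.card_eq_fintype_card, Nat.card_coe_set_eq] at e
  exact c.trans (Nat.add_le_add_left e _)

theorem orb_le (J : Finset S) : {c | ∃ x, c = Y.cell x J}.ncard ≤
    {c | ∃ x, (∃ v ∈ J, Y.Free x v) ∧ c = Y.cell x J}.ncard + (FJ Y J).ncard := by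
  refine (Set.ncard_le_ncard ?_).trans (Set.ncard_union_le _ _)
  rintro _ ⟨x, rfl⟩
  by_cases k : Y.Full x J
  · exact Or.inr ⟨x, k, rfl⟩
  · simp only [Full, not_forall, not_not] at k
    obtain ⟨y, k1, v, k2, k3⟩ := k
    exact Or.inl ⟨y, ⟨v, k2, k3⟩, k1.symm⟩

end TauVA

open TauVA in
theorem tauV (_hF : FactS) (_co : CoefS) (ps : PsizeS) : TauVS := by
  intro B _ hB Y hY s t u a b c
  have := Fintype.ofFinite Y.Om
  have q1 : ∀ v : S, {x | Y.Full x {v}}.ncard = 2 * finrank F2 (P Y {v}) := fun v => by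
    rw [ps B hB Y hY _ (by simp [Clq]), rank_P]
    simp
  have q2 : ∀ v w : S, adj v w → {x | Y.Full x {v, w}}.ncard = 4 * finrank F2 (P Y {v, w}) :=
    fun v w h => by
      rw [ps B hB Y hY _ (by simp [Clq, h, adj_symm h]), rank_P, Finset.card_pair (adj_ne h)]
      simp
  have q3 : {x | Y.Full x {s, t, u}}.ncard = 8 * finrank F2 (P Y {s, t, u}) := by
    rw [ps B hB Y hY _ (by simp [Clq, a, b, c, adj_symm a, adj_symm b, adj_symm c]), rank_P,
      Finset.card_eq_three.2 ⟨s, t, u, adj_ne a, adj_ne c, adj_ne b, rfl⟩]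
    simp
  have v := vol_le hY {s, t, u} (P Y {s} ⊔ P Y {t} ⊔ P Y {u}) fun v hv => by
    simp only [Finset.mem_insert, Finset.mem_singleton] at hv
    rcases hv with rfl | rfl | rfl
    exacts [le_sup_of_le_left le_sup_left, le_sup_of_le_left le_sup_right, le_sup_right]
  have o := orb_le (Y := Y) {s, t, u}
  rw [← rank_P] at o
  have r1 := Submodule.finrank_sup_add_finrank_inf_eq (P Y {s} ⊔ P Y {t}) (P Y {u})
  have r2 := Submodule.finrank_sup_add_finrank_inf_eq (P Y {s}) (P Y {t})
  have r3 := Submodule.finrank_sup_add_finrank_inf_eq (P Y {s, u}) (P Y {t, u})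
  have r4 := Submodule.finrank_mono (show P Y {s, t} ≤ P Y {s} ⊓ P Y {t} from
    le_inf (P_anti (by simp)) (P_anti (by simp)))
  have r5 := Submodule.finrank_mono (show P Y {s, u} ⊔ P Y {t, u} ≤ (P Y {s} ⊔ P Y {t}) ⊓ P Y {u}
    from le_inf (sup_le_sup (P_anti (by simp)) (P_anti (by simp)))
      (sup_le (P_anti (by simp)) (P_anti (by simp))))
  have r6 := Submodule.finrank_mono (show P Y {s, u} ⊓ P Y {t, u} ≤ P Y {s, t, u} from
    fun φ h v hv => by
      simp only [Finset.mem_insert, Finset.mem_singleton] at hv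
      rcases hv with rfl | rfl | rfl
      exacts [h.1 _ (by simp), h.2 _ (by simp), h.1 _ (by simp)])
  rw [q1, q1, q1, q2 s t a, q2 t u b, q2 s u c, q3]
  omega

end Pool.Agent.MP_df844f_gt
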