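import Pool.Agent.MP_df844f_gt.Spec

/-! Cutting a spanning forest of the dual graph into connected pieces of controlled size. -/

namespace Pool.Agent.MP_df844f_gt

namespace TreeA

open Relation

/-- A rooted forest with at most five children per node is cut into pieces. -/
theorem cutF {F : Type} [Finite F] (rt : F → Prop) (par : F → F) (d : F → ℕ)
    (hd : ∀ σ, ¬ rt σ → d (par σ) < d σ)
    (hch : ∀ w, {c | ¬ rt c ∧ par c = w}.ncard ≤ 5) (m : ℕ) (n : ℕ) :
    ∀ A : Set F, A.ncard = n → (∀ σ ∈ A, ¬ rt σ → par σ ∈ A) →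
    ∃ top : F → F, (∀ t, {σ | σ ∈ A ∧ top σ = t}.ncard ≤ 5 * m + 1) ∧
      (∀ σ ∈ A, top σ = σ ∨ (¬ rt σ ∧ top (par σ) = top σ)) ∧
      m * {σ | σ ∈ A ∧ top σ = σ ∧ ¬ rt σ}.ncard ≤ A.ncard ∧ ∀ σ ∈ A, top σ ∈ A := by
  classical
  induction n using Nat.strong_induction_on with
  | _ n ih =>
  intro A hA hup
  rcases A.eq_empty_or_nonempty with rfl | hne
  · exact ⟨id, by simp, by simp, by simp, by simp⟩
  let st : F → F → Prop := fun a b => ¬ rt a ∧ par a = b
  let sub : F → Set F := fun w => {σ | σ ∈ A ∧ ReflTransGen st σ w}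
  have hupT : ∀ σ w, ReflTransGen st σ w → σ ∈ A → w ∈ A := by
    intro σ w h hσ
    induction h with
    | refl => exact hσ
    | tail _ k ih2 => exact k.2 ▸ hup _ ih2 k.1
  let Bg : Set F := {w | w ∈ A ∧ (rt w ∨ m ≤ (sub w).ncard)}
  have hBg : Bg.Nonempty := by
    obtain ⟨w, hw, hmin⟩ := Set.exists_min_image A d A.toFinite hne
    refine ⟨w, hw, Or.inl ?_⟩
    by_contra k
    exact absurd (hmin _ (hup w hw k)) (not_le.2 (hd w k))
  obtain ⟨w, hw, hmax⟩ := Set.exists_max_image Bg d Bg.toFinite hBg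
  have hwsub : w ∈ sub w := ⟨hw.1, ReflTransGen.refl⟩
  have hsz : (sub w).ncard ≤ 5 * m + 1 := by
    let C : Finset F := (Set.toFinite {c | c ∈ A ∧ ¬ rt c ∧ par c = w}).toFinset
    have hC : C.card ≤ 5 := by
      rw [← Set.ncard_eq_toFinset_card]
      exact (Set.ncard_le_ncard (fun c hc => hc.2) (Set.toFinite _)).trans (hch w)
    have h1 : (sub w).toFinite.toFinset ⊆
        insert w (C.biUnion fun c => (sub c).toFinite.toFinset) := by
      intro σ hσ
      have hσ : σ ∈ sub w := by simpa using hσ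
      rcases hσ.2.cases_tail with e | ⟨c, k1, k2⟩
      · rw [e]; exact Finset.mem_insert_self _ _
      · refine Finset.mem_insert_of_mem (Finset.mem_biUnion.2 ⟨c, ?_, ?_⟩)
        · exact (Set.Finite.mem_toFinset _).2 ⟨hupT _ _ k1 hσ.1, k2.1, k2.2⟩
        · exact (Set.Finite.mem_toFinset _).2 ⟨hσ.1, k1⟩
    have h2 : ∀ c ∈ C, ((sub c).toFinite.toFinset).card ≤ m := by
      intro c hc
      have hc : c ∈ A ∧ ¬ rt c ∧ par c = w :=
        (Set.Finite.mem_toFinset (Set.toFinite {c | c ∈ A ∧ ¬ rt c ∧ par c = w})).1 hc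
      rw [← Set.ncard_eq_toFinset_card]
      by_contra k
      have := hmax c ⟨hc.1, Or.inr (by omega)⟩
      have h3 := hd c hc.2.1
      rw [hc.2.2] at h3
      omega
    have h3 := Finset.card_biUnion_le_card_mul C _ m h2
    have h4 := (Finset.card_le_card h1).trans (Finset.card_insert_le _ _)
    rw [Set.ncard_eq_toFinset_card _ (sub w).toFinite]
    nlinarith
  have hsubA : sub w ⊆ A := fun σ h => h.1
  have hcard : (A \ sub w).ncard + (sub w).ncard = A.ncard :=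
    Set.ncard_sdiff_add_ncard_of_subset hsubA A.toFinite
  have hpos : 0 < (sub w).ncard := (Set.ncard_pos (Set.toFinite _)).2 ⟨w, hwsub⟩
  have hpar : ∀ σ ∈ A, ¬ rt σ → par σ ∈ sub w → σ ∈ sub w := fun σ hσ k h =>
    ⟨hσ, ReflTransGen.head ⟨k, rfl⟩ h.2⟩
  obtain ⟨top, t1, t2, t3, t4⟩ := ih (A \ sub w).ncard (by omega) (A \ sub w) rfl
    (fun σ hσ k => ⟨hup σ hσ.1 k, fun h => hσ.2 (hpar σ hσ.1 k h)⟩)
  refine ⟨fun σ => if σ ∈ sub w then w else top σ, fun t => ?_, fun σ hσ => ?_, ?_,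
    fun σ hσ => ?_⟩
  · by_cases ht : t = w
    · refine (Set.ncard_le_ncard (fun σ hσ => ?_) (Set.toFinite _)).trans hsz
      by_contra k
      have h2 : (if σ ∈ sub w then w else top σ) = t := hσ.2
      rw [if_neg k, ht] at h2
      exact (t4 σ ⟨hσ.1, k⟩).2 (h2 ▸ hwsub)
    · refine (Set.ncard_le_ncard (fun σ hσ => ?_) (Set.toFinite _)).trans (t1 t)
      have h2 : (if σ ∈ sub w then w else top σ) = t := hσ.2
      by_cases k : σ ∈ sub w
      · rw [if_pos k] at h2; exact absurd h2.symm ht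
      · rw [if_neg k] at h2; exact ⟨⟨hσ.1, k⟩, h2⟩
  · by_cases k : σ ∈ sub w
    · rcases k.2.cases_head with e | ⟨b, k1, k2⟩
      · left; simp only [if_pos k]; exact e.symm
      · right
        have : par σ ∈ sub w := ⟨hup σ hσ k1.1, k1.2 ▸ k2⟩
        exact ⟨k1.1, by simp only [if_pos k, if_pos this]⟩
    · rcases t2 σ ⟨hσ, k⟩ with e | ⟨e1, e2⟩
      · left; simp only [if_neg k]; exact e
      · right
        have : par σ ∉ sub w := fun h => k (hpar σ hσ e1 h)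
        exact ⟨e1, by simp only [if_neg k, if_neg this]; exact e2⟩
  · have hsub : ∀ σ, σ ∈ {σ | σ ∈ A ∧ (if σ ∈ sub w then w else top σ) = σ ∧ ¬ rt σ} →
        (σ = w ∧ ¬ rt w) ∨ σ ∈ {σ | σ ∈ A \ sub w ∧ top σ = σ ∧ ¬ rt σ} := by
      intro σ hσ
      have h2 : (if σ ∈ sub w then w else top σ) = σ := hσ.2.1
      by_cases k : σ ∈ sub w
      · rw [if_pos k] at h2; exact Or.inl ⟨h2.symm, h2 ▸ hσ.2.2⟩
      · rw [if_neg k] at h2; exact Or.inr ⟨⟨hσ.1, k⟩, h2, hσ.2.2⟩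
    beta_reduce
    rcases hw.2 with hr | hm
    · have := Set.ncard_le_ncard (s := {σ | σ ∈ A ∧ (if σ ∈ sub w then w else top σ) = σ ∧ ¬ rt σ})
        (t := {σ | σ ∈ A \ sub w ∧ top σ = σ ∧ ¬ rt σ})
        (fun σ hσ => (hsub σ hσ).resolve_left fun h => h.2 hr) (Set.toFinite _)
      have := Nat.mul_le_mul_left m this
      omega
    · have := Set.ncard_le_ncard (s := {σ | σ ∈ A ∧ (if σ ∈ sub w then w else top σ) = σ ∧ ¬ rt σ})
        (t := insert w {σ | σ ∈ A \ sub w ∧ top σ = σ ∧ ¬ rt σ})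
        (fun σ hσ => (hsub σ hσ).imp_left fun h => h.1) (Set.toFinite _)
      have := Nat.mul_le_mul_left m (this.trans (Set.ncard_insert_le _ _))
      rw [Nat.mul_add] at this
      omega
  · by_cases k : σ ∈ sub w
    · simp only [if_pos k]; exact hw.1
    · simp only [if_neg k]; exact (t4 σ ⟨hσ, k⟩).1

theorem da_symm (X : Surf) (G : Set X.Ed) {a b : X.F} (h : X.DA G a b) : X.DA G b a := by
  obtain ⟨ε, h1, h2⟩ := h
  exact ⟨ε, h1, h2.symm⟩

theorem reach_root (X : Surf) (G : Set X.Ed) (σ : X.F) :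
    ∃ n, Rn (X.DA G) n σ (Quot.out (Quot.mk (X.DA G) σ)) := by
  have h : EqvGen (X.DA G) σ (Quot.out (Quot.mk (X.DA G) σ)) :=
    Quot.eqvGen_exact (Quot.out_eq _).symm
  generalize Quot.out (Quot.mk (X.DA G) σ) = y at h
  induction h with
  | rel a b k => exact ⟨1, Rn.single k⟩
  | refl a => exact ⟨0, Rn.refl _ _⟩
  | symm a b _ k => obtain ⟨n, k⟩ := k; exact ⟨n, k.symm fun _ _ => da_symm X G⟩
  | trans a b c _ _ k1 k2 =>
    obtain ⟨n, k1⟩ := k1
    obtain ⟨n', k2⟩ := k2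
    exact ⟨_, k1.trans k2⟩

/-- A breadth first spanning forest of the dual graph along `G`. -/
theorem bfs (X : Surf) (G : Set X.Ed) : ∃ (d : X.F → ℕ), ∀ σ,
    σ ≠ Quot.out (Quot.mk (X.DA G) σ) → ∃ y ε, ε ∈ G ∧
      ((X.l ε = σ ∧ X.r ε = y) ∨ (X.l ε = y ∧ X.r ε = σ)) ∧ d y < d σ := by
  classical
  refine ⟨fun σ => Nat.find (reach_root X G σ), fun σ hσ => ?_⟩
  have h := Nat.find_spec (reach_root X G σ)
  beta_reduce
  generalize Nat.find (reach_root X G σ) = n at h ⊢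
  generalize e : Quot.out (Quot.mk (X.DA G) σ) = z at h hσ
  cases h with
  | refl => exact absurd rfl hσ
  | @step n _ y _ a b =>
    have e2 : Quot.mk (X.DA G) σ = Quot.mk (X.DA G) y := Quot.sound a
    obtain ⟨ε, h1, h2⟩ := a
    refine ⟨y, ε, h1, h2, Nat.lt_succ_of_le (Nat.find_min' _ ?_)⟩
    rw [← e2, e]
    exact b

end TreeA

open TreeA Relation in
theorem tree : TreeS := by
  classical
  intro X hX G m hm
  obtain ⟨d, hd⟩ := bfs X G
  let rt : X.F → Prop := fun σ => σ = Quot.out (Quot.mk (X.DA G) σ)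
  have hd2 : ∀ σ, ∃ y, ¬ rt σ → ∃ ε, ε ∈ G ∧
      ((X.l ε = σ ∧ X.r ε = y) ∨ (X.l ε = y ∧ X.r ε = σ)) ∧ d y < d σ := by
    intro σ
    by_cases k : rt σ
    · exact ⟨σ, fun h => absurd k h⟩
    · obtain ⟨y, h⟩ := hd σ k
      exact ⟨y, fun _ => h⟩
  choose par hpar using hd2
  have hd3 : ∀ σ, ∃ ε, ¬ rt σ → ε ∈ G ∧
      ((X.l ε = σ ∧ X.r ε = par σ) ∨ (X.l ε = par σ ∧ X.r ε = σ)) ∧ d (par σ) < d σ := by
    intro σ
    by_cases k : rt σ
    · obtain ⟨ε, _⟩ := hX.covF σ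
      exact ⟨ε, fun h => absurd k h⟩
    · obtain ⟨ε, h⟩ := hpar σ k
      exact ⟨ε, fun _ => h⟩
  choose pe hpe using hd3
  have hinj : ∀ a b, ¬ rt a → ¬ rt b → pe a = pe b → a = b := by
    intro a b ha hb e
    obtain ⟨_, a1, a2⟩ := hpe a ha
    obtain ⟨_, b1, b2⟩ := hpe b hb
    rw [e] at a1
    rcases a1 with ⟨a1, a3⟩ | ⟨a1, a3⟩ <;> rcases b1 with ⟨b1, b3⟩ | ⟨b1, b3⟩
    · exact a1.symm.trans b1
    · have e1 : a = par b := a1.symm.trans b1
      have e2 : par a = b := a3.symm.trans b3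
      rw [e2] at a2; rw [← e1] at b2; omega
    · have e1 : par a = b := a1.symm.trans b1
      have e2 : a = par b := a3.symm.trans b3
      rw [e1] at a2; rw [← e2] at b2; omega
    · exact a3.symm.trans b3
  have hch : ∀ w, {c | ¬ rt c ∧ par c = w}.ncard ≤ 5 := by
    intro w
    refine le_trans (Set.ncard_le_ncard_of_injOn pe (fun c hc => ?_)
      (fun a ha b hb e => hinj a b ha.1 hb.1 e) (Set.toFinite _)) (hX.deg w)
    rcases (hpe c hc.1).2.1 with h | h
    · exact Or.inr (h.2.trans hc.2)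
    · exact Or.inl (h.1.trans hc.2)
  obtain ⟨top, t1, t2, t3, -⟩ := cutF rt par d (fun σ k => (hpe σ k).2.2) hch m _ Set.univ rfl
    (fun _ _ _ => Set.mem_univ _)
  simp only [Set.mem_univ, true_and, forall_const, Set.ncard_univ] at t1 t2 t3
  refine ⟨top, t1, fun σ => ?_, ?_⟩
  · induction hn : d σ using Nat.strong_induction_on generalizing σ with
    | _ n ih =>
    rcases t2 σ with e | ⟨e1, e2⟩
    · rw [e]
    · obtain ⟨h1, h2, h3⟩ := hpe σ e1
      have := ih (d (par σ)) (hn ▸ h3) (par σ) rfl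
      rw [e2] at this
      exact ReflTransGen.head ⟨rfl, e2, pe σ, h1, h2⟩ this
  · have c1 : {σ | top σ ≠ σ}.ncard ≤ {ε | ε ∈ G ∧ top (X.l ε) = top (X.r ε)}.ncard := by
      refine Set.ncard_le_ncard_of_injOn pe (fun σ hσ => ?_) (fun a ha b hb e => ?_)
        (Set.toFinite _)
      · obtain ⟨e1, e2⟩ := (t2 σ).resolve_left hσ
        obtain ⟨h1, h2, _⟩ := hpe σ e1
        refine ⟨h1, ?_⟩
        rcases h2 with h | h <;> rw [h.1, h.2, e2]
      · exact hinj a b ((t2 a).resolve_left ha).1 ((t2 b).resolve_left hb).1 e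
    have c2 : {σ | rt σ}.ncard ≤ X.ncomp G := by
      rw [Surf.ncomp, ← Set.ncard_univ]
      refine Set.ncard_le_ncard_of_injOn (Quot.mk (X.DA G)) (fun _ _ => Set.mem_univ _)
        (fun a ha b hb e => ?_) (Set.toFinite _)
      have ha : a = Quot.out (Quot.mk (X.DA G) a) := ha
      have hb : b = Quot.out (Quot.mk (X.DA G) b) := hb
      rw [ha, hb, e]
    have c3 : {σ | top σ = σ ∧ ¬ rt σ}.ncard ≤ Nat.card X.F / m := by
      rw [Nat.le_div_iff_mul_le hm, Nat.mul_comm]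
      exact t3
    have c4 : Nat.card X.F ≤
        {σ | top σ ≠ σ}.ncard + {σ | rt σ}.ncard + {σ | top σ = σ ∧ ¬ rt σ}.ncard := by
      rw [← Set.ncard_univ]
      refine le_trans (Set.ncard_le_ncard (t := {σ | top σ ≠ σ} ∪ {σ | rt σ} ∪
        {σ | top σ = σ ∧ ¬ rt σ}) (fun σ _ => ?_) (Set.toFinite _))
        ((Set.ncard_union_le _ _).trans (Nat.add_le_add_right (Set.ncard_union_le _ _) _))
      by_cases k1 : top σ = σ
      · by_cases k2 : rt σ
        · exact Or.inl (Or.inr k2)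
        · exact Or.inr ⟨k1, k2⟩
      · exact Or.inl (Or.inl k1)
    have c5 : {ε | ε ∈ G ∧ top (X.l ε) ≠ top (X.r ε)}.ncard +
        {ε | ε ∈ G ∧ top (X.l ε) = top (X.r ε)}.ncard = G.ncard := by
      rw [← Set.ncard_union_eq (Set.disjoint_left.2 fun ε h k => h.2 k.2)]
      congr 1
      ext ε
      simp only [Set.mem_union, Set.mem_ofPred_eq]
      tauto
    omega

end Pool.Agent.MP_df844f_gt
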