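import Pool.Agent.MP_df844f_gt.Spec

/-! Upper bounds for the cocycles of degree one and for the number of arcs. -/

namespace Pool.Agent.MP_df844f_gt

open PS

namespace ZLowA

theorem card_le {V : Type} [AddCommGroup V] {r : ℕ} (f : V → Fin r → F2)
    (hf : ∀ a b, f (a + b) = f a + f b) {X : Type} [Finite X] (R : V → (X → F2) → Prop)
    (hex : ∀ v, f v = 0 → ∃ φ, R v φ) (hinj : ∀ v v' φ, R v φ → R v' φ → v = v') :
    Nat.card V ≤ 2 ^ (r + Nat.card X) := by
  have h0 : ∀ v, f (v + Function.invFun f (f v)) = 0 := by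
    intro v
    rw [hf, Function.invFun_eq (f := f) ⟨v, rfl⟩]
    funext i
    exact F2_add_self _
  choose φ hφ using fun v => hex _ (h0 v)
  have inj : Function.Injective fun v => (f v, φ v) := by
    intro v v' h
    have h1 : f v = f v' := congrArg Prod.fst h
    have h2 : φ v = φ v' := congrArg Prod.snd h
    have h3 := hinj _ _ _ (hφ v) (h2 ▸ hφ v')
    rw [h1] at h3
    exact add_right_cancel h3
  refine (Nat.card_le_card_of_injective _ inj).trans ?_
  rw [Nat.card_prod, Nat.card_fun, Nat.card_fun, Nat.card_zmod, Nat.card_fin, pow_add]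

variable {B : Type} [MulAction W B]

theorem ev_add {Y : PS B} {E : Type} [MulAction W E] (c c' : Y.Coch E) (ch : Y.Path) (ε : E) :
    ev (c + c') ch ε = ev c ch ε + ev c' ch ε := by
  induction ch with
  | nil => rfl
  | cons l ch ih =>
    rw [ev_cons, ev_cons, ev_cons, ih, Pi.add_apply, Pi.add_apply]
    ring

/-- The arcs: darts up to reversal. -/
theorem exists_arcs (Y : PS B) : ∃ (Q : Type) (_ : Finite Q) (pr : Y.A → Q),
    Function.Surjective pr ∧ (∀ a, pr (Y.rev a) = pr a) ∧ Nat.card Y.A ≤ 2 * Nat.card Q := by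
  let σ : Setoid Y.A := ⟨fun a b => b = a ∨ b = Y.rev a, fun _ => Or.inl rfl, by
    rintro a b (rfl | rfl)
    · exact Or.inl rfl
    · exact Or.inr (Y.rev_rev a).symm, by
    rintro a b c (rfl | rfl) (rfl | rfl)
    · exact Or.inl rfl
    · exact Or.inr rfl
    · exact Or.inr rfl
    · exact Or.inl (Y.rev_rev a)⟩
  refine ⟨Quotient σ, inferInstance, Quotient.mk σ, Quotient.mk_surjective,
    fun a => (Quotient.sound (Or.inr rfl)).symm, ?_⟩
  have hs : Function.Surjective fun p : Bool × Quotient σ =>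
      if p.1 then p.2.out else Y.rev p.2.out := by
    intro a
    rcases Quotient.exact (Quotient.out_eq (Quotient.mk σ a)) with h | h
    · exact ⟨(true, Quotient.mk σ a), h.symm⟩
    · exact ⟨(false, Quotient.mk σ a), h.symm⟩
  have := Nat.card_le_card_of_surjective _ hs
  rwa [Nat.card_prod, Nat.card_eq_fintype_card (α := Bool), Fintype.card_bool] at this

/-- The cochain with values `u` on thick edges and `v` on arcs. -/
def th {Y : PS B} {Q : Type} (pr : Y.A → Q) (u : Y.Chain) (v : Q → F2) : Y.Coch Unit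
  | .edge s x _ => fun _ => u (Y.cell x {s})
  | .dart a => fun _ => v (pr a)

theorem th_add {Y : PS B} {Q : Type} (pr : Y.A → Q) (u u' : Y.Chain) (v v' : Q → F2) :
    th pr (u + u') (v + v') = th pr u v + th pr u' v' := by
  funext l
  cases l <;> rfl

theorem full_sq {Y : PS B} (hY : Y.State) {s t : S} {x0 x1 x2 x3 : Y.Om} (h : adj s t)
    (e0 : Y.e s x0 x1) (e1 : Y.e t x1 x2) (e2 : Y.e s x2 x3) (e3 : Y.e t x3 x0) :
    Y.Full x0 {s, t} := by
  intro y hy v hv
  have k := hY.orb2 h hy.symm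
  rw [hY.sg_eq e0, hY.sg_eq e1, hY.sg_eq (Y.e_symm e3), hY.sg_eq (Y.e_symm e2)] at k
  rw [Finset.mem_insert, Finset.mem_singleton] at hv
  rcases k with rfl | rfl | rfl | rfl | rfl <;> rcases hv with rfl | rfl
  · exact fun k => k ⟨_, e0⟩
  · exact fun k => k ⟨_, Y.e_symm e3⟩
  · exact fun k => k ⟨_, Y.e_symm e0⟩
  · exact fun k => k ⟨_, e1⟩
  · exact fun k => k ⟨_, Y.e_symm e2⟩
  · exact fun k => k ⟨_, e3⟩
  · exact fun k => k ⟨_, e2⟩
  · exact fun k => k ⟨_, Y.e_symm e1⟩
  · exact fun k => k ⟨_, e2⟩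
  · exact fun k => k ⟨_, Y.e_symm e1⟩

theorem th_cocyc (co : CoefS) (hB : Loc B) {Y : PS B} (hY : Y.State) {Q : Type} {pr : Y.A → Q}
    (hp : ∀ a, pr (Y.rev a) = pr a) {u : Y.Chain} (hu : Y.dl 2 u = 0) (v : Q → F2) :
    Cocyc (th pr u v) where
  symm s x y _ h := congrArg u (cell_e (Finset.mem_singleton_self s) (Y.e_symm h))
  dsym a _ := congrArg v (hp a)
  sq s t x0 x1 x2 x3 _ h e0 e1 e2 e3 := by
    have hne := adj_ne h
    have hf := full_sq hY h e0 e1 e2 e3
    have hc : Clq {s, t} := by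
      intro a ha b hb hab
      rw [Finset.mem_insert, Finset.mem_singleton] at ha hb
      rcases ha with rfl | rfl <;> rcases hb with rfl | rfl
      · exact (hab rfl).elim
      · exact h
      · exact adj_symm h
      · exact (hab rfl).elim
    have hm : Y.cell x0 {s, t} ∈ Y.FC 2 := ⟨x0, {s, t}, Finset.card_pair hne, hc, hf, rfl⟩
    have h0 : Y.bd u (Y.cell x0 {s, t}) = 0 := by
      have := DFunLike.congr_fun hu (Y.cell x0 {s, t})
      classical
      have h2 : (Finsupp.filter (· ∈ Y.FC 2) (Y.bd u)) (Y.cell x0 {s, t}) = 0 := by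
        rw [← Finsupp.restrictDom_apply (R := F2)]; exact this
      rwa [Finsupp.filter_apply_pos _ _ hm] at h2
    have e4 : ({s, t} : Finset S).erase s = {t} := Finset.erase_insert (by simpa using hne)
    have e5 : ({s, t} : Finset S).erase t = {s} := by
      rw [Finset.pair_comm]; exact Finset.erase_insert (by simpa using hne.symm)
    rw [co B hB Y hY u x0 _ hc hf, Finset.sum_pair hne, e4, e5, hY.sg_eq e0,
      hY.sg_eq (Y.e_symm e3), ← cell_e (Finset.mem_singleton_self t) e3,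
      ← cell_e (Finset.mem_singleton_self s) e2] at h0
    show u (Y.cell x0 {s}) + u (Y.cell x1 {t}) + u (Y.cell x2 {s}) + u (Y.cell x3 {t}) = 0
    rw [← h0]; ring

end ZLowA

open ZLowA

theorem zlow (co : CoefS) : ZLowS := by
  intro B _ o hB Y x0 r μ hY hI
  obtain ⟨Λ, hΛ, -⟩ := hI
  obtain ⟨lam, -, hl⟩ := hΛ.b1
  obtain ⟨Q, _, pr, p1, p2, p3⟩ := exists_arcs Y
  have h := card_le
    (V := (Y.Ck 1 ⊓ LinearMap.ker (Y.dl (1 + 1)) : Submodule F2 Y.Chain) × (Q → F2))
    (fun v i => ev (th pr v.1.1 v.2) (lam i) ()) (fun a b => funext fun i => by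
      show ev (th pr (a.1.1 + b.1.1) (a.2 + b.2)) (lam i) () = _
      rw [th_add, ev_add]; rfl)
    (fun v (φ : Y.Om → F2) => IsD (th pr v.1.1 v.2) fun x _ => φ x)
    (fun v hv => by
      obtain ⟨φ, hφ⟩ := hl _ (th_cocyc co hB hY p2 v.1.2.2 v.2) (congrFun hv)
      exact ⟨fun x => φ x (), hφ⟩)
    (fun v v' φ h h' => by
      refine Prod.ext (Subtype.ext (Finsupp.ext fun c => ?_)) (funext fun q => ?_)
      · by_cases k : c ∈ Y.FC 1
        · obtain ⟨x, J, hJ, -, hf, rfl⟩ := k
          obtain ⟨s, rfl⟩ := Finset.card_eq_one.1 hJ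
          have e := e_sg (hY.full_one.1 hf)
          exact (h.ed s _ _ () e).trans (h'.ed s _ _ () e).symm
        · rw [(Finsupp.mem_supported' F2 _).1 v.1.2.1 c k,
            (Finsupp.mem_supported' F2 _).1 v'.1.2.1 c k]
      · obtain ⟨a, rfl⟩ := p1 q
        exact (h.da a ()).trans (h'.da a ()).symm)
  rw [Nat.card_prod, Nat.card_fun, Module.natCard_eq_pow_finrank (K := F2), Nat.card_zmod,
    ← pow_add, Nat.pow_le_pow_iff_right (by omega)] at h
  unfold zz vol
  omega

theorem arcS : ArcS := by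
  intro B _ o Y x0 r μ hI
  obtain ⟨Λ, hΛ, -⟩ := hI
  obtain ⟨lam, -, hl⟩ := hΛ.b1
  obtain ⟨Q, _, pr, p1, p2, p3⟩ := exists_arcs Y
  have h := card_le (V := Q → F2) (X := {c | ∃ x, c = Y.cell x Finset.univ})
    (fun v i => ev (th pr 0 v) (lam i) ()) (fun a b => funext fun i => by
      show ev (th pr 0 (a + b)) (lam i) () = _
      rw [← add_zero (0 : Y.Chain), th_add, ev_add, add_zero]; rfl)
    (fun v ψ => ∀ a, v (pr a) = ψ ⟨_, Y.src a, rfl⟩ + ψ ⟨_, Y.src (Y.rev a), rfl⟩)
    (fun v hv => by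
      obtain ⟨φ, hφ⟩ := hl (th pr 0 v)
        ⟨fun _ _ _ _ _ => rfl, fun a _ => congrArg v (p2 a), fun _ _ _ _ _ _ _ _ _ _ _ _ => rfl⟩
        (congrFun hv)
      have hc : ∀ x y, Y.cell x Finset.univ = Y.cell y Finset.univ → φ x () = φ y () := by
        intro x y h
        have := (cell_eq_iff.1 h).2
        clear h
        induction this with
        | refl => rfl
        | tail _ k ih =>
          obtain ⟨s, -, e⟩ := k
          have h0 : (0 : F2) = φ _ () + φ _ () := hφ.ed s _ _ () e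
          rw [ih, eq_neg_of_add_eq_zero_left h0.symm, CharTwo.neg_eq]
      refine ⟨fun c => φ c.2.choose (), fun a => ?_⟩
      have k : ∀ x, φ (⟨_, x, rfl⟩ : {c | ∃ x, c = Y.cell x Finset.univ}).2.choose () = φ x () :=
        fun x => (hc _ _ (⟨_, x, rfl⟩ : {c | ∃ x, c = Y.cell x Finset.univ}).2.choose_spec).symm
      exact (hφ.da a ()).trans (congrArg₂ _ (k _).symm (k _).symm))
    (fun v v' ψ h h' => funext fun q => by
      obtain ⟨a, rfl⟩ := p1 q
      exact (h a).trans (h' a).symm)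
  rw [Nat.card_fun, Nat.card_zmod, Nat.pow_le_pow_iff_right (by omega), Nat.card_coe_set_eq] at h
  unfold nK
  omega

end Pool.Agent.MP_df844f_gt
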