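import Pool.Agent.MP_df844f_gt.w.All
import Pool.Agent.MP_df844f_gt.s2.All
import Pool.Agent.MP_df844f_gt.s3.All
import Pool.Agent.MP_df844f_gt.s5.Abs
import Pool.Agent.MP_df844f_gt.s5.Area
import Pool.Agent.MP_df844f_gt.s5.ChiP
import Pool.Agent.MP_df844f_gt.s5.Coef
import Pool.Agent.MP_df844f_gt.s5.CoreA
import Pool.Agent.MP_df844f_gt.s5.CoreB
import Pool.Agent.MP_df844f_gt.s5.EndA
import Pool.Agent.MP_df844f_gt.s5.EndB
import Pool.Agent.MP_df844f_gt.s5.EndM
import Pool.Agent.MP_df844f_gt.s5.Euler
import Pool.Agent.MP_df844f_gt.s5.Forest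
import Pool.Agent.MP_df844f_gt.s5.Inst
import Pool.Agent.MP_df844f_gt.s5.LemS
import Pool.Agent.MP_df844f_gt.s5.Struct
import Pool.Agent.MP_df844f_gt.s5.Surj
import Pool.Agent.MP_df844f_gt.s5.TIneq
import Pool.Agent.MP_df844f_gt.s5.TauV
import Pool.Agent.MP_df844f_gt.s5.Tree
import Pool.Agent.MP_df844f_gt.s5.ZLow
import Pool.Agent.MP_df844f_gt.Main

/-! All statements of section 5 and the main bound, free of hypotheses. -/

namespace Pool.Agent.MP_df844f_gt.S5All

theorem lemSA : LemSS := lemS forest tree
theorem absA : AbsS := absS lemSA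
theorem absChiA : AbsChiS := absChi lemSA
theorem instA : InstS := inst WAll.factA S3All.edgeA S3All.bdA
theorem tineqA : TIneqS := tineq S3All.gainA absA instA
theorem chiLeA : ChiLeS := chiLe absChiA instA
theorem coefA : CoefS := coef WAll.factA
theorem psizeA : PsizeS := psize WAll.factA
theorem tauVA : TauVS := tauV WAll.factA coefA psizeA
theorem chiPA : ChiPS := chiP WAll.factA psizeA tauVA
theorem surjA : SurjS := surj WAll.factA
theorem zlowA : ZLowS := zlow coefA
theorem coreBA : CoreBS := coreB WAll.h1A WAll.h2A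
theorem endAA : EndAS := endA coefA coreA
theorem endBA : EndBS := endB coefA coreBA
theorem endMA : EndMS := endM WAll.factA psizeA
theorem structA : StructS := struct S3All.beadA S2All.beadDegA freeEx
theorem areaA : AreaS := areaS tineqA chiPA euler surjA freeEx zlowA arcS addS structA
theorem noEndA : NoEndS :=
  noEnd tineqA chiLeA chiPA euler surjA freeEx endAA endBA endMA addS structA
theorem mainA : MainS := mainS S2All.initA S2All.pushA areaA noEndA S2All.volA

end Pool.Agent.MP_df844f_gt.S5All
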