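import Pool.Agent.MP_df844f_gt.Spec

/-! A breadth first forest on the vertices of an abstract surface. -/

namespace Pool.Agent.MP_df844f_gt

namespace ForestA

theorem exists_parent (X : Surf) (hX : X.OK) (RV : Set X.V) (δ : ℕ)
    (h : ∀ v, ∃ u ∈ RV, Rn X.PAdj δ u v) :
    ∃ (dep : X.V → ℕ) (par : X.V → X.V) (pe : X.V → X.Ed), (∀ v, dep v ≤ δ) ∧
      (∀ v, dep v = 0 → v ∈ RV) ∧
      ∀ v, 0 < dep v → dep (par v) < dep v ∧
        ((X.p (pe v) = par v ∧ X.q (pe v) = v) ∨ (X.p (pe v) = v ∧ X.q (pe v) = par v)) := by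
  classical
  have hex : ∀ v, ∃ n, ∃ u ∈ RV, Rn X.PAdj n u v := fun v => ⟨δ, h v⟩
  have key : ∀ v, ∃ (y : X.V) (ε : X.Ed), 0 < Nat.find (hex v) →
      Nat.find (hex y) < Nat.find (hex v) ∧
        ((X.p ε = y ∧ X.q ε = v) ∨ (X.p ε = v ∧ X.q ε = y)) := by
    intro v
    by_cases h0 : 0 < Nat.find (hex v)
    · obtain ⟨n, hn⟩ := Nat.exists_eq_succ_of_ne_zero h0.ne'
      obtain ⟨u, hu, hr⟩ := Nat.find_spec (hex v)
      rw [hn] at hr
      rcases Rn.tail_cases hr with k | ⟨y, k1, ε, k2⟩
      · exact absurd ⟨u, hu, k⟩ (Nat.find_min (hex v) (by omega))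
      · refine ⟨y, ε, fun _ => ⟨?_, k2⟩⟩
        have : Nat.find (hex y) ≤ n := Nat.find_min' (hex y) ⟨u, hu, k1⟩
        omega
    · obtain ⟨ε, -⟩ := hX.covV v
      exact ⟨v, ε, fun k => absurd k h0⟩
  choose par pe hp using key
  refine ⟨fun v => Nat.find (hex v), par, pe, fun v => Nat.find_min' (hex v) (h v), ?_, hp⟩
  intro v hv
  obtain ⟨u, hu, hr⟩ := Nat.find_spec (hex v)
  have hv' : Nat.find (hex v) = 0 := hv
  rw [hv'] at hr
  cases hr
  exact hu

end ForestA

theorem forest : ForestS := by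
  classical
  intro X hX RV δ h
  obtain ⟨dep, par, pe, hδ, h0, hp⟩ := ForestA.exists_parent X hX RV δ h
  have hinj : Set.InjOn pe {v | 0 < dep v} := by
    intro a ha b hb e
    obtain ⟨a1, a2⟩ := hp a ha
    obtain ⟨b1, b2⟩ := hp b hb
    rw [e] at a2
    rcases a2 with ⟨a2, a3⟩ | ⟨a2, a3⟩ <;> rcases b2 with ⟨b2, b3⟩ | ⟨b2, b3⟩
    · exact a3.symm.trans b3
    · have e1 : par a = b := a2.symm.trans b2
      have e2 : par b = a := b3.symm.trans a3
      rw [e1] at a1; rw [e2] at b1; omega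
    · have e1 : par a = b := a3.symm.trans b3
      have e2 : par b = a := b2.symm.trans a2
      rw [e1] at a1; rw [e2] at b1; omega
    · exact a2.symm.trans b2
  refine ⟨pe '' {v | 0 < dep v}, ?_, fun P => ?_⟩
  · rw [hinj.ncard_image, ← Set.ncard_univ]
    refine le_trans (Set.ncard_le_ncard (t := {v | 0 < dep v} ∪ RV) ?_ (Set.toFinite _))
      (Set.ncard_union_le _ _)
    intro v _
    rcases Nat.eq_zero_or_pos (dep v) with k | k
    · exact Or.inr (h0 v k)
    · exact Or.inl k
  · have down : ∀ m v, δ - dep v ≤ m → 0 < dep v → X.cut P (pe v) →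
        ∃ ε k, X.cut P ε ∧ ε ∉ pe '' {v | 0 < dep v} ∧ k + dep v ≤ δ ∧
          (par^[k] (X.p ε) = v ∨ par^[k] (X.q ε) = v) := by
      intro m
      induction m using Nat.strong_induction_on with
      | _ m ih =>
        intro v hm hv hc
        have hinc : X.p (pe v) = v ∨ X.q (pe v) = v := by
          rcases (hp v hv).2 with k | k
          · exact Or.inr k.2
          · exact Or.inl k.1
        obtain ⟨ε, hne, hcε, hε⟩ := hX.par P (pe v) v hc hinc
        by_cases hF : ε ∈ pe '' {v | 0 < dep v}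
        · obtain ⟨w, hw, rfl⟩ := hF
          have hwv : w ≠ v := fun e => hne (by rw [e])
          obtain ⟨w1, w2⟩ := hp w hw
          have hpar : par w = v := by
            rcases w2 with ⟨w2, w3⟩ | ⟨w2, w3⟩ <;> rcases hε with k | k
            · exact w2.symm.trans k
            · exact absurd (w3.symm.trans k) hwv
            · exact absurd (w2.symm.trans k) hwv
            · exact w3.symm.trans k
          rw [hpar] at w1
          have hw' := hδ w
          obtain ⟨ε, k, c1, c2, c3, c4⟩ := ih (δ - dep w) (by omega) w le_rfl hw hcε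
          refine ⟨ε, k + 1, c1, c2, by omega, ?_⟩
          rw [Function.iterate_succ_apply', Function.iterate_succ_apply']
          rcases c4 with c4 | c4
          · exact Or.inl (by rw [c4, hpar])
          · exact Or.inr (by rw [c4, hpar])
        · exact ⟨ε, 0, hcε, hF, by simpa using hδ v, hε⟩
    let N : Set X.Ed := {ε | X.cut P ε ∧ ε ∉ pe '' {v | 0 < dep v}}
    have hN : N.Finite := Set.toFinite _
    let T : Finset (Bool × ℕ × X.Ed) := Finset.univ ×ˢ Finset.range δ ×ˢ hN.toFinset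
    let Φ : Bool × ℕ × X.Ed → X.Ed := fun t =>
      pe (par^[t.2.1] (if t.1 then X.p t.2.2 else X.q t.2.2))
    have hsub : {ε | X.cut P ε ∧ ε ∈ pe '' {v | 0 < dep v}} ⊆ ((T.image Φ : Finset X.Ed) : Set _) := by
      rintro ε ⟨hc, v, hv, rfl⟩
      have hv' : 0 < dep v := hv
      obtain ⟨ε, k, c1, c2, c3, c4⟩ := down _ v le_rfl hv hc
      have hk : k ∈ Finset.range δ := Finset.mem_range.2 (by omega)
      have hε : ε ∈ hN.toFinset := hN.mem_toFinset.2 ⟨c1, c2⟩
      rw [Finset.mem_coe, Finset.mem_image]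
      rcases c4 with c4 | c4
      · exact ⟨(true, k, ε), Finset.mem_product.2 ⟨Finset.mem_univ _, Finset.mem_product.2 ⟨hk, hε⟩⟩,
          by simp only [Φ, if_true, c4]⟩
      · exact ⟨(false, k, ε), Finset.mem_product.2 ⟨Finset.mem_univ _, Finset.mem_product.2 ⟨hk, hε⟩⟩,
          by simp only [Φ, Bool.false_eq_true, if_false, c4]⟩
    refine le_trans (Set.ncard_le_ncard hsub (Finset.finite_toSet _)) ?_
    rw [Set.ncard_coe_finset]
    refine le_trans Finset.card_image_le ?_
    have : T.card = 2 * δ * N.ncard := by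
      simp only [T, Finset.card_product, Finset.card_univ, Fintype.card_bool, Finset.card_range,
        Set.ncard_eq_toFinset_card N hN, mul_assoc]
    exact this.le

end Pool.Agent.MP_df844f_gt
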